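import Mathlib
import Pool.Agent.Y685.F4

/-!
# Analytic families of lattices: analyticity of the attached functions
-/

set_option autoImplicit false

open Filter Topology Set
open scoped PeriodPair

noncomputable section

namespace Pool.Agent.Y776.Fam

open H667R3 Pool.Agent.W245.EB Pool.Agent.Y685 Pool.Agent.Y685.H2

/-- the zeros of a nonzero analytic function are countable -/
theorem countable_zeros {U : Set ℂ} (hc : IsPreconnected U) {f : ℂ → ℂ}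
    (hf : AnalyticOnNhd ℂ f U) (hne : ∃ z ∈ U, f z ≠ 0) : {z | z ∈ U ∧ f z = 0}.Countable := by
  apply (HereditarilyLindelofSpace.isLindelof _).countable_of_isDiscrete
  rw [isDiscrete_iff_nhdsNE]
  intro c hcU
  rw [← _root_.disjoint_iff, Filter.disjoint_principal_right]
  rcases (hf c hcU.1).eventually_eq_zero_or_eventually_ne_zero with h | h
  · exfalso
    obtain ⟨z, hz, hne⟩ := hne
    exact hne (hf.eqOn_zero_of_preconnected_of_eventuallyEq_zero hc hcU.1 h hz)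
  · filter_upwards [h] with x hx hx2
    exact hx hx2.2

/-- an analytic family of lattices -/
structure LF (U : Set ℂ) (Λ : ℂ → PeriodPair) : Prop where
  isOpen : IsOpen U
  conn : IsPreconnected U
  an₁ : AnalyticOnNhd ℂ (fun z => (Λ z).ω₁) U
  an₂ : AnalyticOnNhd ℂ (fun z => (Λ z).ω₂) U

variable {U : Set ℂ} {Λ : ℂ → PeriodPair}

theorem im_ne (L : PeriodPair) : (L.ω₂ / L.ω₁).im ≠ 0 := by
  have h1 : L.ω₁ ≠ 0 := ω₁_ne_zero L
  intro h0
  have h3 := LinearIndependent.pair_iff.1 L.indep (-(L.ω₂ / L.ω₁).re) 1 (by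
    have h4 : L.ω₂ / L.ω₁ = ((L.ω₂ / L.ω₁).re : ℂ) := by
      apply Complex.ext
      · simp
      · simp [h0]
    have h5 : L.ω₂ = ((L.ω₂ / L.ω₁).re : ℂ) * L.ω₁ := by
      rw [← h4, div_mul_cancel₀ _ h1]
    rw [one_smul, neg_smul, Complex.real_smul, ← h5]
    ring)
  exact one_ne_zero h3.2

/-- the normalized lattice -/
def nt (ε : ℂ) (L : PeriodPair) : ℂ := ε * (L.ω₂ / L.ω₁)

theorem Hm_nt (L : PeriodPair) {ε : ℂ} (hε : ε = 1 ∨ ε = -1) (h : 0 < (nt ε L).im) :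
    Hm (LC (nt ε L)) L L.ω₁ := by
  have h1 : L.ω₁ ≠ 0 := ω₁_ne_zero L
  refine ⟨h1, fun x => ?_⟩
  rw [mem_LC h, PeriodPair.mem_lattice]
  rcases hε with rfl | rfl
  · constructor
    · rintro ⟨m, n, h⟩
      refine ⟨m, n, mul_left_cancel₀ h1 ?_⟩
      rw [← h, nt]
      field_simp
    · rintro ⟨m, n, h⟩
      refine ⟨m, n, ?_⟩
      rw [← h, nt]
      field_simp
  · constructor
    · rintro ⟨m, n, h⟩
      refine ⟨m, -n, mul_left_cancel₀ h1 ?_⟩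
      rw [← h, nt]
      push_cast
      field_simp
    · rintro ⟨m, n, h⟩
      refine ⟨m, -n, ?_⟩
      rw [← h, nt]
      push_cast
      field_simp

theorem LF.an_nt (h : LF U Λ) (ε : ℂ) {z₀ : ℂ} (hz : z₀ ∈ U) :
    AnalyticAt ℂ (fun z => nt ε (Λ z)) z₀ := by
  unfold nt
  exact analyticAt_const.mul ((h.an₂ z₀ hz).div (h.an₁ z₀ hz) (ω₁_ne_zero _))

theorem LF.exists_norm (h : LF U Λ) {z₀ : ℂ} (hz : z₀ ∈ U) : ∃ ε : ℂ, (ε = 1 ∨ ε = -1) ∧
    ∀ᶠ z in 𝓝 z₀, 0 < (nt ε (Λ z)).im := by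
  have hc : ∀ ε : ℂ, ContinuousAt (fun z => (nt ε (Λ z)).im) z₀ := fun ε =>
    Complex.continuous_im.continuousAt.comp (h.an_nt ε hz).continuousAt
  rcases lt_or_gt_of_ne (im_ne (Λ z₀)) with h3 | h3
  · refine ⟨-1, Or.inr rfl, (hc (-1)).eventually (lt_mem_nhds ?_)⟩
    simp only [nt, neg_mul, one_mul, Complex.neg_im]
    linarith
  · refine ⟨1, Or.inl rfl, (hc 1).eventually (lt_mem_nhds ?_)⟩
    simp only [nt, one_mul]
    exact h3

/-- composition with a function of two variables -/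
theorem _root_.Pool.Agent.Y685.H2.SH.comp_an {f : ℂ → ℂ → ℂ} {a b : ℂ → ℂ} {z₀ : ℂ}
    (hf : SH f (a z₀, b z₀)) (ha : AnalyticAt ℂ a z₀) (hb : AnalyticAt ℂ b z₀) :
    AnalyticAt ℂ (fun z => f (a z) (b z)) z₀ := by
  rw [Complex.analyticAt_iff_eventually_differentiableAt]
  have hc : ContinuousAt (fun z => (a z, b z)) z₀ := ha.continuousAt.prodMk hb.continuousAt
  filter_upwards [hc.eventually hf.eventually, ha.eventually_analyticAt,
    hb.eventually_analyticAt] with z h1 h2 h3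
  exact ((h1.strict.hasFDerivAt.comp_hasDerivAt z
    (h2.differentiableAt.hasDerivAt.prodMk h3.differentiableAt.hasDerivAt))).differentiableAt

theorem an_of_diff {f a : ℂ → ℂ} {z₀ : ℂ} (hf : ∀ᶠ t in 𝓝 (a z₀), DifferentiableAt ℂ f t)
    (ha : AnalyticAt ℂ a z₀) : AnalyticAt ℂ (fun z => f (a z)) z₀ :=
  (Complex.analyticAt_iff_eventually_differentiableAt.2 hf).comp ha

theorem ev_im {t : ℂ} (ht : 0 < t.im) : ∀ᶠ s : ℂ in 𝓝 t, 0 < s.im :=
  Complex.continuous_im.continuousAt.eventually (lt_mem_nhds ht)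

theorem LF.an_g₂ (h : LF U Λ) : AnalyticOnNhd ℂ (fun z => (Λ z).g₂) U := by
  intro z₀ hz
  obtain ⟨ε, hε, hev⟩ := h.exists_norm hz
  have h1 : AnalyticAt ℂ (fun z => (LC (nt ε (Λ z))).g₂ / (Λ z).ω₁ ^ 4) z₀ := by
    refine AnalyticAt.div ?_ ((h.an₁ z₀ hz).pow 4) (pow_ne_zero _ (ω₁_ne_zero _))
    refine an_of_diff (f := fun s => (LC s).g₂) ?_ (h.an_nt ε hz)
    filter_upwards [ev_im hev.self_of_nhds] with s hs
    exact (diff_g hs).1
  refine h1.congr ?_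
  filter_upwards [hev] with z hz'
  exact ((Hm_nt (Λ z) hε hz').g₂).symm

theorem LF.an_g₃ (h : LF U Λ) : AnalyticOnNhd ℂ (fun z => (Λ z).g₃) U := by
  intro z₀ hz
  obtain ⟨ε, hε, hev⟩ := h.exists_norm hz
  have h1 : AnalyticAt ℂ (fun z => (LC (nt ε (Λ z))).g₃ / (Λ z).ω₁ ^ 6) z₀ := by
    refine AnalyticAt.div ?_ ((h.an₁ z₀ hz).pow 6) (pow_ne_zero _ (ω₁_ne_zero _))
    refine an_of_diff (f := fun s => (LC s).g₃) ?_ (h.an_nt ε hz)
    filter_upwards [ev_im hev.self_of_nhds] with s hs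
    exact (diff_g hs).2
  refine h1.congr ?_
  filter_upwards [hev] with z hz'
  exact ((Hm_nt (Λ z) hε hz').g₃).symm

theorem LF.an_eta (h : LF U Λ) : AnalyticOnNhd ℂ (fun z => eta (Λ z) (Λ z).ω₁) U := by
  intro z₀ hz
  obtain ⟨ε, hε, hev⟩ := h.exists_norm hz
  have h1 : AnalyticAt ℂ (fun z => h1 (nt ε (Λ z)) / (Λ z).ω₁) z₀ := by
    refine AnalyticAt.div ?_ (h.an₁ z₀ hz) (ω₁_ne_zero _)
    refine an_of_diff ?_ (h.an_nt ε hz)
    filter_upwards [ev_im hev.self_of_nhds] with s hs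
    exact diff_h1 hs
  refine h1.congr ?_
  filter_upwards [hev] with z hz'
  have := (Hm_nt (Λ z) hε hz').eta (one_mem hz')
  rw [mul_one] at this
  rw [this]
  rfl

theorem LF.an_zeta (h : LF U Λ) {p : ℂ → ℂ} (hp : AnalyticOnNhd ℂ p U)
    (hpn : ∀ z ∈ U, p z ∉ (Λ z).lattice) :
    AnalyticOnNhd ℂ (fun z => zeta (Λ z) (p z)) U := by
  intro z₀ hz
  obtain ⟨ε, hε, hev⟩ := h.exists_norm hz
  have hq : AnalyticAt ℂ (fun z => p z / (Λ z).ω₁) z₀ := (hp z₀ hz).div (h.an₁ z₀ hz) (ω₁_ne_zero _)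
  have hn : p z₀ / (Λ z₀).ω₁ ∉ (LC (nt ε (Λ z₀))).lattice := by
    rw [← (Hm_nt (Λ z₀) hε hev.self_of_nhds).notMem, mul_div_cancel₀ _ (ω₁_ne_zero _)]
    exact hpn z₀ hz
  have h1 : AnalyticAt ℂ (fun z => zeta (LC (nt ε (Λ z))) (p z / (Λ z).ω₁) / (Λ z).ω₁) z₀ :=
    ((SH_zeta hev.self_of_nhds hn).comp_an (f := fun t z => zeta (LC t) z)
      (a := fun z => nt ε (Λ z)) (h.an_nt ε hz) hq).div (h.an₁ z₀ hz) (ω₁_ne_zero _)
  refine h1.congr ?_
  filter_upwards [hev] with z hz'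
  have := (Hm_nt (Λ z) hε hz').zeta (p z / (Λ z).ω₁)
  rw [mul_div_cancel₀ _ (ω₁_ne_zero _)] at this
  exact this.symm

theorem LF.an_wp (h : LF U Λ) {p : ℂ → ℂ} (hp : AnalyticOnNhd ℂ p U)
    (hpn : ∀ z ∈ U, p z ∉ (Λ z).lattice) :
    AnalyticOnNhd ℂ (fun z => ℘[Λ z] (p z)) U := by
  intro z₀ hz
  obtain ⟨ε, hε, hev⟩ := h.exists_norm hz
  have hq : AnalyticAt ℂ (fun z => p z / (Λ z).ω₁) z₀ := (hp z₀ hz).div (h.an₁ z₀ hz) (ω₁_ne_zero _)
  have hn : p z₀ / (Λ z₀).ω₁ ∉ (LC (nt ε (Λ z₀))).lattice := by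
    rw [← (Hm_nt (Λ z₀) hε hev.self_of_nhds).notMem, mul_div_cancel₀ _ (ω₁_ne_zero _)]
    exact hpn z₀ hz
  have h1 : AnalyticAt ℂ (fun z => ℘[LC (nt ε (Λ z))] (p z / (Λ z).ω₁) / (Λ z).ω₁ ^ 2) z₀ :=
    ((SH_wp hev.self_of_nhds hn).comp_an (f := fun t z => ℘[LC t] z)
      (a := fun z => nt ε (Λ z)) (h.an_nt ε hz) hq).div ((h.an₁ z₀ hz).pow 2)
      (pow_ne_zero _ (ω₁_ne_zero _))
  refine h1.congr ?_
  filter_upwards [hev] with z hz'
  have := (Hm_nt (Λ z) hε hz').wp (p z / (Λ z).ω₁)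
  rw [mul_div_cancel₀ _ (ω₁_ne_zero _)] at this
  exact this.symm

end Pool.Agent.Y776.Fam
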