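import Mathlib
import Pool.Agent.Y776.Fam.An
import Pool.Agent.Y124.StdC
import Pool.Agent.Y119.CB.Ext

/-!
# Generic points of a family of functions
-/

set_option autoImplicit false

open Filter Topology Set MvPolynomial

noncomputable section

namespace Pool.Agent.Y776.Fam

open Pool.Agent.Y124 (tc LocInd tc_sum eventually_zero_of_tc)
open Pool.Agent.TH813.Rel (DF MK)

variable {U : Set ℂ}

/-- the Taylor coefficients of all monomials -/
def TS {Y₀ : Type} [Fintype Y₀] (y : Y₀ → ℂ → ℂ) (zs : ℂ) : Set ℂ :=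
  Set.range (fun p : (Option Y₀ →₀ ℕ) × ℕ =>
    tc (fun z => ∏ o : Option Y₀, (o.elim z (fun i => y i z)) ^ p.1 o) zs p.2)

theorem TS_countable {Y₀ : Type} [Fintype Y₀] (y : Y₀ → ℂ → ℂ) (zs : ℂ) : (TS y zs).Countable :=
  Set.countable_range _

/-- independence of functions from independence of their values at one point -/
theorem locInd_of {Y₀ : Type} [Fintype Y₀] (hc : IsPreconnected U) (hU : IsOpen U)
    {y : Y₀ → ℂ → ℂ} (hy : ∀ i, AnalyticOnNhd ℂ (y i) U) {F : IntermediateField ℚ ℂ} {zs z₀ : ℂ}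
    (hzs : zs ∈ U) (hT : TS y zs ⊆ F) (hz₀ : z₀ ∈ U)
    (hind : AlgebraicIndependent F (fun o : Option Y₀ => o.elim z₀ (fun i => y i z₀))) {t : ℂ}
    (ht : t ∈ U) : LocInd y t := by
  classical
  intro P hP
  set f : (Option Y₀ →₀ ℕ) → ℂ → ℂ := fun m z => ∏ o : Option Y₀, (o.elim z (fun i => y i z)) ^ m o
    with hf
  have hfa : ∀ m, AnalyticOnNhd ℂ (f m) U := by
    intro m z hz
    refine Finset.analyticAt_fun_prod _ fun o _ => ?_
    cases o with
    | none => exact analyticAt_id.pow _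
    | some i => exact (hy i z hz).pow _
  have ev : ∀ z, eval (fun o : Option Y₀ => o.elim z fun i => y i z) P =
      ∑ m ∈ P.support, P.coeff m * f m z := fun z => eval_eq' _ P
  have hsum : ∀ c : (Option Y₀ →₀ ℕ) → ℂ,
      AnalyticOnNhd ℂ (fun z => ∑ m ∈ P.support, c m * f m z) U := fun c z hz =>
    Finset.analyticAt_fun_sum _ fun m _ => analyticAt_const.mul (hfa m z hz)
  have h0 : ∀ᶠ z in 𝓝 t, ∑ m ∈ P.support, P.coeff m * f m z = 0 := by
    filter_upwards [hP] with z hz
    rw [← ev]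
    exact hz
  have h1 : ∀ z ∈ U, ∑ m ∈ P.support, P.coeff m * f m z = 0 := fun z hz =>
    (hsum P.coeff).eqOn_zero_of_preconnected_of_eventuallyEq_zero hc ht h0 hz
  have h2 : ∀ n, ∑ m ∈ P.support, P.coeff m * tc (f m) zs n = 0 := by
    intro n
    rw [← tc_sum P.support P.coeff f zs (fun m => hfa m zs hzs)]
    have h3 : (fun z => ∑ m ∈ P.support, P.coeff m * f m z) =ᶠ[𝓝 zs] fun _ => 0 := by
      filter_upwards [hU.mem_nhds hzs] with z hz
      exact h1 z hz
    unfold tc
    rw [h3.iteratedDeriv_eq n, iteratedDeriv_fun_const_zero]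
    simp
  -- functionals
  have h3 : ∀ (ψ : ℂ →ₗ[F] F) (m : Option Y₀ →₀ ℕ), m ∈ P.support → ψ (P.coeff m) = 0 := by
    intro ψ
    have h4 : ∀ n, ∑ m ∈ P.support, (ψ (P.coeff m) : ℂ) * tc (f m) zs n = 0 := by
      intro n
      have h5 := congrArg (fun x => ((ψ x : F) : ℂ)) (h2 n)
      simp only [map_sum, map_zero] at h5
      have h6 : ∀ m, (ψ (P.coeff m * tc (f m) zs n) : ℂ) = (ψ (P.coeff m) : ℂ) * tc (f m) zs n := by
        intro m
        have hmem : tc (f m) zs n ∈ F := hT ⟨(m, n), rfl⟩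
        have h7 : P.coeff m * tc (f m) zs n = (⟨tc (f m) zs n, hmem⟩ : F) • P.coeff m := by
          rw [IntermediateField.smul_def, smul_eq_mul, mul_comm]
        rw [h7, map_smul, smul_eq_mul]
        push_cast
        ring
      push_cast at h5
      rw [← h5]
      exact Finset.sum_congr rfl fun m _ => (h6 m).symm
    have h5 : ∀ᶠ z in 𝓝 zs, ∑ m ∈ P.support, (ψ (P.coeff m) : ℂ) * f m z = 0 := by
      apply eventually_zero_of_tc (hsum (fun m => (ψ (P.coeff m) : ℂ)) zs hzs)
      intro n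
      rw [tc_sum P.support (fun m => (ψ (P.coeff m) : ℂ)) f zs (fun m => hfa m zs hzs)]
      exact h4 n
    have h6 : ∑ m ∈ P.support, (ψ (P.coeff m) : ℂ) * f m z₀ = 0 :=
      (hsum (fun m => (ψ (P.coeff m) : ℂ))).eqOn_zero_of_preconnected_of_eventuallyEq_zero hc hzs
        h5 hz₀
    have h7 : (∑ m ∈ P.support, monomial m (ψ (P.coeff m)) : MvPolynomial (Option Y₀) F) = 0 := by
      apply (algebraicIndependent_iff.1 hind)
      rw [map_sum, ← h6]
      refine Finset.sum_congr rfl fun m _ => ?_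
      rw [aeval_monomial]
      congr 1
      rw [Finsupp.prod_fintype _ _ (fun o => pow_zero _)]
    intro m hm
    have h8 := congrArg (coeff m) h7
    rw [coeff_sum, coeff_zero, Finset.sum_eq_single m] at h8
    · rwa [coeff_monomial, if_pos rfl] at h8
    · intro m' _ hne
      rw [coeff_monomial, if_neg hne]
    · intro h; exact absurd hm h
  ext m
  rw [coeff_zero]
  by_contra hne
  have hm : m ∈ P.support := mem_support_iff.2 hne
  exact hne ((Module.forall_dual_apply_eq_zero_iff F _).1 (fun ψ => h3 ψ m hm))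

/-- polynomials over `F` which vanish at the point vanish identically -/
def Gn (U : Set ℂ) (F : IntermediateField ℚ ℂ) {κ : Type} (f : κ → ℂ → ℂ) (z₀ : ℂ) : Prop :=
  ∀ P : MvPolynomial κ F, aeval (fun k => f k z₀) P = 0 → ∀ z ∈ U, aeval (fun k => f k z) P = 0

theorem an_aeval {F : IntermediateField ℚ ℂ} {κ : Type} {f : κ → ℂ → ℂ}
    (hf : ∀ k, AnalyticOnNhd ℂ (f k) U) (P : MvPolynomial κ F) :
    AnalyticOnNhd ℂ (fun z => aeval (fun k => f k z) P) U := by
  induction P using MvPolynomial.induction_on with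
  | C a =>
    simp only [aeval_C]
    exact analyticOnNhd_const
  | add p q hp hq =>
    simp only [map_add]
    exact hp.add hq
  | mul_X p s hp =>
    simp only [map_mul, aeval_X]
    exact hp.mul (hf s)

theorem countable_Gn {F : IntermediateField ℚ ℂ} {κ : Type} [Countable κ] {f : κ → ℂ → ℂ}
    (hc : IsPreconnected U) (hF : (F : Set ℂ).Countable) (hf : ∀ k, AnalyticOnNhd ℂ (f k) U) :
    {z | z ∈ U ∧ ¬ Gn U F f z}.Countable := by
  have hFc : Countable F := hF.to_subtype
  have hRc : Countable (MvPolynomial κ F) := by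
    rw [← Cardinal.mk_le_aleph0_iff]
    refine MvPolynomial.cardinalMk_le_max.trans ?_
    exact max_le (max_le (Cardinal.mk_le_aleph0_iff.2 hFc)
      (Cardinal.mk_le_aleph0_iff.2 inferInstance)) le_rfl
  refine (Set.countable_iUnion (fun P : {P : MvPolynomial κ F //
    ∃ z ∈ U, aeval (fun k => f k z) P ≠ 0} => countable_zeros hc (an_aeval hf P.1) P.2)).mono ?_
  rintro z ⟨hz, hG⟩
  unfold Gn at hG
  push Not at hG
  obtain ⟨P, h1, w, hw, hne⟩ := hG
  exact mem_iUnion.2 ⟨⟨P, w, hw, hne⟩, hz, h1⟩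

theorem hasDerivAt_aeval {F : IntermediateField ℚ ℂ} {κ : Type} [Fintype κ] {f : κ → ℂ → ℂ} {z₀ : ℂ}
    (hf : ∀ k, DifferentiableAt ℂ (f k) z₀) (P : MvPolynomial κ F) :
    HasDerivAt (fun z => aeval (fun k => f k z) P)
      (∑ k, aeval (fun k => f k z₀) (pderiv k P) * deriv (f k) z₀) z₀ := by
  classical
  induction P using MvPolynomial.induction_on with
  | C a =>
    simp only [aeval_C, pderiv_C, map_zero, zero_mul, Finset.sum_const_zero]
    exact hasDerivAt_const _ _
  | add p q hp hq =>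
    simp only [map_add, add_mul, Finset.sum_add_distrib]
    exact hp.add hq
  | mul_X p s hp =>
    have h1 := hp.mul (hf s).hasDerivAt
    simp only [map_mul, aeval_X]
    refine h1.congr_deriv ?_
    have h4 : ∀ x, aeval (fun k => f k z₀) (pderiv x (p * X s)) * deriv (f x) z₀ =
        aeval (fun k => f k z₀) p * (if x = s then deriv (f x) z₀ else 0) +
          f s z₀ * (aeval (fun k => f k z₀) (pderiv x p) * deriv (f x) z₀) := by
      intro x
      have h3 : aeval (fun k => f k z₀) (pderiv x (X s : MvPolynomial κ F)) =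
          if x = s then (1 : ℂ) else 0 := by
        rw [pderiv_X]
        by_cases hx : x = s
        · subst hx; simp
        · have hx' : s ≠ x := fun h => hx h.symm
          simp [hx, hx']
      rw [Derivation.leibniz, map_add, smul_eq_mul, smul_eq_mul, map_mul, map_mul, h3, aeval_X]
      split_ifs <;> ring
    rw [Finset.sum_congr rfl fun x _ => h4 x, Finset.sum_add_distrib, ← Finset.mul_sum,
      ← Finset.mul_sum, Finset.sum_ite_eq' Finset.univ s (fun x => deriv (f x) z₀),
      if_pos (Finset.mem_univ s)]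
    ring

/-- the derivation at a generic point -/
theorem exists_D {F : IntermediateField ℚ ℂ} {κ : Type} [Fintype κ] {f : κ → ℂ → ℂ} {z₀ : ℂ}
    (hU : IsOpen U) (hz : z₀ ∈ U) (hf : ∀ k, AnalyticOnNhd ℂ (f k) U) (hG : Gn U F f z₀) :
    ∃ D ∈ DF F, ∀ k, D (f k z₀) = deriv (f k) z₀ := by
  obtain ⟨D, hD⟩ := Pool.Agent.Y119.CB.exists_derivation (k := F) (fun k => f k z₀)
    (fun k => deriv (f k) z₀) (by
      intro P hP
      have h1 := hasDerivAt_aeval (fun k => (hf k z₀ hz).differentiableAt) P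
      have h2 : (fun z => aeval (fun k => f k z) P) =ᶠ[𝓝 z₀] fun _ => 0 := by
        filter_upwards [hU.mem_nhds hz] with z hz'
        exact hG P hP z hz'
      exact (h1.congr_of_eventuallyEq h2.symm).unique (hasDerivAt_const z₀ (0 : ℂ)))
  exact ⟨D.restrictScalars ℚ, fun y hy => D.map_algebraMap (⟨y, hy⟩ : F), hD⟩

end Pool.Agent.Y776.Fam
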