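import Mathlib
import Pool.Agent.Y776.Fin
import Pool.Agent.Y685.F2

/-!
# Logarithms of the sigma function: the rank over the constants
-/

set_option autoImplicit false

open Finset Module
open scoped Topology PeriodPair

noncomputable section

namespace Pool.Agent.Y776.Fam

open H667R3 Pool.Agent.W245.EB Pool.Agent.TH813.Ell Pool.Agent.Y685 Pool.Agent.Y776
open Pool.Agent.TH813.Rel (DF MK exists_derF mem_cl subset_cl rk_le_of_subset_cl)

variable {L : PeriodPair} {D δ δ' : Derivation ℚ ℂ ℂ} {r s q : ℕ}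

/-- a family is independent if its rank is maximal -/
theorem indep_of_rank {k : Type} [Field k] [Algebra k ℂ] {ι : Type} [Fintype ι] {x : ι → ℂ}
    (h : ((Fintype.card ι : ℕ) : ℕ∞) ≤ (MK k).eRk (Set.range x)) : AlgebraicIndependent k x := by
  classical
  have hfin : (Set.range x).Finite := Set.finite_range x
  have h1 : (Set.range x).encard ≤ (Fintype.card ι : ℕ) := by
    rw [← Set.image_univ]
    refine (Set.encard_image_le _ _).trans ?_
    rw [Set.encard_univ, ENat.card_eq_coe_fintype_card]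
  have h2 : (MK k).eRk (Set.range x) ≤ (Set.range x).encard := (MK k).eRk_le_encard _
  have h3 : (MK k).eRk (Set.range x) = (Set.range x).encard := le_antisymm h2 (h1.trans h)
  have h4 : (MK k).Indep (Set.range x) :=
    (Matroid.indep_iff_eRk_eq_encard_of_finite hfin).2 h3
  have h5 : Function.Injective x := by
    have h6 : (Set.range x).encard = (Fintype.card ι : ℕ) := le_antisymm h1 (h.trans h2)
    rw [← Set.image_univ] at h6
    have h7 := Set.Finite.injOn_of_encard_image_eq (s := (Set.univ : Set ι)) (f := x)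
      Set.finite_univ (by
      rw [h6, Set.encard_univ, ENat.card_eq_coe_fintype_card])
    exact Set.injOn_univ.1 h7
  rw [AlgebraicIndependent.matroid_indep_iff] at h4
  exact (algebraicIndependent_subtype_range h5).1 h4

/-- the generators -/
def xx (L : PeriodPair) (t : Fin s → ℂ) (p : Fin r → ℂ) :
    Fin 4 ⊕ (Fin s ⊕ (Fin r ⊕ Fin r)) → ℂ :=
  Sum.elim ![L.g₂, L.ω₁, L.ω₂, eta L L.ω₁] (Sum.elim t (Sum.elim p (fun i => zt L (p i))))

/-- algebraic points and algebraic exponentials -/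
structure Dat (h : Nrm L D) (t : Fin s → ℂ) (p : Fin r → ℂ) : Prop where
  hp : ∀ i, p i ∈ Cm h
  hpK : ∀ i, ℘[L] (p i) ∈ K0 L D
  ht : ∀ k, D (t k) ∈ K0 L D
  ai : AlgebraicIndependent (Cst D) (xx L t p)

/-- the derivations which move one point by a period -/
structure IsD (L : PeriodPair) (D : Derivation ℚ ℂ ℂ) (t : Fin s → ℂ) (p : Fin r → ℂ)
    (i : Fin r) (w : ℂ) (δ : Derivation ℚ ℂ ℂ) : Prop where
  hC : δ ∈ DF (Cst D)
  hg : δ L.g₂ = 0
  h1 : δ L.ω₁ = 0
  h2 : δ L.ω₂ = 0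
  h3 : δ (eta L L.ω₁) = 0
  ht : ∀ k, δ (t k) = 0
  hw : w ∈ L.lattice
  hp : ∀ j, δ (p j) = if j = i then w else 0
  hz : ∀ j, δ (zt L (p j)) = if j = i then eta L w else 0

variable {h : Nrm L D} {t : Fin s → ℂ} {p : Fin r → ℂ}

/-- the closure of the generators -/
abbrev KX (L : PeriodPair) (D : Derivation ℚ ℂ ℂ) (t : Fin s → ℂ) (p : Fin r → ℂ) :
    IntermediateField ℚ ℂ := clo (Cst D) (Set.range (xx L t p))

theorem xx_mem (a : Fin 4 ⊕ (Fin s ⊕ (Fin r ⊕ Fin r))) : xx L t p a ∈ KX L D t p :=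
  subset_clo ⟨a, rfl⟩

theorem Gen_KX (h : Nrm L D) (t : Fin s → ℂ) (p : Fin r → ℂ) : ∀ x ∈ Gen L, x ∈ KX L D t p := by
  have m0 : L.g₂ ∈ KX L D t p := xx_mem (L := L) (t := t) (p := p) (Sum.inl 0)
  have m1 : L.ω₁ ∈ KX L D t p := xx_mem (L := L) (t := t) (p := p) (Sum.inl 1)
  have m2 : L.ω₂ ∈ KX L D t p := xx_mem (L := L) (t := t) (p := p) (Sum.inl 2)
  have m3 : eta L L.ω₁ ∈ KX L D t p := xx_mem (L := L) (t := t) (p := p) (Sum.inl 3)
  have m4 : Lg L ∈ KX L D t p := base_clo (D_Lg h)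
  have m5 : eta L L.ω₂ ∈ KX L D t p := by
    have e : eta L L.ω₂ = (Lg L + L.ω₂ * eta L L.ω₁) / L.ω₁ := by
      have := ω₁_ne_zero L
      unfold Lg
      field_simp
      ring
    rw [e]
    exact div_mem (add_mem m4 (mul_mem m2 m3)) m1
  rintro x (rfl | rfl | rfl | rfl | rfl)
  · exact m0
  · exact m1
  · exact m2
  · exact m3
  · exact m5

theorem K1_le_KX (h : Nrm L D) (t : Fin s → ℂ) (p : Fin r → ℂ) : K1 L D ≤ KX L D t p :=
  clo_le (Gen_KX h t p)

/-- derivations which kill the invariants kill algebraic points -/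
theorem wp_comb (h : Nrm L D) (hpK : ∀ i, ℘[L] (p i) ∈ K0 L D) (c : Fin r → ℚ)
    (hx : 2 * ∑ i, c i • p i ∉ L.lattice) :
    ℘[L] (∑ i, c i • p i) ∈ K0 L D ∧ ℘'[L] (∑ i, c i • p i) ∈ K0 L D ∧
      vv L D (aa L) 1 (∑ i, c i • p i) ∈ K0 L D ∧
      ∀ δ ∈ DF (K0 L D), δ (zt L (∑ i, c i • p i)) = ∑ i, (c i : ℂ) * δ (zt L (p i)) := by
  have hx1 : ∑ i, c i • p i ∉ L.lattice := two_mul_notMem_of _ hx
  have key : ∀ δ ∈ DF (K0 L D), om L δ (∑ i, c i • p i) = 0 ∧ δ L.g₂ = 0 ∧ δ L.g₃ = 0 := by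
    intro δ hδ
    have g2 : δ L.g₂ = 0 := hδ _ g_K0
    refine ⟨?_, g2, g3_of h g2⟩
    rw [om_lin δ g2 (g3_of h g2)]
    exact sum_eq_zero fun i _ => by rw [om_of_kill (hδ _ (hpK i)), mul_zero]
  have a1 : ℘[L] (∑ i, c i • p i) ∈ K0 L D := by
    intro δ hC hS
    obtain ⟨k1, k2, k3⟩ := key δ (mem_DF_clo.2 ⟨hC, hS⟩)
    exact (wp_killed k2 k3 k1 hx1).1
  have a2 : ℘'[L] (∑ i, c i • p i) ∈ K0 L D := by
    intro δ hC hS
    obtain ⟨k1, k2, k3⟩ := key δ (mem_DF_clo.2 ⟨hC, hS⟩)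
    exact (wp_killed k2 k3 k1 hx1).2
  refine ⟨a1, a2, ?_, ?_⟩
  · unfold vv
    have hg := g_K0 (L := L) (D := D)
    have haa : aa L ∈ K0 L D := sub_mem (ofNat_mem _ 3) (div_mem hg (ofNat_mem _ 6))
    refine div_mem (sub_mem (add_mem (D_K0 h a1) (mul_mem (mul_mem (ofNat_mem _ 2) haa) a1))
      (mul_mem (one_mem _) (sub_mem (div_mem hg (ofNat_mem _ 3))
        (mul_mem (ofNat_mem _ 2) (pow_mem a1 2))))) a2
  · intro δ hδ
    obtain ⟨k1, k2, k3⟩ := key δ hδ
    have e1 := et_lin (L := L) δ k2 k3 c p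
    rw [et, k1, mul_zero, add_zero] at e1
    rw [e1]
    refine sum_congr rfl fun i _ => ?_
    rw [et, om_of_kill (hδ _ (hpK i)), mul_zero, add_zero]

namespace IsD

variable {i j : Fin r} {w w' : ℂ}

theorem gen (hD : IsD L D t p i w δ) (h : Nrm L D) : ∀ x ∈ Gen L, δ x = 0 := by
  have h1 := hD.h1
  have h2 := hD.h2
  have h3 := hD.h3
  have h4 : δ (eta L L.ω₂) = 0 := by
    have e1 : δ (Lg L) = 0 := hD.hC _ (D_Lg h)
    unfold Lg at e1
    rw [map_sub, D_mul, D_mul, h1, h2, h3] at e1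
    have e2 : L.ω₁ * δ (eta L L.ω₂) = 0 := by linear_combination e1
    exact (mul_eq_zero.1 e2).resolve_left (ω₁_ne_zero L)
  rintro x (rfl | rfl | rfl | rfl | rfl)
  · exact hD.hg
  · exact h1
  · exact h2
  · exact h3
  · exact h4

theorem kills1 (hD : IsD L D t p i w δ) (h : Nrm L D) : δ ∈ DF (K1 L D) :=
  mem_DF_clo.2 ⟨hD.hC, hD.gen h⟩

theorem kills0 (hD : IsD L D t p i w δ) : δ ∈ DF (K0 L D) :=
  mem_DF_clo.2 ⟨hD.hC, fun s hs => by
    rw [Set.mem_singleton_iff] at hs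
    rw [hs]
    exact hD.hg⟩

theorem lat (hD : IsD L D t p i w δ) (h : Nrm L D) {ω : ℂ} (hω : ω ∈ L.lattice) :
    δ ω = 0 ∧ δ (eta L ω) = 0 := by
  have hG := hD.gen h
  refine kill_lattice (fun x hx => ?_) hω
  rcases hx with rfl | rfl | hx
  · exact hD.hg
  · exact g3_of h hD.hg
  · exact hG x (Or.inr hx)

theorem D_p (hx : Dat h t p) (hD : IsD L D t p i w δ) (hp2 : ∀ j, 2 * p j ∉ L.lattice) :
    (∀ j, δ (vv L D (aa L) 1 (p j)) = 0) ∧ (∀ j, δ (℘[L] (p j)) = 0) ∧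
      ∀ j, δ (℘'[L] (p j)) = 0 := by
  have key : ∀ j, ℘'[L] (p j) ∈ K0 L D ∧ vv L D (aa L) 1 (p j) ∈ K0 L D := by
    intro j
    have h1 : ∑ i, (Pi.single j (1 : ℚ) : Fin r → ℚ) i • p i = p j := by
      rw [Finset.sum_eq_single j]
      · rw [Pi.single_eq_same, one_smul]
      · intro k _ hk
        rw [Pi.single_eq_of_ne hk, zero_smul]
      · intro hj; exact absurd (Finset.mem_univ j) hj
    obtain ⟨-, h2, h3, -⟩ := wp_comb h hx.hpK (Pi.single j 1) (by rw [h1]; exact hp2 j)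
    rw [h1] at h2 h3
    exact ⟨h2, h3⟩
  exact ⟨fun j => hD.kills0 _ (key j).2, fun j => hD.kills0 _ (hx.hpK j),
    fun j => hD.kills0 _ (key j).1⟩

/-- the bracket with `D` -/
theorem br (hx : Dat h t p) (hD : IsD L D t p i w δ) (hp2 : ∀ j, 2 * p j ∉ L.lattice) :
    ⁅D, δ⁆ ∈ DF (KX L D t p) := by
  obtain ⟨hv, hq, hq'⟩ := hD.D_p hx hp2
  have hK1 := hD.kills1 h
  refine mem_DF_clo.2 ⟨TH813.Rel.bracket_mem _ D_DF hD.hC, ?_⟩
  have gen1 : ∀ x ∈ Gen L, ⁅D, δ⁆ x = 0 := by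
    intro x hx
    rw [Derivation.commutator_apply, hD.gen h x hx, map_zero,
      hK1 _ (D_K1 h (subset_clo hx)), sub_zero]
  rintro _ ⟨a, rfl⟩
  rcases a with a | k | j | j
  · fin_cases a
    · exact gen1 _ (Or.inl rfl)
    · exact gen1 _ (Or.inr (Or.inl rfl))
    · exact gen1 _ (Or.inr (Or.inr (Or.inl rfl)))
    · exact gen1 _ (Or.inr (Or.inr (Or.inr (Or.inl rfl))))
  · change ⁅D, δ⁆ (t k) = 0
    rw [Derivation.commutator_apply, hD.ht k, map_zero, hD.kills0 _ (hx.ht k), sub_zero]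
  · change ⁅D, δ⁆ (p j) = 0
    rw [Derivation.commutator_apply, D_z (hx.hp j), map_add, map_add, δ_aa_mul hD.hg, hv j,
      hD.hp j, hD.hz j]
    split_ifs
    · rw [h.hω w hD.hw]
      ring
    · rw [map_zero]
      ring
  · change ⁅D, δ⁆ (zt L (p j)) = 0
    have e1 : δ (-(aa L) * zt L (p j)) = -(aa L) * δ (zt L (p j)) := by
      rw [neg_mul, map_neg, δ_aa_mul hD.hg, neg_mul]
    rw [Derivation.commutator_apply, D_zt (hx.hp j), map_sub, map_sub, map_add, e1, D_half, hq' j,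
      D_mul, hv j, hq j, δ_smul hD.hg, hD.hp j, hD.hz j]
    split_ifs
    · rw [h.hη w hD.hw]
      ring
    · rw [map_zero]
      ring

/-- the bracket of two such derivations -/
theorem br' (h : Nrm L D) (hD : IsD L D t p i w δ) (hD' : IsD L D t p j w' δ') :
    ⁅δ, δ'⁆ ∈ DF (KX L D t p) := by
  refine mem_DF_clo.2 ⟨TH813.Rel.bracket_mem _ hD.hC hD'.hC, ?_⟩
  have gen1 : ∀ x ∈ Gen L, ⁅δ, δ'⁆ x = 0 := by
    intro x hx
    rw [Derivation.commutator_apply, hD.gen h x hx, hD'.gen h x hx, map_zero, map_zero, sub_zero]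
  obtain ⟨a1, a2⟩ := hD.lat h hD'.hw
  obtain ⟨b1, b2⟩ := hD'.lat h hD.hw
  rintro _ ⟨a, rfl⟩
  rcases a with a | k | l | l
  · fin_cases a
    · exact gen1 _ (Or.inl rfl)
    · exact gen1 _ (Or.inr (Or.inl rfl))
    · exact gen1 _ (Or.inr (Or.inr (Or.inl rfl)))
    · exact gen1 _ (Or.inr (Or.inr (Or.inr (Or.inl rfl))))
  · change ⁅δ, δ'⁆ (t k) = 0
    rw [Derivation.commutator_apply, hD.ht k, hD'.ht k, map_zero, map_zero, sub_zero]
  · change ⁅δ, δ'⁆ (p l) = 0
    rw [Derivation.commutator_apply, hD.hp l, hD'.hp l]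
    split_ifs
    · rw [a1, b1, sub_zero]
    · rw [a1, map_zero, sub_zero]
    · rw [map_zero, b1, sub_zero]
    · rw [map_zero, map_zero, sub_zero]
  · change ⁅δ, δ'⁆ (zt L (p l)) = 0
    rw [Derivation.commutator_apply, hD.hz l, hD'.hz l]
    split_ifs
    · rw [a2, b2, sub_zero]
    · rw [a2, map_zero, sub_zero]
    · rw [map_zero, b2, sub_zero]
    · rw [map_zero, map_zero, sub_zero]

end IsD

/-- existence of the derivations -/
theorem exists_IsD (hx : Dat h t p) (i : Fin r) {w : ℂ} (hw : w ∈ L.lattice) :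
    ∃ δ, IsD L D t p i w δ := by
  obtain ⟨δ, hC, hv⟩ := exists_derF (Cst D) hx.ai (Sum.elim (fun _ => 0) (Sum.elim (fun _ => 0)
    (Sum.elim (fun j => if j = i then w else 0) (fun j => if j = i then eta L w else 0))))
  exact ⟨δ, hC, hv (Sum.inl 0), hv (Sum.inl 1), hv (Sum.inl 2), hv (Sum.inl 3),
    fun k => hv (Sum.inr (Sum.inl k)), hw, fun j => hv (Sum.inr (Sum.inr (Sum.inl j))),
    fun j => hv (Sum.inr (Sum.inr (Sum.inr j)))⟩

/-- `S` has the derivative of a logarithm of the value of the sigma function at `x` -/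
def IsLS (L : PeriodPair) (D : Derivation ℚ ℂ ℂ) (x S : ℂ) : Prop :=
  D S - (vv L D (aa L) 1 x * zt L x + zt L x ^ 2 / 2 - L.g₂ / 24 * x ^ 2) ∈ K0 L D

/-- the derivative of the derivative -/
theorem IsD.D_LS (hx : Dat h t p) {i : Fin r} {w : ℂ} (hD : IsD L D t p i w δ) {c : Fin r → ℚ}
    (hc : 2 * ∑ i, c i • p i ∉ L.lattice) {S : ℂ} (hS : IsLS L D (∑ i, c i • p i) S) :
    δ (D S) = c i * D (eta L w * ∑ i, c i • p i) := by
  classical
  obtain ⟨h1, h2, h3, h4⟩ := wp_comb h hx.hpK c hc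
  set x := ∑ i, c i • p i with hxd
  have hxC : x ∈ Cm h := Submodule.sum_mem _ fun j _ => Submodule.smul_mem _ _ (hx.hp j)
  have hk := hD.kills0
  have e1 : δ x = c i * w := by
    rw [hxd, map_sum]
    simp only [δ.map_smul, hD.hp]
    rw [Finset.sum_eq_single i]
    · rw [if_pos rfl, Rat.smul_def]
    · intro j _ hj
      rw [if_neg hj, smul_zero]
    · intro hi; exact absurd (Finset.mem_univ i) hi
  have e2 : δ (zt L x) = c i * eta L w := by
    rw [h4 δ hk]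
    simp only [hD.hz]
    rw [Finset.sum_eq_single i]
    · rw [if_pos rfl]
    · intro j _ hj
      rw [if_neg hj, mul_zero]
    · intro hi; exact absurd (Finset.mem_univ i) hi
  have e3 : δ (vv L D (aa L) 1 x) = 0 := hk _ h3
  have e4 : δ (L.g₂ / 24) = 0 := hk _ (div_mem g_K0 (ofNat_mem _ 24))
  have e5 := hk _ hS
  rw [map_sub, map_sub, map_add, D_mul, D_half, D_pow, D_mul, D_pow, e1, e2, e3, e4] at e5
  rw [D_mul, h.hη w hD.hw, D_z hxC]
  norm_num at e5
  linear_combination e5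

/-- there are no linear relations -/
theorem lin (hx : Dat h t p) (hp2 : ∀ j, 2 * p j ∉ L.lattice) {N : Fin q → Fin r → ℚ}
    (hN2 : ∀ k, 2 * ∑ i, N k i • p i ∉ L.lattice) {S : Fin q → ℂ}
    (hS : ∀ k, IsLS L D (∑ i, N k i • p i) (S k)) {c : Fin q → ℂ} (hc : ∀ k, D (c k) = 0)
    (hg : ∑ k, c k * S k ∈ KX L D t p) (i j : Fin r) :
    ∑ k, c k * ((N k i : ℂ) * N k j) = 0 := by
  set g := ∑ k, c k * S k with hgd
  have step : ∀ {i : Fin r} {w : ℂ} {δ : Derivation ℚ ℂ ℂ}, IsD L D t p i w δ →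
      D (δ g - ∑ k, c k * (N k i * (eta L w * ∑ i, N k i • p i))) = 0 := by
    intro i w δ hD
    have hcδ : ∀ k, δ (c k) = 0 := fun k => hD.hC _ (hc k)
    have hb := hD.br hx hp2 g hg
    rw [Derivation.commutator_apply] at hb
    have e1 : D g = ∑ k, c k * D (S k) := by
      rw [hgd, map_sum]
      exact sum_congr rfl fun k _ => by rw [D_mul, hc k]; ring
    have e2 : δ (D g) = ∑ k, c k * (N k i * D (eta L w * ∑ i, N k i • p i)) := by
      rw [e1, map_sum]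
      exact sum_congr rfl fun k _ => by rw [D_mul, hcδ k, hD.D_LS hx (hN2 k) (hS k)]; ring
    have e3 : D (∑ k, c k * (N k i * (eta L w * ∑ i, N k i • p i))) =
        ∑ k, c k * (N k i * D (eta L w * ∑ i, N k i • p i)) := by
      rw [map_sum]
      refine sum_congr rfl fun k _ => ?_
      have hN : D (N k i : ℂ) = 0 := D.map_algebraMap (N k i)
      rw [D_mul, hc k, D_mul, hN]
      ring
    rw [map_sub, e3, ← e2]
    linear_combination hb
  have step2 : ∀ {i j : Fin r} {w w' : ℂ} {δ δ' : Derivation ℚ ℂ ℂ}, IsD L D t p i w δ →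
      IsD L D t p j w' δ' → δ' (δ g) = eta L w * w' * ∑ k, c k * ((N k i : ℂ) * N k j) := by
    intro i j w w' δ δ' hD hD'
    have h1 := hD'.hC _ (step hD)
    rw [map_sub, sub_eq_zero] at h1
    rw [h1, map_sum, Finset.mul_sum]
    refine sum_congr rfl fun k _ => ?_
    have hN : δ' (N k i : ℂ) = 0 := δ'.map_algebraMap (N k i)
    have e1 : δ' (∑ i, N k i • p i) = N k j * w' := by
      rw [map_sum]
      simp only [δ'.map_smul, hD'.hp]
      rw [Finset.sum_eq_single j]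
      · rw [if_pos rfl, Rat.smul_def]
      · intro l _ hl
        rw [if_neg hl, smul_zero]
      · intro hi; exact absurd (Finset.mem_univ j) hi
    rw [D_mul, hD'.hC _ (hc k), D_mul, hN, D_mul, (hD'.lat h hD.hw).2, e1]
    ring
  obtain ⟨δ, hδ⟩ := exists_IsD hx i L.ω₁_mem_lattice
  obtain ⟨δ', hδ'⟩ := exists_IsD hx j L.ω₂_mem_lattice
  have h1 := step2 hδ hδ'
  have h2 := step2 hδ' hδ
  have h3 := hδ.br' h hδ' g hg
  rw [Derivation.commutator_apply, h1, h2] at h3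
  have h4 : ∑ k, c k * ((N k j : ℂ) * N k i) = ∑ k, c k * ((N k i : ℂ) * N k j) :=
    sum_congr rfl fun k _ => by ring
  rw [h4] at h3
  have h5 : Lg L * ∑ k, c k * ((N k i : ℂ) * N k j) = 0 := by
    unfold Lg
    linear_combination h3
  exact (mul_eq_zero.1 h5).resolve_left Lg_ne

/-- **the rank over the field of the generators** -/
theorem rank_S (hx : Dat h t p) (hp2 : ∀ j, 2 * p j ∉ L.lattice) {N : Fin q → Fin r → ℚ}
    (hN2 : ∀ k, 2 * ∑ i, N k i • p i ∉ L.lattice)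
    (hN : ∀ c : Fin q → ℂ, (∀ i j, ∑ k, c k * ((N k i : ℂ) * N k j) = 0) → c = 0)
    {S : Fin q → ℂ} (hS : ∀ k, IsLS L D (∑ i, N k i • p i) (S k)) :
    ((q : ℕ) : ℕ∞) ≤ (MK (KX L D t p)).eRk (Set.range S) := by
  classical
  by_contra hcon
  push Not at hcon
  -- derivatives of the generators
  have hDK : ∀ x ∈ KX L D t p, D x ∈ KX L D t p := by
    intro x hxK
    refine der_clo D_DF ?_ hxK
    have hK0 : K0 L D ≤ KX L D t p := K0_le.trans (K1_le_KX h t p)
    have hK1 := K1_le_KX h t p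
    rintro _ ⟨a, rfl⟩
    have hpj : ∀ j, p j ∈ KX L D t p := fun j =>
      xx_mem (L := L) (t := t) (p := p) (Sum.inr (Sum.inr (Sum.inl j)))
    have hzj : ∀ j, zt L (p j) ∈ KX L D t p := fun j =>
      xx_mem (L := L) (t := t) (p := p) (Sum.inr (Sum.inr (Sum.inr j)))
    have hv : ∀ j, ℘'[L] (p j) ∈ K0 L D ∧ vv L D (aa L) 1 (p j) ∈ K0 L D := by
      intro j
      have h1 : ∑ i, (Pi.single j (1 : ℚ) : Fin r → ℚ) i • p i = p j := by
        rw [Finset.sum_eq_single j]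
        · rw [Pi.single_eq_same, one_smul]
        · intro k _ hk
          rw [Pi.single_eq_of_ne hk, zero_smul]
        · intro hj; exact absurd (Finset.mem_univ j) hj
      obtain ⟨-, h2, h3, -⟩ := wp_comb h hx.hpK (Pi.single j 1) (by rw [h1]; exact hp2 j)
      rw [h1] at h2 h3
      exact ⟨h2, h3⟩
    rcases a with a | k | j | j
    · apply hK1
      apply D_K1 h
      fin_cases a
      · exact g_K1
      · exact ω₁_K1
      · exact ω₂_K1
      · exact η₁_K1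
    · exact hK0 (hx.ht k)
    · change D (p j) ∈ _
      rw [D_z (hx.hp j)]
      exact add_mem (add_mem (mul_mem (hK1 aa_K1) (hpj j)) (hK0 (hv j).2)) (hzj j)
    · change D (zt L (p j)) ∈ _
      rw [D_zt (hx.hp j)]
      exact sub_mem (sub_mem (add_mem (mul_mem (neg_mem (hK1 aa_K1)) (hzj j))
        (div_mem (hK0 (hv j).1) (ofNat_mem _ 2))) (mul_mem (hK0 (hv j).2) (hK0 (hx.hpK j))))
        (mul_mem (div_mem (hK1 g_K1) (ofNat_mem _ 12)) (hpj j))
  have hDS : ∀ k, D (S k) ∈ KX L D t p := by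
    intro k
    have hK0 : K0 L D ≤ KX L D t p := K0_le.trans (K1_le_KX h t p)
    have hK1 := K1_le_KX h t p
    have e1 := hK0 (hS k)
    obtain ⟨-, -, h3, h4⟩ := wp_comb h hx.hpK (N k) (hN2 k)
    have hX : ∑ i, N k i • p i ∈ KX L D t p := sum_mem fun i _ => by
      rw [Rat.smul_def]
      exact mul_mem (SubfieldClass.ratCast_mem _ _)
        (xx_mem (L := L) (t := t) (p := p) (Sum.inr (Sum.inr (Sum.inl i))))
    have hZ : zt L (∑ i, N k i • p i) ∈ KX L D t p := by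
      intro δ hC hSδ
      have hg : δ L.g₂ = 0 := hSδ _ ⟨Sum.inl 0, rfl⟩
      rw [h4 δ (mem_DF_clo.2 ⟨hC, fun s hs => by
        rw [Set.mem_singleton_iff] at hs
        rw [hs, hg]⟩)]
      exact sum_eq_zero fun i _ => by
        have : δ (zt L (p i)) = 0 := hSδ _ ⟨Sum.inr (Sum.inr (Sum.inr i)), rfl⟩
        rw [this, mul_zero]
    have e2 : vv L D (aa L) 1 (∑ i, N k i • p i) * zt L (∑ i, N k i • p i) +
        zt L (∑ i, N k i • p i) ^ 2 / 2 - L.g₂ / 24 * (∑ i, N k i • p i) ^ 2 ∈ KX L D t p :=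
      sub_mem (add_mem (mul_mem (hK0 h3) hZ) (div_mem (pow_mem hZ 2) (ofNat_mem _ 2)))
        (mul_mem (div_mem (hK1 g_K1) (ofNat_mem _ 24)) (pow_mem hX 2))
    have e3 := add_mem e1 e2
    rwa [sub_add_cancel] at e3
  let f : DF (KX L D t p) →ₗ[ℂ] (Fin q → ℂ) :=
    { toFun := fun δ k => (δ : Derivation ℚ ℂ ℂ) (S k)
      map_add' := fun δ δ' => rfl
      map_smul' := fun c δ => rfl }
  obtain ⟨a, ha0, ha⟩ := exists_rel (Set.finite_range S) f (fun δ hδ => by
    funext k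
    exact hδ _ ⟨k, rfl⟩) (by rw [Fintype.card_fin]; exact hcon)
  let W : Set (Fin q → ℂ) := {a | ∀ δ, ∑ i, a i * f δ i = 0}
  obtain ⟨c, hcW, hc0, hcD⟩ := exists_const_vec D W (fun a ha i _ δ => by
      have := ha δ
      have e : ∑ j, a j / a i * f δ j = (∑ j, a j * f δ j) / a i := by
        rw [sum_div]
        exact sum_congr rfl (fun j _ => by ring)
      change ∑ j, a j / a i * f δ j = 0
      rw [e, this, zero_div]) (fun a ha δ => by
      have h1 := congrArg D (ha δ)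
      rw [map_zero, map_sum] at h1
      have hbr : ⁅D, (δ : Derivation ℚ ℂ ℂ)⁆ ∈ DF (KX L D t p) := by
        intro x hxK
        rw [Derivation.commutator_apply, δ.2 x hxK, δ.2 _ (hDK x hxK), map_zero, sub_zero]
      let δ' : DF (KX L D t p) := ⟨⁅D, (δ : Derivation ℚ ℂ ℂ)⁆, hbr⟩
      have h2 : ∀ k, D (f δ k) = f δ' k := by
        intro k
        change D ((δ : Derivation ℚ ℂ ℂ) (S k)) = ⁅D, (δ : Derivation ℚ ℂ ℂ)⁆ (S k)
        rw [Derivation.commutator_apply, δ.2 _ (hDS k), sub_zero]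
      have h3 : ∀ k, D (a k * f δ k) = a k * f δ' k + D (a k) * f δ k := by
        intro k
        rw [D_mul, h2]
        ring
      rw [sum_congr rfl (fun k _ => h3 k), sum_add_distrib, ha δ', zero_add] at h1
      exact h1) ha ha0
  apply hc0
  apply hN
  intro i j
  refine lin hx hp2 hN2 hS hcD ?_ i j
  intro δ hC hSδ
  have hδ : δ ∈ DF (KX L D t p) := mem_DF_clo.2 ⟨hC, hSδ⟩
  have h1 := hcW ⟨δ, hδ⟩
  rw [map_sum, ← h1]
  refine sum_congr rfl fun k _ => ?_
  rw [D_mul, hC _ (hcD k)]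
  change _ = c k * δ (S k)
  ring

/-- **the rank over the constants** -/
theorem rank_third (hx : Dat h t p) (hp2 : ∀ j, 2 * p j ∉ L.lattice) {N : Fin q → Fin r → ℚ}
    (hN2 : ∀ k, 2 * ∑ i, N k i • p i ∉ L.lattice)
    (hN : ∀ c : Fin q → ℂ, (∀ i j, ∑ k, c k * ((N k i : ℂ) * N k j) = 0) → c = 0)
    {S : Fin q → ℂ} (hS : ∀ k, IsLS L D (∑ i, N k i • p i) (S k)) :
    ((4 + (s + 2 * r) + q : ℕ) : ℕ∞) ≤
      (MK (Cst D)).eRk (Set.range (xx L t p) ∪ Set.range S) := by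
  have hcard : Fintype.card (Fin 4 ⊕ (Fin s ⊕ (Fin r ⊕ Fin r))) = 4 + (s + 2 * r) := by
    simp only [Fintype.card_sum, Fintype.card_fin]
    ring
  let e := (Fintype.equivFinOfCardEq hcard).symm
  have h1 := rank_tower (F := Cst D) (K := KX L D t p) (fun x hxC => base_clo hxC)
    (x := xx L t p ∘ e) (hx.ai.comp _ e.injective) (fun i => xx_mem _) (rank_S hx hp2 hN2 hN hS)
  rwa [EquivLike.range_comp] at h1

end Pool.Agent.Y776.Fam
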