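import Mathlib
import Pool.Agent.Y776.FinB
import Pool.Agent.Y776.Fam.An

/-!
# Analytic families of lattices: ranks at generic points
-/

set_option autoImplicit false

open Filter Topology Set
open scoped PeriodPair

noncomputable section

namespace Pool.Agent.Y776.Fam

open H667R3 Pool.Agent.W245.EB Pool.Agent.Y685 Pool.Agent.Y685.H2
open Pool.Agent.TH813.Rel (DF MK subset_cl rk_le_of_subset_cl mem_cl)

variable {U : Set ℂ} {Λ : ℂ → PeriodPair} {r s : ℕ}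

/-- the invariants are not proportional -/
def NI (U : Set ℂ) (Λ : ℂ → PeriodPair) : Prop :=
  ∀ a b : ℂ, (∀ z ∈ U, a * (Λ z).g₂ ^ 3 = b * (Λ z).g₃ ^ 2) → a = 0 ∧ b = 0

/-- independence modulo constants -/
def IndC (U : Set ℂ) (x : Fin s → ℂ → ℂ) : Prop :=
  ∀ (m : Fin s → ℤ) (c : ℂ), (∀ z ∈ U, ∑ k, (m k : ℂ) * x k z = c) → m = 0

/-- independence modulo periods -/
def IndP (U : Set ℂ) (Λ : ℂ → PeriodPair) (p : Fin r → ℂ → ℂ) : Prop :=
  ∀ n : Fin r → ℤ, (∀ z ∈ U, ∑ i, (n i : ℂ) * p i z ∈ (Λ z).lattice) → n = 0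

theorem exists_den {n : ℕ} (q : Fin n → ℚ) : ∃ D : ℕ, 0 < D ∧ ∃ m : Fin n → ℤ, ∀ i,
    (m i : ℚ) = D * q i := by
  refine ⟨∏ i, (q i).den, Finset.prod_pos fun i _ => (q i).pos, fun i =>
    (q i).num * ∏ j ∈ Finset.univ.erase i, ((q j).den : ℤ), fun i => ?_⟩
  rw [← Finset.mul_prod_erase Finset.univ (fun i => (q i).den) (Finset.mem_univ i)]
  push_cast
  have h := Rat.mul_den_eq_num (q i)
  linear_combination (-(∏ j ∈ Finset.univ.erase i, ((q j).den : ℚ))) * h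

theorem countable_j (h : LF U Λ) (hni : NI U Λ) {F : Set ℂ} (hF : F.Countable) :
    {z | z ∈ U ∧ jv (Λ z) ∈ F}.Countable := by
  have h2 := h.an_g₂
  have h3 := h.an_g₃
  have key : ∀ a b : ℂ, (a ≠ 0 ∨ b ≠ 0) →
      {z | z ∈ U ∧ a * (Λ z).g₂ ^ 3 - b * (Λ z).g₃ ^ 2 = 0}.Countable := by
    intro a b hab
    apply countable_zeros h.conn (f := fun z => a * (Λ z).g₂ ^ 3 - b * (Λ z).g₃ ^ 2)
    · exact (analyticOnNhd_const.mul (h2.pow 3)).sub (analyticOnNhd_const.mul (h3.pow 2))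
    · by_contra hcon
      push Not at hcon
      have := hni a b (fun z hz => sub_eq_zero.1 (hcon z hz))
      rcases hab with h | h
      · exact h this.1
      · exact h this.2
  refine ((key 1 27 (Or.inl one_ne_zero)).union (hF.biUnion (fun f _ =>
    key (1728 - f) (-27 * f) (by
      by_cases hf : f = 0
      · left
        rw [hf]
        norm_num
      · right
        exact mul_ne_zero (by norm_num) hf)))).mono ?_
  rintro z ⟨hz, hj⟩
  by_cases h0 : (Λ z).g₂ ^ 3 - 27 * (Λ z).g₃ ^ 2 = 0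
  · exact Or.inl ⟨hz, by rw [one_mul]; exact h0⟩
  · refine Or.inr (mem_biUnion hj ⟨hz, ?_⟩)
    rw [jv]
    field_simp
    ring

theorem countable_x {x : Fin s → ℂ → ℂ} (hc : IsPreconnected U)
    (hxa : ∀ k, AnalyticOnNhd ℂ (x k) U) (hx : IndC U x) {F : Set ℂ} (hF : F.Countable) :
    {z | z ∈ U ∧ ∃ m : Fin s → ℤ, m ≠ 0 ∧ ∑ k, (m k : ℂ) * x k z ∈ F}.Countable := by
  have key : ∀ (m : Fin s → ℤ) (f : ℂ), m ≠ 0 →
      {z | z ∈ U ∧ ∑ k, (m k : ℂ) * x k z - f = 0}.Countable := by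
    intro m f hm
    apply countable_zeros hc (f := fun z => ∑ k, (m k : ℂ) * x k z - f)
    · refine AnalyticOnNhd.sub ?_ analyticOnNhd_const
      intro z hz
      exact Finset.analyticAt_fun_sum _ fun k _ => analyticAt_const.mul (hxa k z hz)
    · by_contra hcon
      push Not at hcon
      exact hm (hx m f (fun z hz => sub_eq_zero.1 (hcon z hz)))
  refine (Set.countable_iUnion (fun m : {m : Fin s → ℤ // m ≠ 0} => hF.biUnion
    (fun f _ => key m f m.2))).mono ?_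
  rintro z ⟨hz, m, hm, hf⟩
  exact mem_iUnion.2 ⟨⟨m, hm⟩, mem_biUnion hf ⟨hz, sub_self _⟩⟩

theorem countable_p {p : Fin r → ℂ → ℂ} (h : LF U Λ)
    (hpa : ∀ i, AnalyticOnNhd ℂ (p i) U) (hp : IndP U Λ p) :
    {z | z ∈ U ∧ ∃ n : Fin r → ℤ, n ≠ 0 ∧ ∑ i, (n i : ℂ) * p i z ∈ (Λ z).lattice}.Countable := by
  have key : ∀ (n : Fin r → ℤ) (a b : ℤ), n ≠ 0 →
      {z | z ∈ U ∧ ∑ i, (n i : ℂ) * p i z - (a * (Λ z).ω₁ + b * (Λ z).ω₂) = 0}.Countable := by
    intro n a b hn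
    apply countable_zeros h.conn
      (f := fun z => ∑ i, (n i : ℂ) * p i z - (a * (Λ z).ω₁ + b * (Λ z).ω₂))
    · refine AnalyticOnNhd.sub ?_ ((analyticOnNhd_const.mul h.an₁).add
        (analyticOnNhd_const.mul h.an₂))
      intro z hz
      exact Finset.analyticAt_fun_sum _ fun k _ => analyticAt_const.mul (hpa k z hz)
    · by_contra hcon
      push Not at hcon
      refine hn (hp n (fun z hz => ?_))
      rw [sub_eq_zero.1 (hcon z hz), PeriodPair.mem_lattice]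
      exact ⟨a, b, rfl⟩
  refine (Set.countable_iUnion (fun m : {m : Fin r → ℤ // m ≠ 0} => Set.countable_iUnion
    (fun a : ℤ => Set.countable_iUnion (fun b : ℤ => key m a b m.2)))).mono ?_
  rintro z ⟨hz, m, hm, hf⟩
  obtain ⟨a, b, hab⟩ := PeriodPair.mem_lattice.1 hf
  exact mem_iUnion.2 ⟨⟨m, hm⟩, mem_iUnion.2 ⟨a, mem_iUnion.2 ⟨b, hz, by
    rw [hab]
    exact sub_self _⟩⟩⟩

/-- **ranks at generic points** -/
theorem generic_rank (h : LF U Λ) (hni : NI U Λ) {x : Fin s → ℂ → ℂ}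
    (hxa : ∀ k, AnalyticOnNhd ℂ (x k) U) (hx : IndC U x) {p : Fin r → ℂ → ℂ}
    (hpa : ∀ i, AnalyticOnNhd ℂ (p i) U) (hp : IndP U Λ p) {S : Set ℂ} (hS : S.Countable) :
    ∃ F : IntermediateField ℚ ℂ, (F : Set ℂ).Countable ∧ S ⊆ F ∧
      (∀ x, IsAlgebraic F x → x ∈ F) ∧ 2 * Real.pi * Complex.I ∈ F ∧
      ∃ B : Set ℂ, B.Countable ∧ ∀ z ∈ U, z ∉ B → z ∉ F ∧
        ((4 + (s + 2 * r) : ℕ) : ℕ∞) ≤ (MK F).eRk
          (GenL (Λ z) ∪ (ET (fun k => x k z) ∪ EP (Λ z) (fun i => p i z))) := by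
  obtain ⟨F, hFc, hSF, halg, hexp, hpi, hF⟩ := exists_F hS
  refine ⟨F, hFc, hSF, halg, hpi, (F : Set ℂ) ∪ ({z | z ∈ U ∧ jv (Λ z) ∈ (F : Set ℂ)} ∪
    ({z | z ∈ U ∧ ∃ m : Fin s → ℤ, m ≠ 0 ∧ ∑ k, (m k : ℂ) * x k z ∈ (F : Set ℂ)} ∪
    {z | z ∈ U ∧ ∃ n : Fin r → ℤ, n ≠ 0 ∧ ∑ i, (n i : ℂ) * p i z ∈ (Λ z).lattice})),
    hFc.union ((countable_j h hni hFc).union ((countable_x h.conn hxa hx hFc).union
    (countable_p h hpa hp))), fun z hz hB => ?_⟩
  simp only [mem_union, not_or] at hB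
  obtain ⟨hB1, hB2, hB3, hB4⟩ := hB
  refine ⟨hB1, (hF (Λ z) (fun hj => hB2 ⟨hz, hj⟩)).2 s r _ _ ?_ ?_⟩
  · intro q hq
    by_contra hne
    obtain ⟨D, hD, m, hm⟩ := exists_den q
    apply hB3
    refine ⟨hz, m, ?_, ?_⟩
    · rintro rfl
      apply hne
      funext i
      have h1 := hm i
      simp only [Pi.zero_apply, Int.cast_zero] at h1
      have hD' : (D : ℚ) ≠ 0 := by exact_mod_cast hD.ne'
      exact (mul_eq_zero.1 h1.symm).resolve_left hD'
    · have h1 : ∑ k, (m k : ℂ) * x k z = (D : ℂ) * ∑ k, q k • x k z := by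
        rw [Finset.mul_sum]
        refine Finset.sum_congr rfl fun k _ => ?_
        have h2 : (m k : ℂ) = D * q k := by exact_mod_cast congrArg (fun t : ℚ => (t : ℂ)) (hm k)
        rw [h2, Rat.smul_def]
        ring
      rw [h1]
      exact F.mul_mem (natCast_mem F D) hq
  · rw [indep_iff]
    intro q hq
    by_contra hne
    obtain ⟨N, hN, hNq⟩ := mem_PQ_iff'.1 hq
    obtain ⟨D, hD, m, hm⟩ := exists_den (fun i => (N : ℚ) * q i)
    apply hB4
    refine ⟨hz, m, ?_, ?_⟩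
    · rintro rfl
      apply hne
      intro i
      have h1 := hm i
      simp only [Pi.zero_apply, Int.cast_zero] at h1
      have hD' : (D : ℚ) ≠ 0 := by exact_mod_cast hD.ne'
      have hN' : (N : ℚ) ≠ 0 := by exact_mod_cast hN.ne'
      exact (mul_eq_zero.1 ((mul_eq_zero.1 h1.symm).resolve_left hD')).resolve_left hN'
    · have h1 : ∑ i, (m i : ℂ) * p i z = (D : ℤ) • ((N : ℂ) * ∑ i, (q i : ℂ) * p i z) := by
        rw [zsmul_eq_mul, Finset.mul_sum, Finset.mul_sum]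
        refine Finset.sum_congr rfl fun k _ => ?_
        have h2 : (m k : ℂ) = D * (N * q k) := by
          exact_mod_cast congrArg (fun t : ℚ => (t : ℂ)) (hm k)
        rw [h2]
        push_cast
        ring
      rw [h1]
      exact zsmul_mem hNq _

end Pool.Agent.Y776.Fam
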