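import Mathlib
import Pool.Agent.Y685.TauC

/-!
# The derivative of the sigma function in the lattice
-/

set_option autoImplicit false

open Filter Metric UpperHalfPlane
open scoped Topology Uniformity PeriodPair

noncomputable section

namespace Pool.Agent.Y776.Fam

open H667R3 Pool.Agent.W245.EB Pool.Agent.Y685 Pool.Agent.Y685.H2

variable {t : ℂ}

/-- the regular part of the sigma function -/
def Pr (t z : ℂ) : ℂ := ∏' x : Fin 2 → ℤ, E2 (z / wx x t)

theorem sigma_Pr (ht : 0 < t.im) (z : ℂ) : sigma (LC t) z = z * Pr t z := by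
  rw [sigma_eq, Pr, ← (eqv ht).tprod_eq]
  congr 1
  exact tprod_congr (fun x => by rw [eqv_apply])

theorem Pr_zero (t : ℂ) : Pr t 0 = 1 := by
  unfold Pr
  simp

/-- a uniform bound -/
theorem cof_bound (ht : 0 < t.im) {R : ℝ} (hR : 0 < R) :
    ∃ (u : (Fin 2 → ℤ) → ℝ) (V : Set ℂ), Summable u ∧ IsOpen V ∧ t ∈ V ∧ (∀ s ∈ V, 0 < s.im) ∧
      ∀ᶠ x in cofinite, ∀ s ∈ V, ∀ z ∈ ball (0 : ℂ) R, ‖E2 (z / wx x s) - 1‖ ≤ u x := by
  classical
  set A : ℝ := |t.re| + 1 with hA
  set B : ℝ := t.im / 2 with hB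
  have hB0 : 0 < B := half_pos ht
  set ρ : ℝ := EisensteinSeries.r ⟨⟨A, B⟩, hB0⟩ with hρ
  have hρ0 : 0 < ρ := EisensteinSeries.r_pos _
  refine ⟨fun x => 5 * R ^ 3 * ρ⁻¹ ^ 3 * ‖x‖ ^ (-3 : ℝ), {s | |s.re| < A} ∩ {s | B < s.im}, ?_, ?_,
    ⟨?_, ?_⟩, ?_, ?_⟩
  · exact (EisensteinSeries.summable_one_div_norm_rpow (k := 3) (by norm_num)).mul_left _
  · exact (isOpen_lt Complex.continuous_re.abs continuous_const).inter
      (isOpen_lt continuous_const Complex.continuous_im)
  · change |t.re| < A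
    rw [hA]
    linarith
  · change B < t.im
    rw [hB]
    linarith
  · intro s hs
    exact hB0.trans hs.2
  · have hfin : {x : Fin 2 → ℤ | ‖x‖ ≤ R / ρ}.Finite := by
      have : {x : Fin 2 → ℤ | ‖x‖ ≤ R / ρ} = closedBall (0 : Fin 2 → ℤ) (R / ρ) := by
        ext x
        simp
      rw [this]
      exact (isCompact_closedBall (0 : Fin 2 → ℤ) (R / ρ)).finite_of_discrete
    filter_upwards [hfin.compl_mem_cofinite] with x hx s hs z hz
    have hx1 : R / ρ < ‖x‖ := not_le.1 hx
    have hxp : 0 < ‖x‖ := lt_trans (by positivity) hx1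
    have hx0 : x ≠ 0 := norm_pos_iff.1 hxp
    have ht0 : 0 < s.im := hB0.trans hs.2
    have h3 := EisensteinSeries.r_mul_max_le ⟨s, ht0⟩ hx0
    have h4 := EisensteinSeries.r_lower_bound_on_verticalStrip (z := ⟨s, ht0⟩) hB0
      (A := A) (B := B) ⟨le_of_lt hs.1, le_of_lt hs.2⟩
    have h5 : ρ * ‖x‖ ≤ ‖wx x s‖ := (mul_le_mul_of_nonneg_right h4 (norm_nonneg _)).trans h3
    have h6 : R ≤ ρ * ‖x‖ := by
      rw [div_lt_iff₀ hρ0] at hx1
      linarith
    have hzR : ‖z‖ ≤ R := (mem_ball_zero_iff.1 hz).le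
    have h7 : ‖z / wx x s‖ ≤ R / (ρ * ‖x‖) := by
      rw [norm_div]
      gcongr
    refine (norm_E2_sub_one_le _ (h7.trans ?_)).trans ?_
    · rw [div_le_one (by positivity)]
      exact h6
    · calc 5 * ‖z / wx x s‖ ^ 3 ≤ 5 * (R / (ρ * ‖x‖)) ^ 3 := by gcongr
        _ = 5 * R ^ 3 * ρ⁻¹ ^ 3 * ‖x‖ ^ (-3 : ℝ) := by
          rw [Real.rpow_neg hxp.le]
          norm_cast
          field_simp

theorem diff_Ef {x : Fin 2 → ℤ} {s : ℂ} (hs : 0 < s.im) (z : ℂ) :
    DifferentiableAt ℂ (fun s => E2 (z / wx x s) - 1) s := by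
  by_cases hx : x = 0
  · subst hx
    have : (fun s : ℂ => E2 (z / wx 0 s) - 1) = fun _ => E2 (z / 0) - 1 := by
      funext s
      simp [wx]
    rw [this]
    exact differentiableAt_const _
  · have hw := wx_ne hx hs
    have hd : DifferentiableAt ℂ (fun t => wx x t) s := by
      unfold wx
      fun_prop
    exact ((differentiable_E2 _).comp s ((differentiableAt_const z).fun_div hd hw)).sub_const 1

theorem cont_Ef {x : Fin 2 → ℤ} {s : ℂ} (hs : 0 < s.im) (z : ℂ) :
    ContinuousAt (fun q : ℂ × ℂ => E2 (q.2 / wx x q.1) - 1) (s, z) := by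
  by_cases hx : x = 0
  · subst hx
    have : (fun q : ℂ × ℂ => E2 (q.2 / wx 0 q.1) - 1) = fun _ => E2 0 - 1 := by
      funext q
      simp [wx]
    rw [this]
    exact continuousAt_const
  · have hw := wx_ne hx hs
    have c1 : ContinuousAt (fun q : ℂ × ℂ => wx x q.1) (s, z) :=
      ((contAt_wx x s).comp continuous_fst).continuousAt
    have c2 : ContinuousAt (fun q : ℂ × ℂ => q.2 / wx x q.1) (s, z) := continuousAt_snd.div c1 hw
    exact (ContinuousAt.comp (g := E2) differentiable_E2.continuous.continuousAt c2).sub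
      continuousAt_const

theorem SH_Pr (ht : 0 < t.im) (z₀ : ℂ) : SH Pr (t, z₀) := by
  classical
  obtain ⟨u, V, hu, hV, htV, him, hb⟩ := cof_bound ht (R := ‖z₀‖ + 1) (by positivity)
  have hz₀ : z₀ ∈ ball (0 : ℂ) (‖z₀‖ + 1) := by simp
  have hopen : IsOpen (V ×ˢ ball (0 : ℂ) (‖z₀‖ + 1)) := hV.prod isOpen_ball
  have hcont : ContinuousOn (fun q : ℂ × ℂ => Pr q.1 q.2) (V ×ˢ ball (0 : ℂ) (‖z₀‖ + 1)) := by
    have h1 := Summable.hasProdLocallyUniformlyOn_one_add (R := ℂ)
      (f := fun (x : Fin 2 → ℤ) (q : ℂ × ℂ) => E2 (q.2 / wx x q.1) - 1) hopen hu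
      (by
        filter_upwards [hb] with x hx q hq
        exact hx q.1 hq.1 q.2 hq.2)
      (fun x q hq => (cont_Ef (him _ hq.1) q.2).continuousWithinAt)
    simp only [add_sub_cancel] at h1
    rw [hasProdLocallyUniformlyOn_iff_tendstoLocallyUniformlyOn] at h1
    refine h1.continuousOn (Eventually.frequently (Eventually.of_forall fun I => ?_))
    refine continuousOn_finsetProd _ fun x _ q hq => ?_
    have hc : ContinuousAt (fun q : ℂ × ℂ => (E2 (q.2 / wx x q.1) - 1) + 1) (q.1, q.2) :=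
      (cont_Ef (x := x) (him _ hq.1) q.2).add continuousAt_const
    simp only [sub_add_cancel] at hc
    exact hc.continuousWithinAt
  filter_upwards [hopen.mem_nhds (⟨htV, hz₀⟩ : (t, z₀) ∈ V ×ˢ ball (0 : ℂ) (‖z₀‖ + 1))] with q hq
  refine ⟨hcont.continuousAt (hopen.mem_nhds hq), ?_, ?_⟩
  · have h1 := Summable.hasProdLocallyUniformlyOn_one_add (R := ℂ)
      (f := fun (x : Fin 2 → ℤ) (s : ℂ) => E2 (q.2 / wx x s) - 1) hV hu
      (by
        filter_upwards [hb] with x hx s hs
        exact hx s hs q.2 hq.2)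
      (fun x s hs => (diff_Ef (him _ hs) q.2).continuousAt.continuousWithinAt)
    simp only [add_sub_cancel] at h1
    have h2 := h1.differentiableOn (Eventually.of_forall fun I =>
      DifferentiableOn.fun_finsetProd fun x _ s hs => by
        have := (diff_Ef (x := x) (him _ hs) q.2).add_const 1
        simp only [sub_add_cancel] at this
        exact this.differentiableWithinAt) hV
    exact (h2 q.1 hq.1).differentiableAt (hV.mem_nhds hq.1)
  · have hE : ∀ x : Fin 2 → ℤ, Differentiable ℂ (fun z => E2 (z / wx x q.1)) := fun x z =>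
      (differentiable_E2 _).comp z ((differentiableAt_id).div_const _)
    have h1 := Summable.hasProdLocallyUniformlyOn_one_add (R := ℂ)
      (f := fun (x : Fin 2 → ℤ) (z : ℂ) => E2 (z / wx x q.1) - 1) (isOpen_ball (x := (0 : ℂ))
        (ε := ‖z₀‖ + 1)) hu
      (by
        filter_upwards [hb] with x hx z hz
        exact hx q.1 hq.1 z hz)
      (fun x z hz => ((hE x).continuous.sub continuous_const).continuousAt.continuousWithinAt)
    simp only [add_sub_cancel] at h1
    have h2 := h1.differentiableOn (Eventually.of_forall fun I =>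
      DifferentiableOn.fun_finsetProd fun x _ => (hE x).differentiableOn) isOpen_ball
    exact (h2 q.2 hq.2).differentiableAt (isOpen_ball.mem_nhds hq.2)

theorem Pr_ne (ht : 0 < t.im) {z : ℂ} (hz : z ∉ (LC t).lattice) : Pr t z ≠ 0 := by
  have := sigma_ne_zero _ hz
  rw [sigma_Pr ht] at this
  exact right_ne_zero_of_mul this

theorem deriv_Pr (ht : 0 < t.im) {z : ℂ} (hz : z ∉ (LC t).lattice) :
    deriv (Pr t) z = (zeta (LC t) z - 1 / z) * Pr t z := by
  have hz0 : z ≠ 0 := by rintro rfl; exact hz (zero_mem _)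
  have h1 : DifferentiableAt ℂ (Pr t) z := (SH_Pr ht z).d2
  have h2 := (hasDerivAt_id z).mul h1.hasDerivAt
  have h3 : HasDerivAt (fun z => z * Pr t z) (zeta (LC t) z * sigma (LC t) z) z := by
    refine (hasDerivAt_sigma (LC t) hz).congr_of_eventuallyEq (Eventually.of_forall fun w => ?_)
    exact (sigma_Pr ht w).symm
  have h4 := h2.unique h3
  rw [sigma_Pr ht] at h4
  simp only [id_eq] at h4
  field_simp
  linear_combination h4

/-- the logarithmic derivative in the lattice -/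
def Tt (t z : ℂ) : ℂ := deriv (fun s => Pr s z) t / Pr t z

/-- its value -/
def Qt (t z : ℂ) : ℂ := al t * (1 - z * zeta (LC t) z) +
  be t * ((℘[LC t] z - zeta (LC t) z ^ 2) / 2 - (LC t).g₂ / 24 * z ^ 2)

theorem hasDerivAt_Tt (ht : 0 < t.im) {z : ℂ} (hz : z ∉ (LC t).lattice) :
    HasDerivAt (Tt t) (Ht t z) z := by
  obtain ⟨h1, h2⟩ := (SH_Pr ht z).mixed
  have hP := Pr_ne ht hz
  have h3 : HasDerivAt (fun s => (zeta (LC s) z - 1 / z) * Pr s z)
      (Ht t z * Pr t z + (zeta (LC t) z - 1 / z) * deriv (fun s => Pr s z) t) t := by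
    refine ((hasDerivAt_t ht hz).sub_const (1 / z)).mul ?_
    exact (SH_Pr ht z).d1.hasDerivAt
  have h4 : (fun s => deriv (Pr s) z) =ᶠ[𝓝 t] fun s => (zeta (LC s) z - 1 / z) * Pr s z := by
    filter_upwards [eventually_notMem' ht hz] with s hs
    exact deriv_Pr hs.1 hs.2
  have h5 := (h3.congr_of_eventuallyEq h4).unique h2
  have h6 := h1.hasDerivAt.div (SH_Pr ht z).d2.hasDerivAt hP
  refine h6.congr_deriv ?_
  rw [← h5, deriv_Pr ht hz]
  field_simp
  ring

theorem hasDerivAt_Qt {z : ℂ} (hz : z ∉ (LC t).lattice) :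
    HasDerivAt (Qt t) (Kt t z) z := by
  have a := hasDerivAt_zeta (LC t) hz
  have b := hasDerivAt_weierstrassP (LC t) hz
  have e := ((hasDerivAt_id z).mul a).const_sub 1
  have f := ((b.sub (a.fun_pow 2)).div_const 2).sub ((hasDerivAt_pow 2 z).const_mul
    ((LC t).g₂ / 24))
  have g := (e.const_mul (al t)).add (f.const_mul (be t))
  refine g.congr_deriv ?_
  simp only [id_eq]
  unfold Kt
  push_cast
  ring

/-- the regular part of the zeta function vanishes at zero to order two -/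
theorem Rg_zero (ht : 0 < t.im) : Rg t 0 = 0 ∧ deriv (Rg t) 0 = 0 := by
  classical
  have h0 : Rg t 0 = 0 := by
    unfold Rg Zs
    refine (tsum_congr fun x => ?_).trans (tsum_zero (β := Fin 2 → ℤ))
    by_cases hx : x ∈ {x : Fin 2 → ℤ | x ≠ 0}
    · rw [Set.indicator_of_mem hx]
      unfold Tx
      have := wx_ne hx ht
      field_simp
      ring
    · rw [Set.indicator_of_notMem hx]
  refine ⟨h0, ?_⟩
  obtain ⟨u, hu, hev⟩ := exists_bound ht (S := {x : Fin 2 → ℤ | x ≠ 0}) (z₀ := 0)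
    (fun x hx h => wx_ne hx ht h.symm)
  have hev' : ∀ᶠ z : ℂ in 𝓝 0, ∀ x ∈ {x : Fin 2 → ℤ | x ≠ 0}, z ≠ wx x t ∧ ‖Tx x t z‖ ≤ u x := by
    have hc : ContinuousAt (fun z : ℂ => ((t, z) : ℂ × ℂ)) 0 := by fun_prop
    filter_upwards [hc.eventually hev] with z hz
    exact hz.2
  obtain ⟨r, hr, hb⟩ := Metric.eventually_nhds_iff_ball.1 hev'
  have h1 := Complex.hasSum_deriv_of_summable_norm (U := ball (0 : ℂ) r) (u := fun x => |u x|)
    (F := fun x z => ({x : Fin 2 → ℤ | x ≠ 0}).indicator (fun x => Tx x t z) x) hu.abs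
    (fun x z hz => by
      by_cases hx : x ∈ {x : Fin 2 → ℤ | x ≠ 0}
      · simp only [Set.indicator_of_mem hx]
        exact (diff_Tx_z (hb z hz x hx).1).differentiableWithinAt
      · simp only [Set.indicator_of_notMem hx]
        exact differentiableWithinAt_const _) isOpen_ball
    (fun x z hz => by
      by_cases hx : x ∈ {x : Fin 2 → ℤ | x ≠ 0}
      · simp only [Set.indicator_of_mem hx]
        exact (hb z hz x hx).2.trans (le_abs_self _)
      · simp only [Set.indicator_of_notMem hx, norm_zero]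
        exact abs_nonneg _) (mem_ball_self hr)
  have h2 : ∀ x : Fin 2 → ℤ,
      deriv (fun z => ({x : Fin 2 → ℤ | x ≠ 0}).indicator (fun x => Tx x t z) x) 0 = 0 := by
    intro x
    by_cases hx : x ∈ {x : Fin 2 → ℤ | x ≠ 0}
    · simp only [Set.indicator_of_mem hx]
      have hw := wx_ne hx ht
      have e1 : HasDerivAt (fun z : ℂ => Tx x t z)
          ((0 * (0 - wx x t) - 1 * 1) / (0 - wx x t) ^ 2 + 0 + 1 / wx x t ^ 2) 0 := by
        unfold Tx
        exact (((hasDerivAt_const (0 : ℂ) (1 : ℂ)).fun_div ((hasDerivAt_id (0 : ℂ)).sub_const _)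
          (by simpa using hw)).add (hasDerivAt_const _ _)).add
          ((hasDerivAt_id (0 : ℂ)).div_const _)
      rw [e1.deriv]
      field_simp
      ring
    · simp only [Set.indicator_of_notMem hx]
      exact deriv_const _ _
  simp only [h2] at h1
  exact (h1.unique hasSum_zero)

/-- **the derivative of the logarithm of the sigma function in the lattice** -/
theorem Tt_eq (ht : 0 < t.im) {z : ℂ} (hz : z ∉ (LC t).lattice) : Tt t z = Qt t z := by
  -- constant
  have hopen := isOpen_compl (LC t)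
  have hder : ∀ z, z ∉ (LC t).lattice → HasDerivAt (fun z => Tt t z - Qt t z) 0 z := by
    intro z hz
    refine ((hasDerivAt_Tt ht hz).sub (hasDerivAt_Qt hz)).congr_deriv ?_
    rw [(main_id ht).1 z hz, sub_self]
  have hc2 : ∀ z w, z ∉ (LC t).lattice → w ∉ (LC t).lattice →
      Tt t z - Qt t z = Tt t w - Qt t w := by
    intro z w hz hw
    exact hopen.is_const_of_deriv_eq_zero (isPreconnected_compl (LC t))
      (fun x hx => (hder x hx).differentiableAt.differentiableWithinAt)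
      (fun x hx => (hder x hx).deriv) hz hw
  -- near zero
  have hnm : ∀ᶠ z in 𝓝[≠] (0 : ℂ), z ∉ (LC t).lattice := by
    filter_upwards [self_mem_nhdsWithin, mem_nhdsWithin_of_mem_nhds
      ((LC t).compl_lattice_sdiff_singleton_mem_nhds 0)] with w hw hw'
    simp_all
  obtain ⟨r0, r1⟩ := Rg_zero ht
  have hR := SH_Rg ht
  obtain ⟨r, hr, hb⟩ := hR.ball
  have hRd : DifferentiableOn ℂ (Rg t) (ball 0 r) := fun z hz =>
    (hb t (mem_ball_self hr) z hz).d2.differentiableWithinAt
  have hRa : AnalyticAt ℂ (Rg t) 0 := hRd.analyticAt (ball_mem_nhds _ hr)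
  have hR1 : ContinuousAt (deriv (Rg t)) 0 := hRa.deriv.continuousAt
  have hR0 : ContinuousAt (Rg t) 0 := hRa.continuousAt
  have hRs : Tendsto (fun z => Rg t z / z) (𝓝[≠] (0 : ℂ)) (𝓝 0) := by
    have h1 := hasDerivAt_iff_tendsto_slope.1 hRa.differentiableAt.hasDerivAt
    rw [r1] at h1
    refine h1.congr' ?_
    filter_upwards [self_mem_nhdsWithin] with z hz
    rw [slope_def_field, r0, sub_zero, sub_zero]
  have hT0 : Tendsto (Tt t) (𝓝[≠] (0 : ℂ)) (𝓝 0) := by
    have h1 := (SH_Pr ht 0).mixed.1.continuousAt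
    have h2 : ContinuousAt (Pr t) 0 := (SH_Pr ht 0).d2.continuousAt
    have h3 : ContinuousAt (Tt t) 0 := h1.div h2 (by rw [Pr_zero]; exact one_ne_zero)
    have h4 : Tt t 0 = 0 := by
      unfold Tt
      have : (fun s => Pr s 0) = fun _ => (1 : ℂ) := funext fun s => Pr_zero s
      rw [this, deriv_const, zero_div]
    have h5 := h3.tendsto.mono_left (nhdsWithin_le_nhds (s := {(0 : ℂ)}ᶜ))
    rwa [h4] at h5
  have hid : Tendsto (fun z : ℂ => z) (𝓝[≠] (0 : ℂ)) (𝓝 0) :=
    (continuous_id.tendsto (0 : ℂ)).mono_left nhdsWithin_le_nhds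
  have hR0' : Tendsto (Rg t) (𝓝[≠] (0 : ℂ)) (𝓝 0) := by
    have := hR0.tendsto
    rw [r0] at this
    exact this.mono_left nhdsWithin_le_nhds
  have hR1' : Tendsto (deriv (Rg t)) (𝓝[≠] (0 : ℂ)) (𝓝 0) := by
    have := hR1.tendsto
    rw [r1] at this
    exact this.mono_left nhdsWithin_le_nhds
  have hQ0 : Tendsto (Qt t) (𝓝[≠] (0 : ℂ)) (𝓝 0) := by
    have h1 : Tendsto (fun z => al t * (-(z * Rg t z)) + be t * ((-deriv (Rg t) z -
        2 * (Rg t z / z) - Rg t z ^ 2) / 2 - (LC t).g₂ / 24 * z ^ 2)) (𝓝[≠] (0 : ℂ))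
        (𝓝 (al t * (-(0 * 0)) + be t * ((-0 - 2 * 0 - 0 ^ 2) / 2 - (LC t).g₂ / 24 * 0 ^ 2))) :=
      ((hid.mul hR0').neg.const_mul _).add (((((hR1'.neg).sub (hRs.const_mul 2)).sub
        (hR0'.pow 2)).div_const 2).sub ((hid.pow 2).const_mul _) |>.const_mul _)
    have e0 : al t * (-(0 * 0)) + be t * ((-0 - 2 * 0 - 0 ^ 2) / 2 -
        (LC t).g₂ / 24 * 0 ^ 2) = 0 := by ring
    rw [e0] at h1
    refine h1.congr' ?_
    filter_upwards [hnm, mem_nhdsWithin_of_mem_nhds (ball_mem_nhds (0 : ℂ) hr),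
      self_mem_nhdsWithin] with z hz hzb hz0
    have hz0 : z ≠ 0 := hz0
    have hn := isOpen_ball.mem_nhds hzb
    have hnz : ∀ᶠ w in 𝓝 z, w ≠ 0 ∧ w ∉ (LC t).lattice := by
      have h1 := hopen.mem_nhds hz
      filter_upwards [h1, isOpen_ne.mem_nhds hz0] with w hw hw0
      exact ⟨hw0, hw⟩
    have f1 : ∀ᶠ w in 𝓝 z, zeta (LC t) w = 1 / w + Rg t w := by
      filter_upwards [hnz] with w hw
      exact zeta_Rg ht hw.2
    have hinv : HasDerivAt (fun w : ℂ => 1 / w) (-(1 / z ^ 2)) z := by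
      have := hasDerivAt_inv hz0
      simp only [one_div]
      exact this
    have f2 : ℘[LC t] z = 1 / z ^ 2 - deriv (Rg t) z := by
      have c1 := (hasDerivAt_zeta (LC t) hz).deriv
      have c2 : deriv (zeta (LC t)) z = deriv (fun w => 1 / w + Rg t w) z :=
        Filter.EventuallyEq.deriv_eq f1
      have c3 := (hinv.add ((hRd.differentiableAt hn).hasDerivAt))
      have c4 : deriv (fun w => 1 / w + Rg t w) z = -(1 / z ^ 2) + deriv (Rg t) z := c3.deriv
      rw [c1, c4] at c2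
      linear_combination -c2
    unfold Qt
    rw [f1.self_of_nhds, f2]
    field_simp
    ring
  have hlim := hT0.sub hQ0
  rw [sub_zero] at hlim
  have h5 : Tendsto (fun w => Tt t w - Qt t w) (𝓝[≠] (0 : ℂ)) (𝓝 (Tt t z - Qt t z)) := by
    refine tendsto_const_nhds.congr' ?_
    filter_upwards [hnm] with w hw
    exact hc2 z w hz hw
  have h6 := tendsto_nhds_unique h5 hlim
  exact sub_eq_zero.1 h6

theorem SH_sigma (ht : 0 < t.im) (z : ℂ) : SH (fun t z => sigma (LC t) z) (t, z) := by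
  have hc : Continuous fun q : ℂ × ℂ => q.1.im := Complex.continuous_im.comp continuous_fst
  have h1 : SH (fun t z => z * Pr t z) (t, z) := by
    filter_upwards [SH_Pr ht z] with q hq
    exact ⟨continuousAt_snd.mul hq.1, (differentiableAt_const _).fun_mul hq.2.1,
      differentiableAt_fun_id.fun_mul hq.2.2⟩
  refine h1.congr ?_
  filter_upwards [hc.continuousAt.eventually (lt_mem_nhds (b := (t, z).1.im) ht)] with q hq
  exact (sigma_Pr hq _).symm

/-- the derivative of sigma -/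
theorem fderiv_sigma (ht : 0 < t.im) {z : ℂ} (hz : z ∉ (LC t).lattice) :
    HasFDerivAt (fun q : ℂ × ℂ => sigma (LC q.1) q.2)
      ((sigma (LC t) z * Qt t z) • ContinuousLinearMap.fst ℂ ℂ ℂ +
        (sigma (LC t) z * zeta (LC t) z) • ContinuousLinearMap.snd ℂ ℂ ℂ) (t, z) := by
  have h1 := (SH_sigma ht z).strict.hasFDerivAt
  refine h1.congr_fderiv ?_
  have h2 : deriv (sigma (LC t)) z = zeta (LC t) z * sigma (LC t) z := deriv_sigma (LC t) hz
  have h3 : deriv (fun s => sigma (LC s) z) t = sigma (LC t) z * Qt t z := by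
    have h4 : (fun s => sigma (LC s) z) =ᶠ[𝓝 t] fun s => z * Pr s z := by
      filter_upwards [Complex.continuous_im.continuousAt.eventually (lt_mem_nhds ht)] with s hs
      exact sigma_Pr hs z
    have h5 := (SH_Pr ht z).d1.hasDerivAt
    rw [h4.deriv_eq, deriv_const_mul_field, sigma_Pr ht, ← Tt_eq ht hz, Tt]
    have := Pr_ne ht hz
    field_simp
  simp only
  rw [h2, h3, mul_comm (zeta (LC t) z)]

end Pool.Agent.Y776.Fam
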