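import Mathlib
import Pool.Agent.Y776.FinB
import Pool.Agent.Y776.Fam.Gen
import Pool.Agent.Y776.Fam.Sig
import Pool.Agent.Y776.Fam.Fn
import Pool.Agent.Y776.Fam.Third

/-!
# Families of lattices with points: definitions and analyticity
-/

set_option autoImplicit false

open Filter Topology Set
open scoped PeriodPair

noncomputable section

namespace Pool.Agent.Y776.Fam

open H667R3 Pool.Agent.W245.EB Pool.Agent.TH813.Ell Pool.Agent.Y685 Pool.Agent.Y685.H2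
open Pool.Agent.TH813.Rel (DF MK subset_cl rk_le_of_subset_cl mem_cl)

variable {U : Set ℂ} {Λ : ℂ → PeriodPair} {r s q : ℕ}

/-- algebraic functions -/
def AlgOn (U : Set ℂ) (f : ℂ → ℂ) : Prop :=
  ∃ P : MvPolynomial (Fin 2) ℂ, P ≠ 0 ∧ ∀ z ∈ U, MvPolynomial.eval ![z, f z] P = 0

/-- a family of lattices with points, exponents and logarithms of the sigma function -/
structure Fm (U : Set ℂ) (Λ : ℂ → PeriodPair) (u : Fin r → ℂ → ℂ) (l : Fin s → ℂ → ℂ)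
    (N : Fin q → Fin r → ℤ) (S : Fin q → ℂ → ℂ) : Prop extends LF U Λ where
  ni : NI U Λ
  ag2 : AlgOn U (fun z => (Λ z).g₂)
  ag3 : AlgOn U (fun z => (Λ z).g₃)
  ua : ∀ i, AnalyticOnNhd ℂ (u i) U
  un : ∀ i, ∀ z ∈ U, u i z ∉ (Λ z).lattice
  uw : ∀ i, AlgOn U (fun z => ℘[Λ z] (u i z))
  ui : IndP U Λ u
  la : ∀ k, AnalyticOnNhd ℂ (l k) U
  le : ∀ k, AlgOn U (fun z => Complex.exp (l k z))
  li : IndC U l
  Sa : ∀ k, AnalyticOnNhd ℂ (S k) U
  Se : ∀ k, ∀ z ∈ U, Complex.exp (S k z) = sigma (Λ z) (∑ i, (N k i : ℂ) * u i z)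
  Ni : ∀ c : Fin q → ℤ, (∀ i j, ∑ k, c k * (N k i * N k j) = 0) → c = 0

/-- the sign is constant -/
theorem LF.exists_eps (h : LF U Λ) : ∃ ε : ℂ, (ε = 1 ∨ ε = -1) ∧ ∀ z ∈ U, 0 < (nt ε (Λ z)).im := by
  have hc : ContinuousOn (fun z => ((Λ z).ω₂ / (Λ z).ω₁).im) U := by
    intro z hz
    have h1 := (h.an_nt 1 hz).continuousAt
    simp only [nt, one_mul] at h1
    exact (Complex.continuous_im.continuousAt.comp h1).continuousWithinAt
  by_cases hex : ∃ z ∈ U, 0 < ((Λ z).ω₂ / (Λ z).ω₁).im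
  · refine ⟨1, Or.inl rfl, fun z hz => ?_⟩
    simp only [nt, one_mul]
    by_contra hcon
    obtain ⟨z₁, hz₁, h1⟩ := hex
    have h2 := h.conn.intermediate_value hz hz₁ hc
    obtain ⟨w, hw, hw0⟩ := h2 ⟨not_lt.1 hcon, h1.le⟩
    exact im_ne (Λ w) hw0
  · push Not at hex
    refine ⟨-1, Or.inr rfl, fun z hz => ?_⟩
    simp only [nt, neg_mul, one_mul, Complex.neg_im]
    have h1 := hex z hz
    have h2 := im_ne (Λ z)
    have h3 := lt_of_le_of_ne h1 h2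
    linarith

/-- the sigma function of proportional lattices -/
theorem Hm_sigma {L L' : PeriodPair} {c : ℂ} (h : Hm L L' c) (z : ℂ) :
    sigma L' (c * z) = c * sigma L z := by
  rw [sigma_eq, sigma_eq, ← h.equiv.tprod_eq, mul_assoc]
  congr 2
  refine tprod_congr fun l => ?_
  rw [h.equiv_apply]
  congr 1
  exact mul_div_mul_left _ _ h.c0

theorem g_pos (L : PeriodPair) : ¬ (L.g₂ = 0 ∧ L.g₃ = 0) := by
  rintro ⟨h2, h3⟩
  obtain ⟨u, hu, hu2⟩ := exists_wp_eq L 0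
  have e1 := L.derivWeierstrassP_sq u hu
  rw [hu2, h2, h3] at e1
  have e2 : ℘'[L] u = 0 := by
    have : ℘'[L] u ^ 2 = 0 := by rw [e1]; norm_num
    exact pow_eq_zero_iff two_ne_zero |>.1 this
  have e3 : 2 * u ∈ L.lattice := by
    by_contra h3
    exact wp'_ne_zero L h3 e2
  apply simple_root L hu e3
  rw [hu2, h2]
  norm_num

/-- the normalized lattices are not constant -/
theorem tau_nonconst (hni : NI U Λ) {ε : ℂ} (hε : ε = 1 ∨ ε = -1)
    (him : ∀ z ∈ U, 0 < (nt ε (Λ z)).im) (hne : U.Nonempty) (c : ℂ) :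
    ∃ z ∈ U, nt ε (Λ z) ≠ c := by
  by_contra hcon
  push Not at hcon
  obtain ⟨z₀, hz₀⟩ := hne
  have h1 := hni ((LC c).g₃ ^ 2) ((LC c).g₂ ^ 3) (fun z hz => by
    have h2 := Hm_nt (Λ z) hε (him z hz)
    rw [hcon z hz] at h2
    rw [h2.g₂, h2.g₃]
    have := ω₁_ne_zero (Λ z)
    field_simp)
  apply g_pos (LC c)
  exact ⟨pow_eq_zero_iff three_ne_zero |>.1 h1.2, pow_eq_zero_iff two_ne_zero |>.1 h1.1⟩

/-- names of the functions -/
inductive Nm (r s q : ℕ) : Type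
  | z | tau | h | g2 | g3 | w
  | v (i : Fin r) | ze (i : Fin r) | wp (i : Fin r)
  | l (k : Fin s) | e (k : Fin s)
  | S (k : Fin q)
  deriving Fintype

/-- the functions -/
def fam (ε : ℂ) (Λ : ℂ → PeriodPair) (u : Fin r → ℂ → ℂ) (l : Fin s → ℂ → ℂ)
    (S : Fin q → ℂ → ℂ) : Nm r s q → ℂ → ℂ
  | .z, z => z
  | .tau, z => nt ε (Λ z)
  | .h, z => h1 (nt ε (Λ z))
  | .g2, z => (LC (nt ε (Λ z))).g₂
  | .g3, z => (LC (nt ε (Λ z))).g₃
  | .w, z => (Λ z).ω₁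
  | .v i, z => u i z / (Λ z).ω₁
  | .ze i, z => zeta (LC (nt ε (Λ z))) (u i z / (Λ z).ω₁)
  | .wp i, z => ℘[LC (nt ε (Λ z))] (u i z / (Λ z).ω₁)
  | .l k, z => l k z
  | .e k, z => Complex.exp (l k z)
  | .S k, z => S k z

section

variable {u : Fin r → ℂ → ℂ} {l : Fin s → ℂ → ℂ} {N : Fin q → Fin r → ℤ} {S : Fin q → ℂ → ℂ}
  {ε : ℂ}

theorem nm_notMem {z : ℂ} (hε : ε = 1 ∨ ε = -1) (him : 0 < (nt ε (Λ z)).im) {x : ℂ}
    (hx : x ∉ (Λ z).lattice) : x / (Λ z).ω₁ ∉ (LC (nt ε (Λ z))).lattice := by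
  rw [← (Hm_nt (Λ z) hε him).notMem, mul_div_cancel₀ _ (ω₁_ne_zero _)]
  exact hx

theorem fam_an (h : Fm U Λ u l N S) (hε : ε = 1 ∨ ε = -1) (him : ∀ z ∈ U, 0 < (nt ε (Λ z)).im)
    (k : Nm r s q) : AnalyticOnNhd ℂ (fam ε Λ u l S k) U := by
  intro z hz
  have hL := h.toLF
  have hv : ∀ i, AnalyticAt ℂ (fun z => u i z / (Λ z).ω₁) z := fun i =>
    (h.ua i z hz).div (hL.an₁ z hz) (ω₁_ne_zero _)
  cases k with
  | z => exact analyticAt_id
  | tau => exact hL.an_nt ε hz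
  | h =>
    refine an_of_diff (f := h1) ?_ (hL.an_nt ε hz)
    filter_upwards [ev_im (him z hz)] with s hs
    exact diff_h1 hs
  | g2 =>
    refine an_of_diff (f := fun s => (LC s).g₂) ?_ (hL.an_nt ε hz)
    filter_upwards [ev_im (him z hz)] with s hs
    exact (diff_g hs).1
  | g3 =>
    refine an_of_diff (f := fun s => (LC s).g₃) ?_ (hL.an_nt ε hz)
    filter_upwards [ev_im (him z hz)] with s hs
    exact (diff_g hs).2
  | w => exact hL.an₁ z hz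
  | v i => exact hv i
  | ze i =>
    exact (SH_zeta (him z hz) (nm_notMem hε (him z hz) (h.un i z hz))).comp_an
      (f := fun t z => zeta (LC t) z) (a := fun z => nt ε (Λ z)) (hL.an_nt ε hz) (hv i)
  | wp i =>
    exact (SH_wp (him z hz) (nm_notMem hε (him z hz) (h.un i z hz))).comp_an
      (f := fun t z => ℘[LC t] z) (a := fun z => nt ε (Λ z)) (hL.an_nt ε hz) (hv i)
  | l k => exact h.la k z hz
  | e k => exact (h.la k z hz).cexp
  | S k => exact h.Sa k z hz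

end

end Pool.Agent.Y776.Fam
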