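import Mathlib
import Pool.Agent.Y776.Fam.PtA

/-!
# Families of lattices with points: the derivation at a generic point
-/

set_option autoImplicit false

open Filter Topology Set
open scoped PeriodPair

noncomputable section

namespace Pool.Agent.Y776.Fam

open H667R3 Pool.Agent.W245.EB Pool.Agent.TH813.Ell Pool.Agent.Y685 Pool.Agent.Y685.H2
open Pool.Agent.TH813.Rel (DF MK subset_cl rk_le_of_subset_cl mem_cl)

variable {U : Set ℂ} {Λ : ℂ → PeriodPair} {r s q : ℕ}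

/-- algebraic functions over a field -/
def AlgOver (F : IntermediateField ℚ ℂ) (U : Set ℂ) (f : ℂ → ℂ) : Prop :=
  ∃ P : MvPolynomial (Fin 2) ℂ, P ≠ 0 ∧ (∀ c ∈ P.coeffs, c ∈ F) ∧
    ∀ z ∈ U, MvPolynomial.eval ![z, f z] P = 0

/-- values of algebraic functions -/
theorem AlgOver.mem {F C : IntermediateField ℚ ℂ} (hFC : F ≤ C) {f : ℂ → ℂ} (hf : AlgOver F U f)
    {z₀ : ℂ} (hz : z₀ ∈ U) (htr : ¬ IsAlgebraic F z₀) : f z₀ ∈ clo C {z₀} := by
  classical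
  obtain ⟨P, hP0, hPF, hP⟩ := hf
  have h1 : f z₀ ∈ (MK F).closure {z₀} := by
    by_contra hcon
    have h0 : z₀ ∉ (MK F).closure ∅ := by
      intro h
      apply htr
      have h2 := mem_cl.1 h
      rw [Algebra.adjoin_empty] at h2
      have : Algebra.IsAlgebraic F (⊥ : Subalgebra F ℂ) := by
        refine ⟨fun x => ?_⟩
        obtain ⟨r, hr⟩ := Algebra.mem_bot.1 x.2
        have : x = algebraMap F (⊥ : Subalgebra F ℂ) r := Subtype.ext hr.symm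
        rw [this]
        exact isAlgebraic_algebraMap r
      exact h2.restrictScalars F
    have i1 : (MK F).Indep {z₀} := by
      have := ((MK F).empty_indep.notMem_closure_iff (Set.mem_univ _)).1 h0
      simpa using this.1
    obtain ⟨i2, i3⟩ := (i1.notMem_closure_iff (Set.mem_univ _)).1 hcon
    have i4 : ({f z₀, z₀} : Set ℂ) = Set.range ![z₀, f z₀] := by
      rw [Matrix.range_cons, Matrix.range_cons, Matrix.range_empty, Set.union_empty]
      ext x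
      simp [or_comm]
    have i5 : AlgebraicIndependent F ![z₀, f z₀] := by
      apply indep_of_rank
      rw [← i4, i2.eRk_eq_encard, Set.encard_pair (by simpa using i3)]
      norm_num
    obtain ⟨P', hP'⟩ : ∃ P' : MvPolynomial (Fin 2) F, MvPolynomial.map (algebraMap F ℂ) P' = P := by
      have h3 : P ∈ Set.range (MvPolynomial.map (σ := Fin 2) (algebraMap F ℂ)) := by
        rw [MvPolynomial.mem_range_map_iff_coeffs_subset]
        intro c hc
        exact ⟨⟨c, hPF c (Finset.mem_coe.1 hc)⟩, rfl⟩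
      exact h3
    have h4 : MvPolynomial.aeval ![z₀, f z₀] P' = 0 := by
      rw [← hP z₀ hz, ← hP', MvPolynomial.eval_map, MvPolynomial.aeval_def]
    have h5 := (algebraicIndependent_iff.1 i5) P' h4
    rw [h5, map_zero] at hP'
    exact hP0 hP'.symm
  intro δ hδ hS
  exact (mem_cl_iff ({z₀} : Set ℂ) (f z₀)).1 h1 δ (fun x hx => hδ x (hFC hx)) hS

/-- the conditions on a generic point -/
structure GenPt (U : Set ℂ) (Λ : ℂ → PeriodPair) (u : Fin r → ℂ → ℂ) (l : Fin s → ℂ → ℂ)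
    (S : Fin q → ℂ → ℂ) (ε : ℂ) (F : IntermediateField ℚ ℂ) (z₀ : ℂ) : Prop where
  mem : z₀ ∈ U
  tr : ¬ IsAlgebraic F z₀
  gn : Gn U F (fam ε Λ u l S) z₀
  dt : deriv (fun z => nt ε (Λ z)) z₀ ≠ 0
  T0 : nt ε (Λ z₀) ∉ T0
  pi : ∀ n : Fin r → ℤ, n ≠ 0 → ∑ i, (n i : ℂ) * u i z₀ ∉ (Λ z₀).lattice
  li : ∀ m : Fin s → ℤ, m ≠ 0 → deriv (fun z => ∑ k, (m k : ℂ) * l k z) z₀ ≠ 0

section

variable {u : Fin r → ℂ → ℂ} {l : Fin s → ℂ → ℂ} {N : Fin q → Fin r → ℤ} {S : Fin q → ℂ → ℂ}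
  {ε : ℂ}

/-- zeros of a countable family of functions -/
theorem countable_fam (hc : IsPreconnected U) {ι : Type} [Countable ι] (f : ι → ℂ → ℂ)
    (hf : ∀ i, AnalyticOnNhd ℂ (f i) U) (hne : ∀ i, ∃ z ∈ U, f i z ≠ 0) :
    {z | z ∈ U ∧ ∃ i, f i z = 0}.Countable := by
  refine (Set.countable_iUnion (fun i => countable_zeros hc (hf i) (hne i))).mono ?_
  rintro z ⟨hz, i, hi⟩
  exact mem_iUnion.2 ⟨i, hz, hi⟩

/-- almost all points are generic -/
theorem countable_GenPt (h : Fm U Λ u l N S) (hε : ε = 1 ∨ ε = -1)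
    (him : ∀ z ∈ U, 0 < (nt ε (Λ z)).im) {F : IntermediateField ℚ ℂ}
    (hF : (F : Set ℂ).Countable) (hne : U.Nonempty) :
    {z | z ∈ U ∧ ¬ GenPt U Λ u l S ε F z}.Countable := by
  classical
  have hL := h.toLF
  have hFc : Countable F := hF.to_subtype
  have hτa : AnalyticOnNhd ℂ (fun z => nt ε (Λ z)) U := fun z hz => hL.an_nt ε hz
  have c1 : {z : ℂ | IsAlgebraic F z}.Countable := Algebraic.countable F ℂ
  have c2 := countable_Gn (κ := Nm r s q) hL.conn hF (fam_an h hε him)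
  have c3 : {z | z ∈ U ∧ deriv (fun z => nt ε (Λ z)) z = 0}.Countable := by
    refine countable_zeros hL.conn hτa.deriv ?_
    by_contra hcon
    push Not at hcon
    obtain ⟨w, hw⟩ := hne
    obtain ⟨z, hz, hzne⟩ := tau_nonconst h.ni hε him ⟨w, hw⟩ (nt ε (Λ w))
    exact hzne (hL.isOpen.is_const_of_deriv_eq_zero hL.conn
      (fun x hx => (hτa x hx).differentiableAt.differentiableWithinAt)
      (fun x hx => hcon x hx) hz hw)
  have c4 : {z | z ∈ U ∧ nt ε (Λ z) ∈ T0}.Countable := by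
    refine (T0_spec.1.biUnion (fun c _ => countable_zeros hL.conn
      (f := fun z => nt ε (Λ z) - c) (hτa.sub analyticOnNhd_const) ?_)).mono ?_
    · obtain ⟨z, hz, hzne⟩ := tau_nonconst h.ni hε him hne c
      exact ⟨z, hz, sub_ne_zero.2 hzne⟩
    · rintro z ⟨hz, hT⟩
      exact mem_biUnion hT ⟨hz, sub_self _⟩
  have c5 := countable_p hL h.ua h.ui
  have hla : ∀ m : Fin s → ℤ, AnalyticOnNhd ℂ (fun z => ∑ k, (m k : ℂ) * l k z) U := fun m z hz =>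
    Finset.analyticAt_fun_sum _ fun k _ => analyticAt_const.mul (h.la k z hz)
  have c6 := countable_fam hL.conn (ι := {m : Fin s → ℤ // m ≠ 0})
    (fun m => deriv (fun z => ∑ k, (m.1 k : ℂ) * l k z)) (fun m => (hla m.1).deriv) (by
      rintro ⟨m, hm⟩
      by_contra hcon
      push Not at hcon
      obtain ⟨w, hw⟩ := hne
      apply hm
      refine h.li m (∑ k, (m k : ℂ) * l k w) (fun z hz => ?_)
      exact (hL.isOpen.is_const_of_deriv_eq_zero hL.conn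
        (fun x hx => (hla m x hx).differentiableAt.differentiableWithinAt)
        (fun x hx => hcon x hx) hz hw))
  refine ((((((c1.union c2).union c3).union c4).union c5).union c6)).mono ?_
  rintro z ⟨hz, hg⟩
  by_contra hcon
  simp only [mem_union, not_or] at hcon
  obtain ⟨⟨⟨⟨⟨d1, d2⟩, d3⟩, d4⟩, d5⟩, d6⟩ := hcon
  apply hg
  refine ⟨hz, d1, ?_, fun h0 => d3 ⟨hz, h0⟩, fun h0 => d4 ⟨hz, h0⟩, ?_, ?_⟩
  · by_contra hG
    exact d2 ⟨hz, hG⟩
  · intro n hn h0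
    exact d5 ⟨hz, n, hn, h0⟩
  · intro m hm h0
    exact d6 ⟨hz, ⟨m, hm⟩, h0⟩

/-- the compatibility of the derivation with the functions -/
theorem exists_cmp (h : Fm U Λ u l N S) (hε : ε = 1 ∨ ε = -1)
    (him : ∀ z ∈ U, 0 < (nt ε (Λ z)).im) {F : IntermediateField ℚ ℂ} (hb : be0 ∈ F) {z₀ : ℂ}
    (g : GenPt U Λ u l S ε F z₀) : ∃ D : Derivation ℚ ℂ ℂ, (∀ c ∈ F, D c = 0) ∧ D z₀ ≠ 0 ∧
      Cmp k0 (nt ε (Λ z₀)) (fun i => u i z₀ / (Λ z₀).ω₁) D ∧ (∀ k, Tf D (l k z₀) = 0) ∧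
      (∀ c : Fin s → ℚ, D (∑ k, c k • l k z₀) = 0 → c = 0) ∧
      ∀ k, D (S k z₀) = D (Λ z₀).ω₁ / (Λ z₀).ω₁ +
        Qt (nt ε (Λ z₀)) (∑ i, (N k i : ℂ) * (u i z₀ / (Λ z₀).ω₁)) +
        zeta (LC (nt ε (Λ z₀))) (∑ i, (N k i : ℂ) * (u i z₀ / (Λ z₀).ω₁)) *
          D (∑ i, (N k i : ℂ) * (u i z₀ / (Λ z₀).ω₁)) := by
  classical
  have hL := h.toLF
  have hz := g.mem
  have hi0 := him z₀ hz
  have hfa := fam_an h hε him
  obtain ⟨D₀, hF, hD₀⟩ := exists_D hL.isOpen hz hfa g.gn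
  set τ₀ := nt ε (Λ z₀) with hτ₀
  set τ' := deriv (fun z => nt ε (Λ z)) z₀ with hτ'
  have ht0 : τ' ≠ 0 := g.dt
  have hτ : HasDerivAt (fun z => nt ε (Λ z)) τ' z₀ :=
    (hL.an_nt ε hz).differentiableAt.hasDerivAt
  have hv : ∀ i, HasDerivAt (fun z => u i z / (Λ z).ω₁) (D₀ (u i z₀ / (Λ z₀).ω₁)) z₀ := by
    intro i
    have h1 := (hfa (.v i) z₀ hz).differentiableAt.hasDerivAt
    have h2 := hD₀ (.v i)
    rw [← h2] at h1
    exact h1
  set D : Derivation ℚ ℂ ℂ := (1 / τ') • D₀ with hD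
  have hDa : ∀ x, D x = D₀ x / τ' := by
    intro x
    rw [hD, Derivation.smul_apply, smul_eq_mul]
    ring
  have hDz : D₀ z₀ = 1 := by
    have h1 := hD₀ .z
    have h2 : deriv (fam ε Λ u l S .z) z₀ = 1 := (hasDerivAt_id z₀).deriv
    rw [h2] at h1
    exact h1
  have hDτ : D₀ τ₀ = τ' := hD₀ .tau
  obtain ⟨a1, a2, a3, a4, a5⟩ := H2.task_A4 τ₀ hi0
  have hbe : be τ₀ ∈ F := by rw [be_eq hi0]; exact hb
  have hk : ∀ {k : Nm r s q} {d : ℂ}, HasDerivAt (fam ε Λ u l S k) d z₀ →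
      D (fam ε Λ u l S k z₀) = d / τ' := by
    intro k d hd
    rw [hDa, hD₀ k, hd.deriv]
  refine ⟨D, fun c hc => by rw [hDa, hF c hc, zero_div], ?_, ⟨?_, ?_, ?_, ?_, ?_, ?_, ?_, ?_⟩,
    ?_, ?_, ?_⟩
  · rw [hDa, hDz]
    exact div_ne_zero one_ne_zero ht0
  · intro c hc
    have hk : k0 ≤ F.toSubfield := by
      rw [k0, Subfield.closure_le]
      rintro _ rfl
      exact hb
    rw [hDa, hF c (hk hc), zero_div]
  · rw [hDa, hDτ, div_self ht0]
  · have e1 : HasDerivAt (h1 ∘ fun z => nt ε (Λ z))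
        ((be τ₀ * h1 τ₀ ^ 2 - be τ₀ * (LC τ₀).g₂ / 12) * τ') z₀ := a1.comp z₀ hτ
    have e2 : HasDerivAt (fam ε Λ u l S .h)
        ((be τ₀ * h1 τ₀ ^ 2 - be τ₀ * (LC τ₀).g₂ / 12) * τ') z₀ := e1
    have e3 := hk e2
    rw [mul_div_cancel_right₀ _ ht0] at e3
    exact e3
  · have e1 : HasDerivAt ((fun s => (LC s).g₂) ∘ fun z => nt ε (Λ z))
        ((-4 * al τ₀ * (LC τ₀).g₂ - 6 * be τ₀ * (LC τ₀).g₃) * τ') z₀ := a2.comp z₀ hτ
    have e2 : HasDerivAt (fam ε Λ u l S .g2)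
        ((-4 * al τ₀ * (LC τ₀).g₂ - 6 * be τ₀ * (LC τ₀).g₃) * τ') z₀ := e1
    have e3 := hk e2
    rw [mul_div_cancel_right₀ _ ht0] at e3
    exact e3
  · have e1 : HasDerivAt ((fun s => (LC s).g₃) ∘ fun z => nt ε (Λ z))
        ((-6 * al τ₀ * (LC τ₀).g₃ - be τ₀ * (LC τ₀).g₂ ^ 2 / 3) * τ') z₀ := a3.comp z₀ hτ
    have e2 : HasDerivAt (fam ε Λ u l S .g3)
        ((-6 * al τ₀ * (LC τ₀).g₃ - be τ₀ * (LC τ₀).g₂ ^ 2 / 3) * τ') z₀ := e1
    have e3 := hk e2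
    rw [mul_div_cancel_right₀ _ ht0] at e3
    exact e3
  · rw [hDa, hF _ hbe, zero_div]
  · intro i
    have hnm := nm_notMem hε hi0 (h.un i z₀ hz)
    have h1 := (H2.task_A1 τ₀ (u i z₀ / (Λ z₀).ω₁) hi0 hnm).comp_hasDerivAt z₀ (hτ.prodMk (hv i))
    have h2 : HasDerivAt (fam ε Λ u l S (.ze i)) _ z₀ := h1
    rw [show zeta (LC τ₀) (u i z₀ / (Λ z₀).ω₁) = fam ε Λ u l S (.ze i) z₀ from rfl, hk h2, hDa]
    simp only [_root_.sub_apply, _root_.smul_apply,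
      ContinuousLinearMap.coe_fst', ContinuousLinearMap.coe_snd', smul_eq_mul]
    change _ = al τ₀ * (u i z₀ / (Λ z₀).ω₁ * ℘[LC τ₀] (u i z₀ / (Λ z₀).ω₁) -
      zeta (LC τ₀) (u i z₀ / (Λ z₀).ω₁)) + be τ₀ * (℘'[LC τ₀] (u i z₀ / (Λ z₀).ω₁) / 2 +
      zeta (LC τ₀) (u i z₀ / (Λ z₀).ω₁) * ℘[LC τ₀] (u i z₀ / (Λ z₀).ω₁) -
      (LC τ₀).g₂ / 12 * (u i z₀ / (Λ z₀).ω₁)) - ℘[LC τ₀] (u i z₀ / (Λ z₀).ω₁) *
      (D₀ (u i z₀ / (Λ z₀).ω₁) / τ')
    field_simp
  · intro i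
    have hnm := nm_notMem hε hi0 (h.un i z₀ hz)
    have h1 := (H2.task_A2 τ₀ (u i z₀ / (Λ z₀).ω₁) hi0 hnm).comp_hasDerivAt z₀ (hτ.prodMk (hv i))
    have h2 : HasDerivAt (fam ε Λ u l S (.wp i)) _ z₀ := h1
    rw [show ℘[LC τ₀] (u i z₀ / (Λ z₀).ω₁) = fam ε Λ u l S (.wp i) z₀ from rfl, hk h2, hDa]
    simp only [_root_.add_apply, _root_.smul_apply,
      ContinuousLinearMap.coe_fst', ContinuousLinearMap.coe_snd', smul_eq_mul]
    change _ = -2 * al τ₀ * ℘[LC τ₀] (u i z₀ / (Λ z₀).ω₁) + be τ₀ * ((LC τ₀).g₂ / 3 -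
      2 * ℘[LC τ₀] (u i z₀ / (Λ z₀).ω₁) ^ 2) - (al τ₀ * (u i z₀ / (Λ z₀).ω₁) +
      be τ₀ * zeta (LC τ₀) (u i z₀ / (Λ z₀).ω₁)) * ℘'[LC τ₀] (u i z₀ / (Λ z₀).ω₁) +
      ℘'[LC τ₀] (u i z₀ / (Λ z₀).ω₁) * (D₀ (u i z₀ / (Λ z₀).ω₁) / τ')
    field_simp
  · intro k
    have h1 : HasDerivAt (fam ε Λ u l S (.l k)) (deriv (l k) z₀) z₀ :=
      (h.la k z₀ hz).differentiableAt.hasDerivAt
    have h2 : HasDerivAt (fam ε Λ u l S (.e k)) (Complex.exp (l k z₀) * deriv (l k) z₀) z₀ :=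
      HasDerivAt.cexp h1
    unfold Tf lg
    rw [show Complex.exp (l k z₀) = fam ε Λ u l S (.e k) z₀ from rfl, hk h2,
      show l k z₀ = fam ε Λ u l S (.l k) z₀ from rfl, hk h1]
    have h3 : fam ε Λ u l S (.e k) z₀ ≠ 0 := Complex.exp_ne_zero _
    have h4 : Complex.exp (fam ε Λ u l S (.l k) z₀) = fam ε Λ u l S (.e k) z₀ := rfl
    rw [h4]
    field_simp
    ring
  · intro c hc
    by_contra hne
    obtain ⟨A, hA, m, hm⟩ := exists_den c
    have hm0 : m ≠ 0 := by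
      rintro rfl
      apply hne
      funext i
      have h1 := hm i
      simp only [Pi.zero_apply, Int.cast_zero] at h1
      have hA' : (A : ℚ) ≠ 0 := by exact_mod_cast hA.ne'
      exact (mul_eq_zero.1 h1.symm).resolve_left hA'
    apply g.li m hm0
    have h1 : HasDerivAt (fun z => ∑ k, (m k : ℂ) * l k z) (∑ k, (m k : ℂ) * D₀ (l k z₀)) z₀ := by
      refine HasDerivAt.fun_sum fun k _ => ?_
      have h2 : HasDerivAt (fam ε Λ u l S (.l k)) (D₀ (l k z₀)) z₀ := by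
        have h3 := (hfa (.l k) z₀ hz).differentiableAt.hasDerivAt
        rw [← hD₀ (.l k)] at h3
        exact h3
      exact h2.const_mul _
    rw [h1.deriv]
    rw [hDa, div_eq_zero_iff] at hc
    have h3 := hc.resolve_right ht0
    rw [map_sum] at h3
    have h4 : ∑ k, (m k : ℂ) * D₀ (l k z₀) = A * ∑ k, D₀ (c k • l k z₀) := by
      rw [Finset.mul_sum]
      refine Finset.sum_congr rfl fun k _ => ?_
      have h2 : (m k : ℂ) = A * c k := by exact_mod_cast congrArg (fun t : ℚ => (t : ℂ)) (hm k)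
      rw [h2, D₀.map_smul, Rat.smul_def]
      ring
    rw [h4, h3, mul_zero]
  · intro k
    set x : ℂ → ℂ := fun z => ∑ i, (N k i : ℂ) * (u i z / (Λ z).ω₁) with hx
    have hxe : ∀ z, ∑ i, (N k i : ℂ) * u i z = (Λ z).ω₁ * x z := by
      intro z
      rw [hx, Finset.mul_sum]
      refine Finset.sum_congr rfl fun i _ => ?_
      have := ω₁_ne_zero (Λ z)
      field_simp
    have hSe : ∀ z ∈ U, Complex.exp (S k z) = (Λ z).ω₁ * sigma (LC (nt ε (Λ z))) (x z) := by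
      intro z hz
      rw [h.Se k z hz, hxe z, Hm_sigma (Hm_nt (Λ z) hε (him z hz))]
    have hxn : x z₀ ∉ (LC τ₀).lattice := by
      intro hmem
      have h1 := hSe z₀ hz
      rw [sigma_coe_eq_zero _ hmem, mul_zero] at h1
      exact Complex.exp_ne_zero _ h1
    have hxd : HasDerivAt x (D₀ (x z₀)) z₀ := by
      have h1 : D₀ (x z₀) = ∑ i, (N k i : ℂ) * D₀ (u i z₀ / (Λ z₀).ω₁) := by
        rw [hx, map_sum]
        refine Finset.sum_congr rfl fun i _ => ?_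
        have hN : D₀ (N k i : ℂ) = 0 := D₀.map_intCast (N k i)
        rw [D_mul, hN]
        ring
      rw [h1]
      exact HasDerivAt.fun_sum fun i _ => (hv i).const_mul _
    have hw : HasDerivAt (fun z => (Λ z).ω₁) (D₀ (Λ z₀).ω₁) z₀ := by
      have h3 := (hfa .w z₀ hz).differentiableAt.hasDerivAt
      rw [← hD₀ .w] at h3
      exact h3
    have hs := (fderiv_sigma hi0 hxn).comp_hasDerivAt z₀ (hτ.prodMk hxd)
    have hprod := hw.mul hs
    have hSd : HasDerivAt (S k) (D₀ (S k z₀)) z₀ := by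
      have h3 := (hfa (.S k) z₀ hz).differentiableAt.hasDerivAt
      rw [← hD₀ (.S k)] at h3
      exact h3
    have hexp := hSd.cexp
    have hev : (fun z => Complex.exp (S k z)) =ᶠ[𝓝 z₀]
        fun z => (Λ z).ω₁ * sigma (LC (nt ε (Λ z))) (x z) := by
      filter_upwards [hL.isOpen.mem_nhds hz] with z hz'
      exact hSe z hz'
    have huniq := (hexp.congr_of_eventuallyEq hev.symm).unique hprod
    simp only [_root_.add_apply, _root_.smul_apply, ContinuousLinearMap.coe_fst',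
      ContinuousLinearMap.coe_snd', smul_eq_mul, Function.comp] at huniq
    rw [hSe z₀ hz] at huniq
    have hσ : sigma (LC τ₀) (x z₀) ≠ 0 := sigma_ne_zero _ hxn
    have hω := ω₁_ne_zero (Λ z₀)
    change D (S k z₀) = D (Λ z₀).ω₁ / (Λ z₀).ω₁ + Qt τ₀ (x z₀) + zeta (LC τ₀) (x z₀) * D (x z₀)
    rw [hDa, hDa, hDa]
    field_simp
    apply mul_left_cancel₀ hσ
    linear_combination huniq

end

end Pool.Agent.Y776.Fam
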