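import Mathlib
import Pool.Agent.Y776.Fam.PtB

/-!
# Families of lattices with points: independence at a generic point
-/

set_option autoImplicit false

open Filter Topology Set
open scoped PeriodPair

noncomputable section

namespace Pool.Agent.Y776.Fam

open H667R3 Pool.Agent.W245.EB Pool.Agent.TH813.Ell Pool.Agent.Y685 Pool.Agent.Y685.H2
open Pool.Agent.TH813.Rel (DF MK subset_cl rk_le_of_subset_cl mem_cl)

variable {U : Set ℂ} {Λ : ℂ → PeriodPair} {r s q : ℕ}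

/-- names of the values -/
abbrev Yi (r s q : ℕ) : Type := Fin 3 ⊕ (Fin r ⊕ (Fin r ⊕ (Fin s ⊕ Fin q)))

/-- the values -/
def yfam (Λ : ℂ → PeriodPair) (u : Fin r → ℂ → ℂ) (l : Fin s → ℂ → ℂ) (S : Fin q → ℂ → ℂ) :
    Yi r s q → ℂ → ℂ :=
  Sum.elim (fun j z => ![(Λ z).ω₁, (Λ z).ω₂, eta (Λ z) (Λ z).ω₁] j) (Sum.elim u
    (Sum.elim (fun i z => zeta (Λ z) (u i z)) (Sum.elim l S)))

/-- the values and the parameter -/
def yO (Λ : ℂ → PeriodPair) (u : Fin r → ℂ → ℂ) (l : Fin s → ℂ → ℂ) (S : Fin q → ℂ → ℂ) (z : ℂ)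
    (o : Option (Yi r s q)) : ℂ := o.elim z (fun i => yfam Λ u l S i z)

theorem sq_clo {C : IntermediateField ℚ ℂ} {T : Set ℂ} {x : ℂ} (hx0 : x ≠ 0)
    (h : x ^ 2 ∈ clo C T) : x ∈ clo C T := by
  intro δ hC hT
  have h1 := h δ hC hT
  rw [D_pow] at h1
  norm_num at h1
  rcases h1 with h1 | h1
  · exact absurd h1 hx0
  · exact h1

/-- linear independence of squares over the complex numbers -/
theorem Ni_complex {N : Fin q → Fin r → ℤ}
    (hN : ∀ c : Fin q → ℤ, (∀ i j, ∑ k, c k * (N k i * N k j) = 0) → c = 0)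
    (c : Fin q → ℂ) (hc : ∀ i j, ∑ k, c k * ((((N k i : ℤ) : ℚ) : ℂ) * (((N k j : ℤ) : ℚ) : ℂ)) = 0) :
    c = 0 := by
  funext k₀
  by_contra hne
  obtain ⟨ψ, hψ⟩ := exists_psi (x := c k₀) hne
  have h1 : ∀ i j, ∑ k, ψ (c k) * ((N k i : ℚ) * N k j) = 0 := by
    intro i j
    have h2 := congrArg ψ (hc i j)
    rw [map_sum, map_zero] at h2
    rw [← h2]
    refine Finset.sum_congr rfl fun k _ => ?_
    have h3 : c k * ((((N k i : ℤ) : ℚ) : ℂ) * (((N k j : ℤ) : ℚ) : ℂ)) =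
        ((N k i : ℚ) * N k j) • c k := by
      rw [Rat.smul_def]
      push_cast
      ring
    rw [h3, map_smul, smul_eq_mul, mul_comm]
  obtain ⟨A, hA, m, hm⟩ := exists_den (fun k => ψ (c k))
  have h2 := hN m (fun i j => by
    have h3 : (((∑ k, m k * (N k i * N k j) : ℤ)) : ℚ) = A * ∑ k, ψ (c k) * ((N k i : ℚ) * N k j) := by
      push_cast
      rw [Finset.mul_sum]
      refine Finset.sum_congr rfl fun k _ => ?_
      rw [hm k]
      ring
    rw [h1, mul_zero] at h3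
    exact_mod_cast h3)
  have h3 := hm k₀
  rw [h2] at h3
  simp only [Pi.zero_apply, Int.cast_zero] at h3
  have hA' : (A : ℚ) ≠ 0 := by exact_mod_cast hA.ne'
  exact hψ ((mul_eq_zero.1 h3.symm).resolve_left hA')

section

variable {u : Fin r → ℂ → ℂ} {l : Fin s → ℂ → ℂ} {N : Fin q → Fin r → ℤ} {S : Fin q → ℂ → ℂ}
  {ε : ℂ}

/-- **independence at a generic point** -/
theorem pt_indep (h : Fm U Λ u l N S) (hε : ε = 1 ∨ ε = -1)
    (him : ∀ z ∈ U, 0 < (nt ε (Λ z)).im) {F : IntermediateField ℚ ℂ} (hb : be0 ∈ F)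
    (a2 : AlgOver F U (fun z => (Λ z).g₂)) (a3 : AlgOver F U (fun z => (Λ z).g₃))
    (aw : ∀ i, AlgOver F U (fun z => ℘[Λ z] (u i z)))
    (ae : ∀ k, AlgOver F U (fun z => Complex.exp (l k z))) {z₀ : ℂ}
    (g : GenPt U Λ u l S ε F z₀) : AlgebraicIndependent F (yO Λ u l S z₀) := by
  classical
  obtain ⟨D, hDF, hDz, hcmp, hTf, hli, hDS⟩ := exists_cmp h hε him hb g
  have hz := g.mem
  have hi0 := him z₀ hz
  have hHm := Hm_nt (Λ z₀) hε hi0
  have hω := ω₁_ne_zero (Λ z₀)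
  set τ₀ := nt ε (Λ z₀) with hτ₀
  set v₀ : Fin r → ℂ := fun i => u i z₀ / (Λ z₀).ω₁ with hv₀
  -- independence modulo periods
  have hind : ∀ n : Fin r → ℤ, n ≠ 0 → ∑ i, (n i : ℂ) * v₀ i ∉ (LC τ₀).lattice := by
    intro n hn
    have h1 := nm_notMem hε hi0 (g.pi n hn)
    have h2 : ∑ i, (n i : ℂ) * v₀ i = (∑ i, (n i : ℂ) * u i z₀) / (Λ z₀).ω₁ := by
      rw [Finset.sum_div]
      exact Finset.sum_congr rfl fun i _ => by rw [hv₀]; ring
    rw [h2]
    exact h1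
  have hz2 : ∀ i, 2 * v₀ i ∉ (LC τ₀).lattice := by
    intro i
    have h1 := hind (Pi.single i 2) (by
      intro h0
      have := congrFun h0 i
      rw [Pi.single_eq_same] at this
      exact two_ne_zero this)
    rw [Finset.sum_eq_single i] at h1
    · rw [Pi.single_eq_same] at h1
      exact_mod_cast h1
    · intro j _ hj
      rw [Pi.single_eq_of_ne hj]
      simp
    · intro h; exact absurd (Finset.mem_univ i) h
  have hzq : ∀ c : Fin r → ℚ, ∀ a b : ℚ, ∑ i, (c i : ℂ) * v₀ i = a + b * τ₀ → c = 0 := by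
    intro c a b hc
    by_contra hne
    obtain ⟨A, hA, m, hm⟩ := exists_den (n := r + 2) (Fin.append c ![a, b])
    have hA' : (A : ℚ) ≠ 0 := by exact_mod_cast hA.ne'
    have m1 : ∀ i : Fin r, (m (Fin.castAdd 2 i) : ℚ) = A * c i := fun i => by
      rw [hm, Fin.append_left]
    have m2 : (m (Fin.natAdd r 0) : ℚ) = A * a := by
      rw [hm, Fin.append_right]; rfl
    have m3 : (m (Fin.natAdd r 1) : ℚ) = A * b := by
      rw [hm, Fin.append_right]; rfl
    apply hind (fun i => m (Fin.castAdd 2 i))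
    · intro h0
      apply hne
      funext i
      have h1 := m1 i
      rw [show m (Fin.castAdd 2 i) = 0 from congrFun h0 i, Int.cast_zero] at h1
      exact (mul_eq_zero.1 h1.symm).resolve_left hA'
    · rw [mem_LC hi0]
      refine ⟨m (Fin.natAdd r 0), m (Fin.natAdd r 1), ?_⟩
      have e1 : (m (Fin.natAdd r 0) : ℂ) = A * a := by exact_mod_cast congrArg (fun t : ℚ => (t : ℂ)) m2
      have e2 : (m (Fin.natAdd r 1) : ℂ) = A * b := by exact_mod_cast congrArg (fun t : ℚ => (t : ℂ)) m3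
      have e3 : ∑ i, (m (Fin.castAdd 2 i) : ℂ) * v₀ i = A * ∑ i, (c i : ℂ) * v₀ i := by
        rw [Finset.mul_sum]
        refine Finset.sum_congr rfl fun i _ => ?_
        have h2 : (m (Fin.castAdd 2 i) : ℂ) = A * c i := by
          exact_mod_cast congrArg (fun t : ℚ => (t : ℂ)) (m1 i)
        rw [h2]
        ring
      rw [e1, e2, e3, hc]
      ring
  -- the normalized data
  have hai := T0_spec.2 τ₀ hi0 g.T0
  have hbk : be τ₀ ∈ k0 := by
    rw [be_eq hi0]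
    exact Subfield.subset_closure rfl
  have hg20 : (LC τ₀).g₂ ≠ 0 := hai.ne_zero 2
  obtain ⟨l₀, hl⟩ := IsAlgClosed.exists_pow_nat_eq ((LC τ₀).g₃ / (LC τ₀).g₂) (n := 2) two_pos
  have hl' : l₀ ^ 2 * (LC τ₀).g₂ = (LC τ₀).g₃ := by
    rw [hl]
    field_simp
  have hG : Gp k0 τ₀ l₀ v₀ D := ⟨hi0, hbk, hai, hcmp, hl'⟩
  have hrank := rank_gp noBad (F := Cst D) hG (fun x hx => hx) hTf hli hz2 hzq
  rw [← hG.Cst_Dh] at hrank
  have hl0 := hG.l0
  set L' := hG.Lh with hL'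
  set D' := hG.Dh with hD'
  have hbl : be τ₀ * l₀ ^ 2 ≠ 0 := mul_ne_zero hG.b0 (pow_ne_zero 2 hl0)
  have hFC : F ≤ Cst D' := by
    intro x hx
    rw [hG.Cst_Dh]
    exact hDF x hx
  -- algebraic numbers
  set ν : ℂ := l₀ / (Λ z₀).ω₁ with hν
  have hν0 : ν ≠ 0 := div_ne_zero hl0 hω
  have mA2 : (Λ z₀).g₂ ∈ clo (Cst D') {z₀} := a2.mem hFC hz g.tr
  have mA3 : (Λ z₀).g₃ ∈ clo (Cst D') {z₀} := a3.mem hFC hz g.tr
  have hΛ2 : (Λ z₀).g₂ = (LC τ₀).g₂ / (Λ z₀).ω₁ ^ 4 := hHm.g₂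
  have hΛ3 : (Λ z₀).g₃ = (LC τ₀).g₃ / (Λ z₀).ω₁ ^ 6 := hHm.g₃
  have hΛ20 : (Λ z₀).g₂ ≠ 0 := by
    rw [hΛ2]
    exact div_ne_zero hg20 (pow_ne_zero 4 hω)
  have mν : ν ∈ clo (Cst D') {z₀} := by
    apply sq_clo hν0
    have h1 : ν ^ 2 = (Λ z₀).g₃ / (Λ z₀).g₂ := by
      rw [hΛ2, hΛ3, hν, ← hl']
      field_simp
    rw [h1]
    exact div_mem mA3 mA2
  have hg2h : L'.g₂ = (Λ z₀).g₂ / ν ^ 4 := by
    rw [hG.gh, hΛ2, hν]
    field_simp
  have mg : L'.g₂ ∈ clo (Cst D') {z₀} := by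
    rw [hg2h]
    exact div_mem mA2 (pow_mem mν 4)
  have hz0K : z₀ ∈ K0 L' D' := by
    intro δ hC hS
    have hS' : δ L'.g₂ = 0 := hS _ rfl
    have hDz' : D' z₀ ≠ 0 := by
      rw [hD', hG.Dh_apply]
      exact div_ne_zero hDz hbl
    have h1 := mg (δ - (δ z₀ / D' z₀) • D')
      ((DF _).sub_mem hC ((DF _).smul_mem _ D_DF)) (fun x hx => by
        rw [Set.mem_singleton_iff] at hx
        rw [hx, Derivation.sub_apply, Derivation.smul_apply, smul_eq_mul]
        field_simp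
        ring)
    rw [Derivation.sub_apply, Derivation.smul_apply, smul_eq_mul, hS', zero_sub, neg_eq_zero] at h1
    have h2 := (mul_eq_zero.1 h1).resolve_right (Dg_ne hG.nrm)
    exact (div_eq_zero_iff.1 h2).resolve_right hDz'
  have hAK : clo (Cst D') {z₀} ≤ K0 L' D' := clo_le (fun s hs => by
    rw [Set.mem_singleton_iff] at hs
    rw [hs]
    exact hz0K)
  -- the data
  set p : Fin r → ℂ := fun i => l₀ * v₀ i with hp
  set t : Fin s → ℂ := fun k => l k z₀ with ht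
  have hpu : ∀ i, p i = ν * u i z₀ := fun i => by
    rw [hp, hν, hv₀]
    ring
  have hTf' : ∀ k, Tf D' (t k) = 0 := fun k => by
    have e1 : D' = (1 / (be τ₀ * l₀ ^ 2)) • D := rfl
    rw [e1, Tf_smul_der, hTf, mul_zero]
  have hpK : ∀ i, ℘[L'] (p i) ∈ K0 L' D' := by
    intro i
    have e1 : ℘[L'] (p i) = ℘[LC τ₀] (v₀ i) / l₀ ^ 2 := hG.hm.wp _
    have e2 : ℘[Λ z₀] (u i z₀) = ℘[LC τ₀] (v₀ i) / (Λ z₀).ω₁ ^ 2 := by
      have := hHm.wp (v₀ i)
      rw [hv₀, mul_div_cancel₀ _ hω] at this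
      exact this
    have e3 : ℘[L'] (p i) = ℘[Λ z₀] (u i z₀) / ν ^ 2 := by
      rw [e1, e2, hν]
      field_simp
    rw [e3]
    exact hAK (div_mem ((aw i).mem hFC hz g.tr) (pow_mem mν 2))
  have htK : ∀ k, Complex.exp (t k) ∈ K0 L' D' := fun k => hAK ((ae k).mem hFC hz g.tr)
  have hDt : ∀ k, D' (t k) ∈ K0 L' D' := by
    intro k
    have e1 := D_exp (hTf' k)
    have e2 := Complex.exp_ne_zero (t k)
    have e3 : D' (t k) = D' (Complex.exp (t k)) / Complex.exp (t k) := by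
      rw [e1]
      field_simp
    rw [e3]
    exact div_mem (D_K0 hG.nrm (htK k)) (htK k)
  have hxai : AlgebraicIndependent (Cst D') (xx L' t p) := by
    apply indep_of_rank
    have hcard : Fintype.card (Fin 4 ⊕ (Fin s ⊕ (Fin r ⊕ Fin r))) = 4 + (s + 2 * r) := by
      simp only [Fintype.card_sum, Fintype.card_fin]
      ring
    rw [hcard]
    refine hrank.trans (rk_le_of_subset_cl ?_)
    intro x hx
    rw [← mem_clo_iff]
    change x ∈ KX L' D' t p
    have hK1 := K1_le_KX hG.nrm t p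
    have hK0 : K0 L' D' ≤ KX L' D' t p := K0_le.trans hK1
    have b1 : l₀ ∈ K1 L' D' := by
      have := ω₁_K1 (L := L') (D := D')
      rwa [hG.o1] at this
    have b2 : τ₀ ∈ K1 L' D' := by
      have h2 := ω₂_K1 (L := L') (D := D')
      rw [hG.o2] at h2
      have h3 : (l₀ * τ₀) / l₀ = τ₀ := by field_simp
      have h4 := div_mem h2 b1
      rwa [h3] at h4
    have b3 : (LC τ₀).g₂ ∈ K1 L' D' := by
      have h2 := g_K1 (L := L') (D := D')
      have h3 : L'.g₂ * l₀ ^ 4 = (LC τ₀).g₂ := by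
        rw [hG.gh]
        field_simp
      have h4 := mul_mem h2 (pow_mem b1 4)
      rwa [h3] at h4
    rcases hx with ⟨i, rfl⟩ | (⟨i, rfl⟩ | ⟨i, rfl⟩) | (⟨i, rfl⟩ | ⟨i, rfl⟩ | ⟨i, rfl⟩)
    · apply hK1
      fin_cases i
      · exact b2
      · have h2 := η₁_K1 (L := L') (D := D')
        rw [hG.n1] at h2
        have h3 : h1 τ₀ / l₀ * l₀ = h1 τ₀ := by field_simp
        have h4 := mul_mem h2 b1
        rwa [h3] at h4
      · exact b3
      · change (LC τ₀).g₃ ∈ _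
        rw [← hG.hl]
        exact mul_mem (pow_mem b1 2) b3
    · exact xx_mem (L := L') (t := t) (p := p) (Sum.inr (Sum.inl i))
    · exact hK0 (htK i)
    · exact xx_mem (L := L') (t := t) (p := p) (Sum.inr (Sum.inr (Sum.inl i)))
    · exact xx_mem (L := L') (t := t) (p := p) (Sum.inr (Sum.inr (Sum.inr i)))
    · exact hK0 (hpK i)
  have hdat : Dat hG.nrm t p := ⟨fun i => hG.mem_Cm' (hz2 i), hpK, hDt, hxai⟩
  -- combinations
  have hcomb : ∀ n : Fin r → ℤ, ∑ i, ((n i : ℤ) : ℚ) • p i = l₀ * ∑ i, (n i : ℂ) * v₀ i := by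
    intro n
    rw [Finset.mul_sum]
    refine Finset.sum_congr rfl fun i _ => ?_
    rw [Rat.smul_def, hp]
    push_cast
    ring
  have hN0 : ∀ k, N k ≠ 0 := by
    intro k h0
    have h1 := h.Ni (Pi.single k 1) (fun i j => by
      rw [Finset.sum_eq_single k]
      · rw [h0]
        simp
      · intro j _ hj
        rw [Pi.single_eq_of_ne hj, zero_mul]
      · intro h; exact absurd (Finset.mem_univ k) h)
    have h2 := congrFun h1 k
    rw [Pi.single_eq_same] at h2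
    exact one_ne_zero h2
  have hN2 : ∀ k, 2 * ∑ i, ((N k i : ℤ) : ℚ) • p i ∉ L'.lattice := by
    intro k
    have e1 : 2 * ∑ i, ((N k i : ℤ) : ℚ) • p i = l₀ * ∑ i, (((fun i => 2 * N k i) i : ℤ) : ℂ) * v₀ i := by
      rw [hcomb, Finset.mul_sum, Finset.mul_sum, Finset.mul_sum]
      refine Finset.sum_congr rfl fun i _ => ?_
      push_cast
      ring
    rw [e1, hG.hm.notMem]
    apply hind
    intro h0
    apply hN0 k
    funext i
    have := congrFun h0 i
    simp only [Pi.zero_apply, mul_eq_zero] at this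
    exact this.resolve_left two_ne_zero
  have hp2 : ∀ j, 2 * p j ∉ L'.lattice := by
    intro j
    have e1 : 2 * p j = l₀ * (2 * v₀ j) := by
      rw [hp]
      ring
    rw [e1, hG.hm.notMem]
    exact hz2 j
  -- the logarithms of sigma
  have hLS : ∀ k, IsLS L' D' (∑ i, ((N k i : ℤ) : ℚ) • p i) (S k z₀) := by
    intro k
    obtain ⟨w1, -, -, -⟩ := wp_comb hG.nrm hpK (fun i => ((N k i : ℤ) : ℚ)) (hN2 k)
    have hXC : ∑ i, ((N k i : ℤ) : ℚ) • p i ∈ Cm hG.nrm :=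
      Submodule.sum_mem _ fun j _ => Submodule.smul_mem _ _ (hdat.hp j)
    have hX2 := hN2 k
    have hS1 := hDS k
    rw [hcomb] at w1 hXC hX2 ⊢
    set x₀ := ∑ i, (N k i : ℂ) * v₀ i with hx₀
    have hxn : x₀ ∉ (LC τ₀).lattice := by
      rw [← hG.hm.notMem]
      exact two_mul_notMem_of _ hX2
    have ezt : zt L' (l₀ * x₀) = zeta (LC τ₀) x₀ / l₀ := by
      rw [hG.hm.zt, zt_of_notMem hxn]
    have ewp : ℘[L'] (l₀ * x₀) = ℘[LC τ₀] x₀ / l₀ ^ 2 := hG.hm.wp _
    have hDl := hG.Dl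
    have hvv : vv L' D' (aa L') 1 (l₀ * x₀) = D' (l₀ * x₀) - aa L' * (l₀ * x₀) -
        zt L' (l₀ * x₀) := by
      rw [D_z hXC]
      ring
    have hDlx : D' (l₀ * x₀) = (l₀ * D x₀ + x₀ * D l₀) / (be τ₀ * l₀ ^ 2) := by
      rw [hD', hG.Dh_apply, D_mul]
    have hDS' : D' (S k z₀) = (D (Λ z₀).ω₁ / (Λ z₀).ω₁ + Qt τ₀ x₀ +
        zeta (LC τ₀) x₀ * D x₀) / (be τ₀ * l₀ ^ 2) := by
      rw [hD', hG.Dh_apply, hS1]
    have hDν : D (Λ z₀).ω₁ / (Λ z₀).ω₁ = D l₀ / l₀ - D ν / ν := by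
      have e1 : l₀ = ν * (Λ z₀).ω₁ := by
        rw [hν]
        field_simp
      have e2 : D l₀ = ν * D (Λ z₀).ω₁ + (Λ z₀).ω₁ * D ν := by
        conv_lhs => rw [e1, D_mul]
      rw [e2]
      have e3 : l₀ ≠ 0 := hl0
      rw [e1]
      field_simp
      ring
    have hfin : D' (S k z₀) - (vv L' D' (aa L') 1 (l₀ * x₀) * zt L' (l₀ * x₀) +
        zt L' (l₀ * x₀) ^ 2 / 2 - L'.g₂ / 24 * (l₀ * x₀) ^ 2) =
        aa L' + ℘[L'] (l₀ * x₀) / 2 - D' ν / ν := by
      rw [hvv, hDS', hDν, hDlx, ezt, ewp, hDl, hD', hG.Dh_apply, aa, hG.gh, Qt]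
      have hb0 := hG.b0
      field_simp
      ring
    unfold IsLS
    rw [hfin]
    have haa : aa L' ∈ K0 L' D' := sub_mem (ofNat_mem _ 3) (div_mem g_K0 (ofNat_mem _ 6))
    exact sub_mem (add_mem haa (div_mem w1 (ofNat_mem _ 2)))
      (div_mem (D_K0 hG.nrm (hAK mν)) (hAK mν))
  have hfinal := rank_third hdat hp2 hN2 (Ni_complex h.Ni) hLS
  -- transfer
  have key : AlgebraicIndependent (Cst D') (yO Λ u l S z₀) := by
    apply indep_of_rank
    have hcard : Fintype.card (Option (Yi r s q)) = 4 + (s + 2 * r) + q := by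
      simp only [Fintype.card_option, Fintype.card_sum, Fintype.card_fin]
      ring
    rw [hcard]
    refine hfinal.trans (rk_le_of_subset_cl ?_)
    intro x hx
    rw [← mem_clo_iff]
    have mO : ∀ o, yO Λ u l S z₀ o ∈ clo (Cst D') (Set.range (yO Λ u l S z₀)) := fun o =>
      subset_clo ⟨o, rfl⟩
    have hAY : clo (Cst D') {z₀} ≤ clo (Cst D') (Set.range (yO Λ u l S z₀)) :=
      clo_le (fun s hs => by
        rw [Set.mem_singleton_iff] at hs
        rw [hs]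
        exact mO none)
    have y1 : (Λ z₀).ω₁ ∈ clo (Cst D') (Set.range (yO Λ u l S z₀)) := mO (some (Sum.inl 0))
    have y2 : (Λ z₀).ω₂ ∈ clo (Cst D') (Set.range (yO Λ u l S z₀)) := mO (some (Sum.inl 1))
    have y3 : eta (Λ z₀) (Λ z₀).ω₁ ∈ clo (Cst D') (Set.range (yO Λ u l S z₀)) :=
      mO (some (Sum.inl 2))
    have y4 : ∀ i, u i z₀ ∈ clo (Cst D') (Set.range (yO Λ u l S z₀)) := fun i =>
      mO (some (Sum.inr (Sum.inl i)))
    have y5 : ∀ i, zeta (Λ z₀) (u i z₀) ∈ clo (Cst D') (Set.range (yO Λ u l S z₀)) := fun i =>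
      mO (some (Sum.inr (Sum.inr (Sum.inl i))))
    have y6 : ∀ k, l k z₀ ∈ clo (Cst D') (Set.range (yO Λ u l S z₀)) := fun k =>
      mO (some (Sum.inr (Sum.inr (Sum.inr (Sum.inl k)))))
    have y7 : ∀ k, S k z₀ ∈ clo (Cst D') (Set.range (yO Λ u l S z₀)) := fun k =>
      mO (some (Sum.inr (Sum.inr (Sum.inr (Sum.inr k)))))
    have yν := hAY mν
    have yε : ε ∈ clo (Cst D') (Set.range (yO Λ u l S z₀)) := by
      rcases hε with rfl | rfl
      · exact one_mem _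
      · exact neg_mem (one_mem _)
    rcases hx with ⟨a, rfl⟩ | ⟨k, rfl⟩
    · rcases a with a | k | i | i
      · fin_cases a
        · exact hAY mg
        · change L'.ω₁ ∈ _
          have e1 : L'.ω₁ = ν * (Λ z₀).ω₁ := by
            rw [hG.o1, hν]
            field_simp
          rw [e1]
          exact mul_mem yν y1
        · change L'.ω₂ ∈ _
          have e1 : L'.ω₂ = ν * (ε * (Λ z₀).ω₂) := by
            rw [hG.o2, hν, hτ₀, nt]
            field_simp
          rw [e1]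
          exact mul_mem yν (mul_mem yε y2)
        · change eta L' L'.ω₁ ∈ _
          have e1 : eta L' L'.ω₁ = eta (Λ z₀) (Λ z₀).ω₁ / ν := by
            have e2 := hHm.eta (one_mem hi0)
            rw [mul_one] at e2
            rw [hG.n1, e2, hν]
            change h1 τ₀ / l₀ = h1 τ₀ / (Λ z₀).ω₁ / (l₀ / (Λ z₀).ω₁)
            field_simp
          rw [e1]
          exact div_mem y3 yν
      · exact y6 k
      · change p i ∈ _
        rw [hpu]
        exact mul_mem yν (y4 i)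
      · change zt L' (p i) ∈ _
        have hnm : v₀ i ∉ (LC τ₀).lattice := two_mul_notMem_of _ (hz2 i)
        have e1 : zt L' (p i) = zeta (Λ z₀) (u i z₀) / ν := by
          have e2 : zt L' (p i) = zeta (LC τ₀) (v₀ i) / l₀ := by
            rw [hp, hG.hm.zt, zt_of_notMem hnm]
          have e3 := hHm.zeta (v₀ i)
          rw [hv₀, mul_div_cancel₀ _ hω] at e3
          rw [e2, e3, hν]
          field_simp
          rfl
        rw [e1]
        exact div_mem (y5 i) yν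
    · exact y7 k
  let _ : Algebra F (Cst D') := (IntermediateField.inclusion hFC).toRingHom.toAlgebra
  have : IsScalarTower F (Cst D') ℂ := IsScalarTower.of_algebraMap_eq (fun _ => rfl)
  exact key.restrictScalars (K := Cst D') (algebraMap F (Cst D')).injective

end

end Pool.Agent.Y776.Fam
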