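import Mathlib
import Pool.Agent.Y776.Fam.PtC
import Pool.Agent.Y124.NFPoly

/-!
# Families of lattices with points: independence of the functions, and their values
-/

set_option autoImplicit false

open Filter Topology Set
open scoped PeriodPair

noncomputable section

namespace Pool.Agent.Y776.Fam

open H667R3 Pool.Agent.W245.EB Pool.Agent.TH813.Ell Pool.Agent.Y685 Pool.Agent.Y685.H2
open Pool.Agent.Y124 (LocInd OneV oneV_of ExcNF excNF)

variable {U : Set ℂ} {Λ : ℂ → PeriodPair} {r s q : ℕ}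

theorem exists_cf {T : Set ℂ} (hT : T.Countable) :
    ∃ F : IntermediateField ℚ ℂ, (F : Set ℂ).Countable ∧ T ⊆ F := by
  let F : IntermediateField ℚ ℂ := (Subfield.closure T).toIntermediateField (fun q => by
    rw [eq_ratCast]
    exact SubfieldClass.ratCast_mem _ q)
  exact ⟨F, countable_closure hT, fun x hx => Subfield.subset_closure hx⟩

/-- open sets are not countable -/
theorem exists_notMem {B : Set ℂ} (hU : IsOpen U) (hne : U.Nonempty) (hB : B.Countable) :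
    ∃ z ∈ U, z ∉ B := by
  have h1 : Dense (Bᶜ) := hB.dense_compl ℂ
  obtain ⟨z, hz, hz'⟩ := h1.inter_open_nonempty U hU hne
  exact ⟨z, hz, hz'⟩

section

variable {u : Fin r → ℂ → ℂ} {l : Fin s → ℂ → ℂ} {N : Fin q → Fin r → ℤ} {S : Fin q → ℂ → ℂ}

theorem yfam_an (h : Fm U Λ u l N S) (i : Yi r s q) : AnalyticOnNhd ℂ (yfam Λ u l S i) U := by
  have hL := h.toLF
  rcases i with j | i | i | k | k
  · fin_cases j
    · exact hL.an₁
    · exact hL.an₂
    · exact hL.an_eta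
  · exact h.ua i
  · exact hL.an_zeta (h.ua i) (h.un i)
  · exact h.la k
  · exact h.Sa k

/-- **independence of the functions** -/
theorem fam_locInd (h : Fm U Λ u l N S) {t : ℂ} (ht : t ∈ U) : LocInd (yfam Λ u l S) t := by
  classical
  have hL := h.toLF
  obtain ⟨ε, hε, him⟩ := hL.exists_eps
  obtain ⟨P2, hP20, hP2⟩ := h.ag2
  obtain ⟨P3, hP30, hP3⟩ := h.ag3
  choose Pw hPw0 hPw using h.uw
  choose Pe hPe0 hPe using h.le
  obtain ⟨F, hFc, hSF⟩ := exists_cf (T := {be0} ∪ ((P2.coeffs : Set ℂ) ∪ ((P3.coeffs : Set ℂ) ∪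
    ((⋃ i, ((Pw i).coeffs : Set ℂ)) ∪ ((⋃ k, ((Pe k).coeffs : Set ℂ)) ∪ TS (yfam Λ u l S) t)))))
    ((Set.countable_singleton _).union ((Finset.countable_toSet _).union
      ((Finset.countable_toSet _).union ((Set.countable_iUnion fun i => Finset.countable_toSet _).union
        ((Set.countable_iUnion fun i => Finset.countable_toSet _).union (TS_countable _ _))))))
  have hb : be0 ∈ F := hSF (Or.inl rfl)
  have a2 : AlgOver F U (fun z => (Λ z).g₂) := ⟨P2, hP20, fun c hc => hSF (Or.inr (Or.inl hc)), hP2⟩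
  have a3 : AlgOver F U (fun z => (Λ z).g₃) :=
    ⟨P3, hP30, fun c hc => hSF (Or.inr (Or.inr (Or.inl hc))), hP3⟩
  have aw : ∀ i, AlgOver F U (fun z => ℘[Λ z] (u i z)) := fun i =>
    ⟨Pw i, hPw0 i, fun c hc => hSF (Or.inr (Or.inr (Or.inr (Or.inl (mem_iUnion.2 ⟨i, hc⟩))))), hPw i⟩
  have ae : ∀ k, AlgOver F U (fun z => Complex.exp (l k z)) := fun k =>
    ⟨Pe k, hPe0 k, fun c hc => hSF (Or.inr (Or.inr (Or.inr (Or.inr (Or.inl
      (mem_iUnion.2 ⟨k, hc⟩)))))), hPe k⟩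
  have hTS : TS (yfam Λ u l S) t ⊆ F := fun x hx =>
    hSF (Or.inr (Or.inr (Or.inr (Or.inr (Or.inr hx)))))
  obtain ⟨z₀, hz₀, hg⟩ := exists_notMem hL.isOpen ⟨t, ht⟩ (countable_GenPt h hε him hFc ⟨t, ht⟩)
  have hg' : GenPt U Λ u l S ε F z₀ := by
    by_contra hcon
    exact hg ⟨hz₀, hcon⟩
  exact locInd_of hL.conn hL.isOpen (yfam_an h) ht hTS hz₀
    (pt_indep h hε him hb a2 a3 aw ae hg') ht

/-- **the values at points of number fields** -/
theorem fam_NF {η : Type} [Fintype η] (m n d : ℕ) (h : Fm U Λ u l N S) {K : Set ℂ}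
    (hK : IsCompact K) (hKU : K ⊆ U) (A ε : ℝ) (hε : 0 < ε) :
    ∃ B C T₀ : ℝ, 0 ≤ C ∧ 2 ≤ T₀ ∧ ∀ (F : Type) [Field F] [NumberField F],
      Module.finrank ℚ F ≤ m → ∀ (io : F →+* ℂ) (ξ : η → ℂ) (T : ℝ), T₀ ≤ T →
      (ExcNF n d F io ξ (fun t i => yfam Λ u l S i t) K A B T).Finite ∧
      ((ExcNF n d F io ξ (fun t i => yfam Λ u l S i t) K A B T).ncard : ℝ) ≤
        C * T ^ ε * (({x : F | Y120.HtLe F T x ∧ io x ∈ K}.ncard : ℝ)) ^ (n - 1) := by
  classical
  exact excNF m n d _ K (fun g => oneV_of g (yfam Λ u l S) K hK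
    (fun i t ht => yfam_an h i t (hKU ht)) fun t ht => fam_locInd h (hKU ht)) A ε hε

end

end Pool.Agent.Y776.Fam
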