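import Mathlib
import Pool.Agent.Y776.Fam.DerI
import Pool.Agent.Y776.Fam.PtC

/-!
# Constants at a generic point
-/

set_option autoImplicit false

open Filter Topology Set MvPolynomial

noncomputable section

namespace Pool.Agent.Y776.Fam

open Pool.Agent.Y124 (tc LocInd tc_sum eventually_zero_of_tc)
open Pool.Agent.Y685
open Pool.Agent.TH813.Rel (DF MK)

variable {U : Set ℂ}

section

variable {C : IntermediateField ℚ ℂ} {κ : Type} {f : κ → ℂ → ℂ} {z₀ : ℂ}

/-- the derivation of polynomials -/
def dP (s : κ → MvPolynomial κ C) : Derivation C (MvPolynomial κ C) (MvPolynomial κ C) :=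
  mkDerivation C s

theorem hasDerivAt_dP (hf : ∀ k, AnalyticOnNhd ℂ (f k) U) (s : κ → MvPolynomial κ C)
    (hs : ∀ k, ∀ z ∈ U, deriv (f k) z = aeval (fun k => f k z) (s k)) {z : ℂ} (hz : z ∈ U)
    (P : MvPolynomial κ C) :
    HasDerivAt (fun z => aeval (fun k => f k z) P) (aeval (fun k => f k z) (dP s P)) z := by
  induction P using MvPolynomial.induction_on with
  | C a =>
    have h1 : dP s (MvPolynomial.C a) = 0 := (dP s).map_algebraMap a
    rw [h1, map_zero]
    simp only [aeval_C]
    exact hasDerivAt_const _ _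
  | add p q hp hq =>
    simp only [map_add]
    exact hp.add hq
  | mul_X p k hp =>
    have h1 := hp.mul (hf k z hz).differentiableAt.hasDerivAt
    simp only [map_mul, aeval_X]
    refine h1.congr_deriv ?_
    have h2 : dP s (X k) = s k := by rw [dP, mkDerivation_X]
    rw [Derivation.leibniz, h2, smul_eq_mul, smul_eq_mul, map_add, map_mul, map_mul, aeval_X,
      hs k z hz]
    ring

theorem D_dP (s : κ → MvPolynomial κ C) {D : Derivation ℚ ℂ ℂ} (hD : D ∈ DF C)
    (hs : ∀ k, D (f k z₀) = aeval (fun k => f k z₀) (s k)) (P : MvPolynomial κ C) :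
    D (aeval (fun k => f k z₀) P) = aeval (fun k => f k z₀) (dP s P) := by
  induction P using MvPolynomial.induction_on with
  | C a =>
    have h1 : dP s (MvPolynomial.C a) = 0 := (dP s).map_algebraMap a
    rw [h1, map_zero]
    simp only [aeval_C]
    exact hD _ a.2
  | add p q hp hq =>
    simp only [map_add]
    rw [hp, hq]
  | mul_X p k hp =>
    simp only [map_mul, aeval_X]
    have h2 : dP s (X k) = s k := by rw [dP, mkDerivation_X]
    rw [Derivation.leibniz, Derivation.leibniz, h2, hp, hs k]
    simp only [smul_eq_mul, map_add, map_mul, aeval_X]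

/-- **relations over the constants hold identically** -/
theorem tay (hU : IsOpen U) (hc : IsPreconnected U) (hz : z₀ ∈ U)
    (hf : ∀ k, AnalyticOnNhd ℂ (f k) U) (s : κ → MvPolynomial κ C)
    (hs : ∀ k, ∀ z ∈ U, deriv (f k) z = aeval (fun k => f k z) (s k)) {D : Derivation ℚ ℂ ℂ}
    (hD : D ∈ DF C) (hDf : ∀ k, D (f k z₀) = deriv (f k) z₀) {P : MvPolynomial κ C}
    (hP : aeval (fun k => f k z₀) P = 0) : ∀ z ∈ U, aeval (fun k => f k z) P = 0 := by
  have hDs : ∀ k, D (f k z₀) = aeval (fun k => f k z₀) (s k) := fun k => by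
    rw [hDf k, hs k z₀ hz]
  have h1 : ∀ (n : ℕ) (P : MvPolynomial κ C), aeval (fun k => f k z₀) P = 0 →
      iteratedDeriv n (fun z => aeval (fun k => f k z) P) z₀ = 0 := by
    intro n
    induction n with
    | zero =>
      intro P hP
      rw [iteratedDeriv_zero]
      exact hP
    | succ n ih =>
      intro P hP
      rw [iteratedDeriv_succ']
      have h2 : deriv (fun z => aeval (fun k => f k z) P) =ᶠ[𝓝 z₀]
          fun z => aeval (fun k => f k z) (dP s P) := by
        filter_upwards [hU.mem_nhds hz] with z hz'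
        exact (hasDerivAt_dP hf s hs hz' P).deriv
      rw [h2.iteratedDeriv_eq n]
      apply ih
      rw [← D_dP s hD hDs, hP, map_zero]
  have han : AnalyticOnNhd ℂ (fun z => aeval (fun k => f k z) P) U := an_aeval hf P
  have h2 : ∀ᶠ z in 𝓝 z₀, aeval (fun k => f k z) P = 0 := by
    apply eventually_zero_of_tc (han z₀ hz)
    intro n
    unfold tc
    rw [h1 n P hP]
    simp
  intro z hz'
  exact han.eqOn_zero_of_preconnected_of_eventuallyEq_zero hc hz h2 hz'

end

section

variable {s : ℕ}

/-- the functions and their derivatives -/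
def it (l : Fin s → ℂ → ℂ) : Option (Fin s × ℕ) → ℂ → ℂ
  | none, z => z
  | some kj, z => iteratedDeriv kj.2 (l kj.1) z

theorem it_an {l : Fin s → ℂ → ℂ} (la : ∀ k, AnalyticOnNhd ℂ (l k) U) (o : Option (Fin s × ℕ)) :
    AnalyticOnNhd ℂ (it l o) U := by
  cases o with
  | none => exact fun z _ => analyticAt_id
  | some kj =>
    intro z hz
    change AnalyticAt ℂ (iteratedDeriv kj.2 (l kj.1)) z
    rw [iteratedDeriv_eq_iterate]
    exact (la kj.1).iterated_deriv kj.2 z hz

/-- algebraically independent functions -/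
def AI (U : Set ℂ) (l : Fin s → ℂ → ℂ) : Prop :=
  ∀ P : MvPolynomial (Option (Fin s)) ℂ,
    (∀ z ∈ U, eval (fun o : Option (Fin s) => o.elim z (fun k => l k z)) P = 0) → P = 0

/-- the values are independent over the constants -/
theorem ai_vals (hU : IsOpen U) (hc : IsPreconnected U) {z₀ : ℂ} (hz : z₀ ∈ U)
    {l : Fin s → ℂ → ℂ} (la : ∀ k, AnalyticOnNhd ℂ (l k) U) (hli : AI U l)
    {C : IntermediateField ℚ ℂ} {D : Derivation ℚ ℂ ℂ} (hD : D ∈ DF C)
    (hDl : ∀ o, D (it l o z₀) = deriv (it l o) z₀) :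
    AlgebraicIndependent C (fun o : Option (Fin s) => o.elim z₀ (fun k => l k z₀)) := by
  rw [algebraicIndependent_iff]
  intro P hP
  let e : Option (Fin s) → Option (Fin s × ℕ) := Option.map (fun k => (k, 0))
  have he : ∀ z, (fun o => it l (e o) z) = fun o : Option (Fin s) => o.elim z (fun k => l k z) := by
    intro z
    funext o
    cases o with
    | none => rfl
    | some k =>
      change iteratedDeriv 0 (l k) z = l k z
      rw [iteratedDeriv_zero]
  have h1 : aeval (fun o => it l o z₀) (rename e P) = 0 := by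
    rw [aeval_rename]
    rw [← hP]
    congr 1
    exact congrArg _ (he z₀)
  have h2 := tay hU hc hz (it_an la) (fun o : Option (Fin s × ℕ) => o.elim 1
    (fun kj => X (some (kj.1, kj.2 + 1)))) (by
      intro o z hz'
      cases o with
      | none =>
        simp only [Option.elim_none, map_one]
        exact (hasDerivAt_id z).deriv
      | some kj =>
        simp only [Option.elim_some, aeval_X]
        change deriv (iteratedDeriv kj.2 (l kj.1)) z = iteratedDeriv (kj.2 + 1) (l kj.1) z
        rw [iteratedDeriv_succ]) hD hDl h1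
  have h3 : map (algebraMap C ℂ) P = 0 := by
    apply hli
    intro z hz'
    have h4 := h2 z hz'
    rw [aeval_rename] at h4
    have h5 : ((fun o => it l o z) ∘ e) = fun o : Option (Fin s) => o.elim z (fun k => l k z) := he z
    rw [h5] at h4
    rw [eval_map, ← aeval_def]
    exact h4
  exact (map_eq_zero_iff _ (map_injective _ (algebraMap C ℂ).injective)).1 h3

end

/-- relations give algebraic numbers -/
theorem mem_of_rel {C : IntermediateField ℚ ℂ} {σ : Type} [Fintype σ] {v : σ → ℂ} (σ₀ : σ)
    (hv : AlgebraicIndependent C (fun i : {i // i ≠ σ₀} => v i)) {P : MvPolynomial σ ℂ} (hP0 : P ≠ 0)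
    (hPC : ∀ c ∈ P.coeffs, c ∈ C) (hP : eval v P = 0) :
    v σ₀ ∈ clo C (Set.range fun i : {i // i ≠ σ₀} => v i) := by
  classical
  by_contra hcon
  have h2 : (MK C).Indep (Set.range fun i : {i // i ≠ σ₀} => v i) := by
    rw [AlgebraicIndependent.matroid_indep_iff]
    exact AlgebraicIndependent.coe_range hv
  have hcard : Fintype.card {i // i ≠ σ₀} + 1 = Fintype.card σ := by
    have h1 := Fintype.card_subtype_compl (fun i => i = σ₀)
    rw [Fintype.card_subtype_eq] at h1
    have h3 : 0 < Fintype.card σ := Fintype.card_pos_iff.2 ⟨σ₀⟩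
    change Fintype.card {i // ¬ i = σ₀} + 1 = _
    omega
  have h3 : (MK C).eRk (Set.range fun i : {i // i ≠ σ₀} => v i) =
      ((Fintype.card {i // i ≠ σ₀} : ℕ) : ℕ∞) := by
    rw [h2.eRk_eq_encard, ← Set.image_univ, hv.injective.encard_image, Set.encard_univ,
      ENat.card_eq_coe_fintype_card]
  have h4 := Matroid.eRk_insert_eq_add_one (M := MK C) (e := v σ₀)
    (X := Set.range fun i : {i // i ≠ σ₀} => v i) ⟨Set.mem_univ _, fun hc => hcon (mem_clo_iff.2 hc)⟩
  have h5 : AlgebraicIndependent C v := by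
    apply indep_of_rank
    rw [← hcard]
    push_cast
    rw [← h3, ← h4]
    apply (MK C).eRk_mono
    rintro x (rfl | ⟨i, rfl⟩)
    · exact ⟨σ₀, rfl⟩
    · exact ⟨i, rfl⟩
  obtain ⟨P', hP'⟩ : ∃ P' : MvPolynomial σ C, MvPolynomial.map (algebraMap C ℂ) P' = P := by
    have h3 : P ∈ Set.range (MvPolynomial.map (σ := σ) (algebraMap C ℂ)) := by
      rw [MvPolynomial.mem_range_map_iff_coeffs_subset]
      intro c hc
      exact ⟨⟨c, hPC c (Finset.mem_coe.1 hc)⟩, rfl⟩
    exact h3
  have h6 : MvPolynomial.aeval v P' = 0 := by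
    rw [← hP, ← hP', MvPolynomial.eval_map, MvPolynomial.aeval_def]
  have h7 := (algebraicIndependent_iff.1 h5) P' h6
  rw [h7, map_zero] at hP'
  exact hP0 hP'.symm

end Pool.Agent.Y776.Fam
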