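import Mathlib
import Pool.Agent.Y776.Fam.Third

/-!
# Towers of integrals are independent of the elliptic data
-/

set_option autoImplicit false

open Finset Module
open scoped Topology PeriodPair

noncomputable section

namespace Pool.Agent.Y776.Fam

open H667R3 Pool.Agent.W245.EB Pool.Agent.TH813.Ell Pool.Agent.Y685 Pool.Agent.Y776
open Pool.Agent.TH813.Rel (DF MK exists_derF mem_cl subset_cl rk_le_of_subset_cl)

variable {L : PeriodPair} {D δ δ' : Derivation ℚ ℂ ℂ} {r s q : ℕ}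

/-- the closure of the tower -/
abbrev KT (L : PeriodPair) (D : Derivation ℚ ℂ ℂ) (t : Fin s → ℂ) : IntermediateField ℚ ℂ :=
  clo (Cst D) (insert L.g₂ (Set.range t))

theorem K0_le_KT (t : Fin s → ℂ) : K0 L D ≤ KT L D t := clo_le (fun x hx => by
  rw [Set.mem_singleton_iff] at hx
  rw [hx]
  exact subset_clo (Or.inl rfl))

theorem KT_le_KX (t : Fin s → ℂ) (p : Fin r → ℂ) : KT L D t ≤ KX L D t p := by
  refine clo_le ?_
  rintro x (rfl | ⟨k, rfl⟩)
  · exact xx_mem (L := L) (t := t) (p := p) (Sum.inl 0)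
  · exact xx_mem (L := L) (t := t) (p := p) (Sum.inr (Sum.inl k))

/-- derivations acting linearly on the solutions -/
structure Gd (L : PeriodPair) (D : Derivation ℚ ℂ ℂ) (t : Fin s → ℂ) (p : Fin r → ℂ)
    (α β γ : ℚ) (a b : Fin r → ℚ) (δ : Derivation ℚ ℂ ℂ) : Prop where
  hC : δ ∈ DF (Cst D)
  hg : δ L.g₂ = 0
  ht : ∀ k, δ (t k) = 0
  h1 : δ L.ω₁ = α * L.ω₁ + β * L.ω₂
  h2 : δ L.ω₂ = γ * L.ω₁ - α * L.ω₂
  h3 : δ (eta L L.ω₁) = α * eta L L.ω₁ + β * eta L L.ω₂
  hp : ∀ j, δ (p j) = a j * L.ω₁ + b j * L.ω₂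
  hz : ∀ j, δ (zt L (p j)) = a j * eta L L.ω₁ + b j * eta L L.ω₂

theorem der_rat (δ : Derivation ℚ ℂ ℂ) (x : ℚ) : δ (x : ℂ) = 0 := δ.map_algebraMap x

/-- the coordinates of the points -/
theorem pts_K0 (h : Nrm L D) {p : Fin r → ℂ} (hpK : ∀ i, ℘[L] (p i) ∈ K0 L D)
    (hp2 : ∀ j, 2 * p j ∉ L.lattice) (j : Fin r) :
    ℘'[L] (p j) ∈ K0 L D ∧ vv L D (aa L) 1 (p j) ∈ K0 L D := by
  have h1 : ∑ i, (Pi.single j (1 : ℚ) : Fin r → ℚ) i • p i = p j := by
    rw [Finset.sum_eq_single j]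
    · rw [Pi.single_eq_same, one_smul]
    · intro k _ hk
      rw [Pi.single_eq_of_ne hk, zero_smul]
    · intro hj; exact absurd (Finset.mem_univ j) hj
  obtain ⟨-, h2, h3, -⟩ := wp_comb h hpK (Pi.single j 1) (by rw [h1]; exact hp2 j)
  rw [h1] at h2 h3
  exact ⟨h2, h3⟩

namespace Gd

variable {t : Fin s → ℂ} {p : Fin r → ℂ} {α β γ α' β' γ' : ℚ} {a b a' b' : Fin r → ℚ}

theorem h4 (hD : Gd L D t p α β γ a b δ) (h : Nrm L D) :
    δ (eta L L.ω₂) = γ * eta L L.ω₁ - α * eta L L.ω₂ := by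
  have e1 : δ (Lg L) = 0 := hD.hC _ (D_Lg h)
  unfold Lg at e1
  rw [map_sub, D_mul, D_mul, hD.h1, hD.h2, hD.h3] at e1
  have e2 : L.ω₁ * (δ (eta L L.ω₂) - (γ * eta L L.ω₁ - α * eta L L.ω₂)) = 0 := by
    linear_combination e1
  exact sub_eq_zero.1 ((mul_eq_zero.1 e2).resolve_left (ω₁_ne_zero L))

theorem kT (hD : Gd L D t p α β γ a b δ) : δ ∈ DF (KT L D t) :=
  mem_DF_clo.2 ⟨hD.hC, by
    rintro x (rfl | ⟨k, rfl⟩)
    · exact hD.hg
    · exact hD.ht k⟩

theorem k0 (hD : Gd L D t p α β γ a b δ) : δ ∈ DF (K0 L D) := fun x hx => hD.kT x (K0_le_KT t hx)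

/-- the bracket with `D` -/
theorem br (hD : Gd L D t p α β γ a b δ) (h : Nrm L D) (hp : ∀ i, p i ∈ Cm h)
    (hpK : ∀ i, ℘[L] (p i) ∈ K0 L D) (hp2 : ∀ j, 2 * p j ∉ L.lattice)
    (ht : ∀ k, D (t k) ∈ KT L D t) : ⁅D, δ⁆ ∈ DF (KX L D t p) := by
  refine mem_DF_clo.2 ⟨TH813.Rel.bracket_mem _ D_DF hD.hC, ?_⟩
  have e1 := h.hω _ L.ω₁_mem_lattice
  have e2 := h.hω _ L.ω₂_mem_lattice
  have e3 := h.hη _ L.ω₁_mem_lattice
  have e4 := h.hη _ L.ω₂_mem_lattice
  have hh4 := hD.h4 h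
  have d12 := D_DF (D := D)
  rintro _ ⟨x, rfl⟩
  rcases x with x | k | j | j
  · fin_cases x
    · change ⁅D, δ⁆ L.g₂ = 0
      rw [Derivation.commutator_apply, hD.hg, map_zero, hD.k0 _ (Dg_K0 h), sub_zero]
    · change ⁅D, δ⁆ L.ω₁ = 0
      rw [Derivation.commutator_apply, hD.h1, e1, map_add, map_add, δ_aa_mul hD.hg, D_mul, D_mul,
        der_rat, der_rat, hD.h1, hD.h3, e1, e2]
      ring
    · change ⁅D, δ⁆ L.ω₂ = 0
      rw [Derivation.commutator_apply, hD.h2, e2, map_sub, map_add, δ_aa_mul hD.hg, D_mul, D_mul,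
        der_rat, der_rat, hD.h2, hh4, e1, e2]
      ring
    · change ⁅D, δ⁆ (eta L L.ω₁) = 0
      have e5 : δ (-(aa L) * eta L L.ω₁) = -(aa L) * δ (eta L L.ω₁) := by
        rw [neg_mul, map_neg, δ_aa_mul hD.hg, neg_mul]
      rw [Derivation.commutator_apply, hD.h3, e3, map_add, map_sub, e5, δ_smul hD.hg, D_mul, D_mul,
        der_rat, der_rat, hD.h1, hD.h3, e3, e4]
      ring
  · change ⁅D, δ⁆ (t k) = 0
    rw [Derivation.commutator_apply, hD.ht k, map_zero, hD.kT _ (ht k), sub_zero]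
  · change ⁅D, δ⁆ (p j) = 0
    rw [Derivation.commutator_apply, D_z (hp j), map_add, map_add, δ_aa_mul hD.hg,
      hD.k0 _ (pts_K0 h hpK hp2 j).2, hD.hp j, hD.hz j, map_add, D_mul, D_mul, der_rat, der_rat,
      e1, e2]
    ring
  · change ⁅D, δ⁆ (zt L (p j)) = 0
    have e5 : δ (-(aa L) * zt L (p j)) = -(aa L) * δ (zt L (p j)) := by
      rw [neg_mul, map_neg, δ_aa_mul hD.hg, neg_mul]
    rw [Derivation.commutator_apply, D_zt (hp j), map_sub, map_sub, map_add, e5, D_half,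
      hD.k0 _ (pts_K0 h hpK hp2 j).1, D_mul, hD.k0 _ (pts_K0 h hpK hp2 j).2, hD.k0 _ (hpK j),
      δ_smul hD.hg, hD.hp j, hD.hz j, map_add, D_mul, D_mul, der_rat, der_rat, e3, e4]
    ring

/-- the bracket of two such derivations -/
theorem brk (hD : Gd L D t p α β γ a b δ) (hD' : Gd L D t p α' β' γ' a' b' δ') (h : Nrm L D) :
    Gd L D t p (β' * γ - β * γ') (2 * (α' * β - α * β')) (2 * (α * γ' - α' * γ))
      (fun j => a' j * α + b' j * γ - a j * α' - b j * γ')
      (fun j => a' j * β - b' j * α - a j * β' + b j * α') ⁅δ, δ'⁆ := by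
  have hh4 := hD.h4 h
  have hh4' := hD'.h4 h
  refine ⟨TH813.Rel.bracket_mem _ hD.hC hD'.hC, ?_, fun k => ?_, ?_, ?_, ?_, fun j => ?_,
    fun j => ?_⟩
  · rw [Derivation.commutator_apply, hD.hg, hD'.hg, map_zero, map_zero, sub_zero]
  · rw [Derivation.commutator_apply, hD.ht, hD'.ht, map_zero, map_zero, sub_zero]
  · rw [Derivation.commutator_apply, hD.h1, hD'.h1, map_add, map_add, D_mul, D_mul, D_mul, D_mul,
      der_rat, der_rat, der_rat, der_rat, hD.h1, hD.h2, hD'.h1, hD'.h2]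
    push_cast
    ring
  · rw [Derivation.commutator_apply, hD.h2, hD'.h2, map_sub, map_sub, D_mul, D_mul, D_mul, D_mul,
      der_rat, der_rat, der_rat, der_rat, hD.h1, hD.h2, hD'.h1, hD'.h2]
    push_cast
    ring
  · rw [Derivation.commutator_apply, hD.h3, hD'.h3, map_add, map_add, D_mul, D_mul, D_mul, D_mul,
      der_rat, der_rat, der_rat, der_rat, hD.h3, hh4, hD'.h3, hh4']
    push_cast
    ring
  · rw [Derivation.commutator_apply, hD.hp, hD'.hp, map_add, map_add, D_mul, D_mul, D_mul, D_mul,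
      der_rat, der_rat, der_rat, der_rat, hD.h1, hD.h2, hD'.h1, hD'.h2]
    push_cast
    ring
  · rw [Derivation.commutator_apply, hD.hz, hD'.hz, map_add, map_add, D_mul, D_mul, D_mul, D_mul,
      der_rat, der_rat, der_rat, der_rat, hD.h3, hh4, hD'.h3, hh4']
    push_cast
    ring

/-- two derivations of the same type agree -/
theorem agree (hD : Gd L D t p α β γ a b δ) (hD' : Gd L D t p α β γ a b δ') {x : ℂ}
    (hx : x ∈ KX L D t p) : δ x = δ' x := by
  refine der_ext hD.hC hD'.hC ?_ hx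
  rintro _ ⟨i, rfl⟩
  rcases i with i | k | j | j
  · fin_cases i
    · exact hD.hg.trans hD'.hg.symm
    · exact hD.h1.trans hD'.h1.symm
    · exact hD.h2.trans hD'.h2.symm
    · exact hD.h3.trans hD'.h3.symm
  · exact (hD.ht k).trans (hD'.ht k).symm
  · exact (hD.hp j).trans (hD'.hp j).symm
  · exact (hD.hz j).trans (hD'.hz j).symm

end Gd

theorem exists_Gd {t : Fin s → ℂ} {p : Fin r → ℂ} (ai : AlgebraicIndependent (Cst D) (xx L t p))
    (α β γ : ℚ) (a b : Fin r → ℚ) : ∃ δ, Gd L D t p α β γ a b δ := by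
  obtain ⟨δ, hC, hv⟩ := exists_derF (Cst D) ai (Sum.elim
    ![0, α * L.ω₁ + β * L.ω₂, γ * L.ω₁ - α * L.ω₂, α * eta L L.ω₁ + β * eta L L.ω₂]
    (Sum.elim (fun _ => 0) (Sum.elim (fun j => a j * L.ω₁ + b j * L.ω₂)
      (fun j => a j * eta L L.ω₁ + b j * eta L L.ω₂))))
  exact ⟨δ, hC, hv (Sum.inl 0), fun k => hv (Sum.inr (Sum.inl k)), hv (Sum.inl 1), hv (Sum.inl 2),
    hv (Sum.inl 3), fun j => hv (Sum.inr (Sum.inr (Sum.inl j))),
    fun j => hv (Sum.inr (Sum.inr (Sum.inr j)))⟩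

theorem der_sum {ι : Type*} (S : Finset ι) (f : ι → Derivation ℚ ℂ ℂ) (x : ℂ) :
    (∑ j ∈ S, f j) x = ∑ j ∈ S, f j x := by
  classical
  induction S using Finset.induction_on with
  | empty => simp
  | insert i S hi ih => rw [Finset.sum_insert hi, Finset.sum_insert hi, Derivation.add_apply, ih]

/-- **integrals of elements of the tower are in the tower** -/
theorem stepT (h : Nrm L D) {t : Fin s → ℂ} {p : Fin r → ℂ} (hp : ∀ i, p i ∈ Cm h)
    (hpK : ∀ i, ℘[L] (p i) ∈ K0 L D) (hp2 : ∀ j, 2 * p j ∉ L.lattice)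
    (ht : ∀ k, D (t k) ∈ KT L D t) (ai : AlgebraicIndependent (Cst D) (xx L t p)) {x : ℂ}
    (hx : x ∈ KX L D t p) (hDx : D x ∈ KT L D t) : x ∈ KT L D t := by
  classical
  -- the values are constant
  have c1 : ∀ {α β γ : ℚ} {a b : Fin r → ℚ} {δ : Derivation ℚ ℂ ℂ}, Gd L D t p α β γ a b δ →
      D (δ x) = 0 := by
    intro α β γ a b δ hD
    have hb := hD.br h hp hpK hp2 ht x hx
    rw [Derivation.commutator_apply, hD.kT _ hDx, sub_zero] at hb
    exact hb
  have c2 : ∀ {α β γ α' β' γ' : ℚ} {a b a' b' : Fin r → ℚ} {δ δ' : Derivation ℚ ℂ ℂ},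
      Gd L D t p α β γ a b δ → Gd L D t p α' β' γ' a' b' δ' → ⁅δ, δ'⁆ x = 0 := by
    intro α β γ α' β' γ' a b a' b' δ δ' hD hD'
    rw [Derivation.commutator_apply, hD.hC _ (c1 hD'), hD'.hC _ (c1 hD), sub_zero]
  have c3 : ∀ {α₀ β₀ γ₀ : ℚ} {a₀ b₀ : Fin r → ℚ} {δ : Derivation ℚ ℂ ℂ},
      Gd L D t p α₀ β₀ γ₀ a₀ b₀ δ → ∀ (α β γ α' β' γ' : ℚ) (a b a' b' : Fin r → ℚ),
      α₀ = β' * γ - β * γ' → β₀ = 2 * (α' * β - α * β') → γ₀ = 2 * (α * γ' - α' * γ) →
      a₀ = (fun j => a' j * α + b' j * γ - a j * α' - b j * γ') →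
      b₀ = (fun j => a' j * β - b' j * α - a j * β' + b j * α') → δ x = 0 := by
    intro α₀ β₀ γ₀ a₀ b₀ δ hD α β γ α' β' γ' a b a' b' e1 e2 e3 e4 e5
    obtain ⟨δ₁, h₁⟩ := exists_Gd ai α β γ a b
    obtain ⟨δ₂, h₂⟩ := exists_Gd ai α' β' γ' a' b'
    subst e1 e2 e3 e4 e5
    rw [hD.agree (h₁.brk h₂ h) hx]
    exact c2 h₁ h₂
  obtain ⟨H, hH⟩ := exists_Gd (t := t) (p := p) ai 1 0 0 0 0
  obtain ⟨E, hE⟩ := exists_Gd (t := t) (p := p) ai 0 0 1 0 0
  obtain ⟨F, hF⟩ := exists_Gd (t := t) (p := p) ai 0 1 0 0 0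
  choose T₁ hT₁ using fun j : Fin r => exists_Gd (t := t) (p := p) ai 0 0 0 (Pi.single j 1) 0
  choose T₂ hT₂ using fun j : Fin r => exists_Gd (t := t) (p := p) ai 0 0 0 0 (Pi.single j 1)
  have xH : H x = 0 := c3 hH 0 0 1 0 1 0 0 0 0 0 (by norm_num) (by norm_num) (by norm_num)
    (by funext j; simp) (by funext j; simp)
  have xE : E x = 0 := c3 hE (1 / 2) 0 0 0 0 1 0 0 0 0 (by norm_num) (by norm_num) (by norm_num)
    (by funext j; simp) (by funext j; simp)
  have xF : F x = 0 := c3 hF (-1 / 2) 0 0 0 1 0 0 0 0 0 (by norm_num) (by norm_num) (by norm_num)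
    (by funext j; simp) (by funext j; simp)
  have x₁ : ∀ j, T₁ j x = 0 := fun j => c3 (hT₁ j) 1 0 0 0 0 0 0 0 (Pi.single j 1) 0 (by norm_num)
    (by norm_num) (by norm_num) (by funext j; simp) (by funext j; simp)
  have x₂ : ∀ j, T₂ j x = 0 := fun j => c3 (hT₂ j) 1 0 0 0 0 0 0 0 0 (-Pi.single j 1) (by norm_num)
    (by norm_num) (by norm_num) (by funext j; simp) (by funext j; simp)
  have h0 : (Lg L) ≠ 0 := Lg_ne
  have hω := ω₁_ne_zero L
  -- all derivations
  intro δ hδ hS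
  set X : ℂ := (δ L.ω₁ * eta L L.ω₂ - δ (eta L L.ω₁) * L.ω₂) / Lg L with hX
  set Z : ℂ := (δ (eta L L.ω₁) * L.ω₁ - δ L.ω₁ * eta L L.ω₁) / Lg L with hZ
  set Y : ℂ := (δ L.ω₂ + X * L.ω₂) / L.ω₁ with hY
  set A : Fin r → ℂ := fun j =>
    (δ (p j) * eta L L.ω₂ - δ (zt L (p j)) * L.ω₂) / Lg L with hA
  set B : Fin r → ℂ := fun j =>
    (δ (zt L (p j)) * L.ω₁ - δ (p j) * eta L L.ω₁) / Lg L with hB
  set S : Derivation ℚ ℂ ℂ := X • H + Y • E + Z • F + ∑ j, (A j • T₁ j + B j • T₂ j) with hSd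
  have hSa : ∀ y, S y = X * H y + Y * E y + Z * F y + ∑ j, (A j * T₁ j y + B j * T₂ j y) := by
    intro y
    rw [hSd, Derivation.add_apply, Derivation.add_apply, Derivation.add_apply,
      Derivation.smul_apply, Derivation.smul_apply, Derivation.smul_apply, der_sum]
    rfl
  have hSC : S ∈ DF (Cst D) := by
    intro y hy
    rw [hSa, hH.hC y hy, hE.hC y hy, hF.hC y hy]
    simp only [mul_zero, zero_add]
    exact sum_eq_zero fun j _ => by rw [(hT₁ j).hC y hy, (hT₂ j).hC y hy]; ring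
  have hSx : S x = 0 := by
    rw [hSa, xH, xE, xF]
    simp only [mul_zero, zero_add]
    exact sum_eq_zero fun j _ => by rw [x₁, x₂]; ring
  rw [← hSx]
  refine der_ext hδ hSC ?_ hx
  rintro _ ⟨i, rfl⟩
  rcases i with i | k | j | j
  · fin_cases i
    · change δ L.g₂ = S L.g₂
      rw [hS _ (Or.inl rfl), hSa, hH.hg, hE.hg, hF.hg]
      simp only [mul_zero, zero_add]
      exact (sum_eq_zero fun j _ => by rw [(hT₁ j).hg, (hT₂ j).hg]; ring).symm
    · change δ L.ω₁ = S L.ω₁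
      rw [hSa, hH.h1, hE.h1, hF.h1, sum_eq_zero fun j _ => by
        rw [(hT₁ j).h1, (hT₂ j).h1]; push_cast; ring]
      rw [hX, hZ]
      push_cast
      field_simp
      unfold Lg
      ring
    · change δ L.ω₂ = S L.ω₂
      rw [hSa, hH.h2, hE.h2, hF.h2, sum_eq_zero fun j _ => by
        rw [(hT₁ j).h2, (hT₂ j).h2]; push_cast; ring]
      rw [hY]
      push_cast
      field_simp
      ring
    · change δ (eta L L.ω₁) = S (eta L L.ω₁)
      rw [hSa, hH.h3, hE.h3, hF.h3, sum_eq_zero fun j _ => by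
        rw [(hT₁ j).h3, (hT₂ j).h3]; push_cast; ring]
      rw [hX, hZ]
      push_cast
      field_simp
      unfold Lg
      ring
  · change δ (t k) = S (t k)
    rw [hS _ (Or.inr ⟨k, rfl⟩), hSa, hH.ht, hE.ht, hF.ht]
    simp only [mul_zero, zero_add]
    exact (sum_eq_zero fun j _ => by rw [(hT₁ j).ht, (hT₂ j).ht]; ring).symm
  · change δ (p j) = S (p j)
    rw [hSa, hH.hp, hE.hp, hF.hp, Finset.sum_eq_single j]
    · rw [(hT₁ j).hp, (hT₂ j).hp, hA, hB]
      simp only [Pi.single_eq_same, Pi.zero_apply]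
      push_cast
      field_simp
      unfold Lg
      ring
    · intro i _ hi
      rw [(hT₁ i).hp, (hT₂ i).hp, Pi.single_eq_of_ne hi.symm]
      simp
    · intro hj; exact absurd (Finset.mem_univ j) hj
  · change δ (zt L (p j)) = S (zt L (p j))
    rw [hSa, hH.hz, hE.hz, hF.hz, Finset.sum_eq_single j]
    · rw [(hT₁ j).hz, (hT₂ j).hz, hA, hB]
      simp only [Pi.single_eq_same, Pi.zero_apply]
      push_cast
      field_simp
      unfold Lg
      ring
    · intro i _ hi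
      rw [(hT₁ i).hz, (hT₂ i).hz, Pi.single_eq_of_ne hi.symm]
      simp
    · intro hj; exact absurd (Finset.mem_univ j) hj

/-- **towers of integrals are independent of the elliptic data** -/
theorem ai_tower (h : Nrm L D) {p : Fin r → ℂ} (hp : ∀ i, p i ∈ Cm h)
    (hpK : ∀ i, ℘[L] (p i) ∈ K0 L D) (hp2 : ∀ j, 2 * p j ∉ L.lattice)
    (h0 : AlgebraicIndependent (Cst D) (xx L (![] : Fin 0 → ℂ) p)) : ∀ {s : ℕ} (t : Fin s → ℂ),
    (∀ k, D (t k) ∈ clo (Cst D) (insert L.g₂ (t '' Set.Iio k))) →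
    AlgebraicIndependent (Cst D) (fun o : Option (Fin s) => o.elim L.g₂ t) →
    AlgebraicIndependent (Cst D) (xx L t p) := by
  classical
  intro s
  induction s with
  | zero =>
    intro t _ _
    have : t = ![] := Subsingleton.elim _ _
    rw [this]
    exact h0
  | succ s ih =>
    intro t ht hti
    set t' : Fin s → ℂ := fun j => t j.castSucc with ht'
    have himg : ∀ k : Fin s, t' '' Set.Iio k = t '' Set.Iio k.castSucc := by
      intro k
      ext x
      constructor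
      · rintro ⟨j, hj, rfl⟩
        exact ⟨j.castSucc, Fin.castSucc_lt_castSucc_iff.2 hj, rfl⟩
      · rintro ⟨j, hj, rfl⟩
        have hj' : (j : ℕ) < k := hj
        exact ⟨⟨j, by omega⟩, by
          change (⟨(j : ℕ), _⟩ : Fin s) < k
          exact hj', rfl⟩
    have himg2 : t '' Set.Iio (Fin.last s) = Set.range t' := by
      ext x
      constructor
      · rintro ⟨j, hj, rfl⟩
        have hj' : (j : ℕ) < s := hj
        exact ⟨⟨j, hj'⟩, rfl⟩
      · rintro ⟨j, rfl⟩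
        exact ⟨j.castSucc, Fin.castSucc_lt_last j, rfl⟩
    have hti' : AlgebraicIndependent (Cst D) (fun o : Option (Fin s) => o.elim L.g₂ t') := by
      have e1 : (fun o : Option (Fin s) => o.elim L.g₂ t') =
          (fun o : Option (Fin (s + 1)) => o.elim L.g₂ t) ∘ Option.map Fin.castSucc := by
        funext o
        cases o <;> rfl
      rw [e1]
      exact hti.comp _ (Option.map_injective (Fin.castSucc_injective s))
    have ht'K : ∀ k, D (t' k) ∈ clo (Cst D) (insert L.g₂ (t' '' Set.Iio k)) := fun k => by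
      rw [himg]
      exact ht k.castSucc
    have hKT : ∀ k, D (t' k) ∈ KT L D t' := fun k =>
      clo_le (fun x hx => subset_clo (Set.insert_subset_insert (Set.image_subset_range _ _) hx))
        (ht'K k)
    have ih' := ih t' ht'K hti'
    -- the last one
    have hlast : t (Fin.last s) ∉ KX L D t' p := by
      intro hmem
      have h1 := ht (Fin.last s)
      rw [himg2] at h1
      have h2 := stepT h hp hpK hp2 hKT ih' hmem h1
      obtain ⟨δ, hδC, hδ⟩ := exists_derF (Cst D) hti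
        (fun o => if o = some (Fin.last s) then 1 else 0)
      have h3 := h2 δ hδC (by
        rintro x (rfl | ⟨k, rfl⟩)
        · have := hδ none
          simpa using this
        · have := hδ (some k.castSucc)
          have hne : k.castSucc ≠ Fin.last s := (Fin.castSucc_lt_last k).ne
          simpa [hne] using this)
      have h4 := hδ (some (Fin.last s))
      simp only [Option.elim_some, if_true] at h4
      rw [h4] at h3
      exact one_ne_zero h3
    have hsub : insert (t (Fin.last s)) (Set.range (xx L t' p)) ⊆ Set.range (xx L t p) := by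
      rintro x (rfl | ⟨i, rfl⟩)
      · exact ⟨Sum.inr (Sum.inl (Fin.last s)), rfl⟩
      · rcases i with i | k | j | j
        · exact ⟨Sum.inl i, rfl⟩
        · exact ⟨Sum.inr (Sum.inl k.castSucc), rfl⟩
        · exact ⟨Sum.inr (Sum.inr (Sum.inl j)), rfl⟩
        · exact ⟨Sum.inr (Sum.inr (Sum.inr j)), rfl⟩
    have h2 : (MK (Cst D)).Indep (Set.range (xx L t' p)) := by
      rw [AlgebraicIndependent.matroid_indep_iff]
      exact AlgebraicIndependent.coe_range ih'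
    have h3 : (MK (Cst D)).eRk (Set.range (xx L t' p)) = ((4 + (s + 2 * r) : ℕ) : ℕ∞) := by
      rw [h2.eRk_eq_encard, ← Set.image_univ, ih'.injective.encard_image, Set.encard_univ,
        ENat.card_eq_coe_fintype_card]
      simp only [Fintype.card_sum, Fintype.card_fin]
      push_cast
      ring
    have h4 := Matroid.eRk_insert_eq_add_one (M := MK (Cst D)) (e := t (Fin.last s))
      (X := Set.range (xx L t' p)) ⟨Set.mem_univ _, fun hc => hlast (mem_clo_iff.2 hc)⟩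
    apply indep_of_rank
    have hcard : Fintype.card (Fin 4 ⊕ (Fin (s + 1) ⊕ (Fin r ⊕ Fin r))) = 4 + (s + 2 * r) + 1 := by
      simp only [Fintype.card_sum, Fintype.card_fin]
      ring
    rw [hcard]
    have h5 := (MK (Cst D)).eRk_mono hsub
    rw [h4, h3] at h5
    exact_mod_cast h5

end Pool.Agent.Y776.Fam
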