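import Mathlib
import Pool.Agent.Y776.Fam.Tay
import Pool.Agent.Y776.Fam.ThirdT

/-!
# Families of lattices with points and a tower: independence at a generic point
-/

set_option autoImplicit false

open Filter Topology Set
open scoped PeriodPair

noncomputable section

namespace Pool.Agent.Y776.Fam

open H667R3 Pool.Agent.W245.EB Pool.Agent.TH813.Ell Pool.Agent.Y685 Pool.Agent.Y685.H2
open Pool.Agent.TH813.Rel (DF MK subset_cl rk_le_of_subset_cl mem_cl)

variable {U : Set ℂ} {Λ : ℂ → PeriodPair} {r s q : ℕ}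

/-- no functions -/
abbrev nil : Fin 0 → ℂ → ℂ := ![]

/-- the arguments and the value of a derivative -/
def tw (l : Fin s → ℂ → ℂ) (k : Fin s) (z : ℂ) : Fin 2 ⊕ Fin k → ℂ :=
  Sum.elim ![z, deriv (l k) z] (fun j => l (Fin.castLE k.isLt.le j) z)

/-- a family of lattices with points and logarithms of the sigma function, and a tower -/
structure FmT (U : Set ℂ) (Λ : ℂ → PeriodPair) (u : Fin r → ℂ → ℂ) (l : Fin s → ℂ → ℂ)
    (N : Fin q → Fin r → ℤ) (S : Fin q → ℂ → ℂ) : Prop where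
  base : Fm U Λ u nil N S
  la : ∀ k, AnalyticOnNhd ℂ (l k) U
  lt : ∀ k : Fin s, ∃ P : MvPolynomial (Fin 2 ⊕ Fin k) ℂ, P ≠ 0 ∧
    ∀ z ∈ U, MvPolynomial.eval (tw l k z) P = 0
  li : AI U l

/-- the conditions on a generic point -/
structure GenPtT (U : Set ℂ) (Λ : ℂ → PeriodPair) (u : Fin r → ℂ → ℂ) (l : Fin s → ℂ → ℂ)
    (S : Fin q → ℂ → ℂ) (ε : ℂ) (F : IntermediateField ℚ ℂ) (z₀ : ℂ) : Prop where
  base : GenPt U Λ u nil S ε F z₀
  gn : Gn U F (Sum.elim (fam ε Λ u nil S) (it l)) z₀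

section

variable {u : Fin r → ℂ → ℂ} {l : Fin s → ℂ → ℂ} {N : Fin q → Fin r → ℤ} {S : Fin q → ℂ → ℂ}
  {ε : ℂ}

/-- almost all points are generic -/
theorem countable_GenPtT (h : FmT U Λ u l N S) (hε : ε = 1 ∨ ε = -1)
    (him : ∀ z ∈ U, 0 < (nt ε (Λ z)).im) {F : IntermediateField ℚ ℂ}
    (hF : (F : Set ℂ).Countable) (hne : U.Nonempty) :
    {z | z ∈ U ∧ ¬ GenPtT U Λ u l S ε F z}.Countable := by
  have c1 := countable_GenPt h.base hε him hF hne
  have : Countable (Nm r 0 q) := Finite.to_countable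
  have c2 := countable_Gn (κ := Nm r 0 q ⊕ Option (Fin s × ℕ))
    (f := Sum.elim (fam ε Λ u nil S) (it l)) h.base.toLF.conn hF (by
      rintro (k | k)
      · exact fam_an h.base hε him k
      · exact it_an h.la k)
  refine (c1.union c2).mono ?_
  rintro z ⟨hz, hg⟩
  by_contra hcon
  simp only [mem_union, not_or] at hcon
  obtain ⟨d1, d2⟩ := hcon
  apply hg
  refine ⟨?_, ?_⟩
  · by_contra hG
    exact d1 ⟨hz, hG⟩
  · by_contra hG
    exact d2 ⟨hz, hG⟩

/-- the compatibility of the derivation with the functions -/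
theorem cmp_of (h : Fm U Λ u nil N S) (hε : ε = 1 ∨ ε = -1)
    (him : ∀ z ∈ U, 0 < (nt ε (Λ z)).im) {F : IntermediateField ℚ ℂ} (hb : be0 ∈ F) {z₀ : ℂ}
    (g : GenPt U Λ u nil S ε F z₀) {D₀ : Derivation ℚ ℂ ℂ} (hF : D₀ ∈ DF F)
    (hD₀ : ∀ k, D₀ (fam ε Λ u nil S k z₀) = deriv (fam ε Λ u nil S k) z₀) :
    ∃ D : Derivation ℚ ℂ ℂ, D = (1 / deriv (fun z => nt ε (Λ z)) z₀) • D₀ ∧
      (∀ c ∈ F, D c = 0) ∧ D z₀ ≠ 0 ∧
      Cmp k0 (nt ε (Λ z₀)) (fun i => u i z₀ / (Λ z₀).ω₁) D ∧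
      ∀ k, D (S k z₀) = D (Λ z₀).ω₁ / (Λ z₀).ω₁ +
        Qt (nt ε (Λ z₀)) (∑ i, (N k i : ℂ) * (u i z₀ / (Λ z₀).ω₁)) +
        zeta (LC (nt ε (Λ z₀))) (∑ i, (N k i : ℂ) * (u i z₀ / (Λ z₀).ω₁)) *
          D (∑ i, (N k i : ℂ) * (u i z₀ / (Λ z₀).ω₁)) := by
  classical
  have hL := h.toLF
  have hz := g.mem
  have hi0 := him z₀ hz
  have hfa := fam_an h hε him
  set τ₀ := nt ε (Λ z₀) with hτ₀
  set τ' := deriv (fun z => nt ε (Λ z)) z₀ with hτ'
  have ht0 : τ' ≠ 0 := g.dt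
  have hτ : HasDerivAt (fun z => nt ε (Λ z)) τ' z₀ :=
    (hL.an_nt ε hz).differentiableAt.hasDerivAt
  have hv : ∀ i, HasDerivAt (fun z => u i z / (Λ z).ω₁) (D₀ (u i z₀ / (Λ z₀).ω₁)) z₀ := by
    intro i
    have h1 := (hfa (.v i) z₀ hz).differentiableAt.hasDerivAt
    have h2 := hD₀ (.v i)
    rw [← h2] at h1
    exact h1
  set D : Derivation ℚ ℂ ℂ := (1 / τ') • D₀ with hD
  have hDa : ∀ x, D x = D₀ x / τ' := by
    intro x
    rw [hD, Derivation.smul_apply, smul_eq_mul]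
    ring
  have hDz : D₀ z₀ = 1 := by
    have h1 := hD₀ .z
    have h2 : deriv (fam ε Λ u nil S .z) z₀ = 1 := (hasDerivAt_id z₀).deriv
    rw [h2] at h1
    exact h1
  have hDτ : D₀ τ₀ = τ' := hD₀ .tau
  obtain ⟨a1, a2, a3, a4, a5⟩ := H2.task_A4 τ₀ hi0
  have hbe : be τ₀ ∈ F := by rw [be_eq hi0]; exact hb
  have hk : ∀ {k : Nm r 0 q} {d : ℂ}, HasDerivAt (fam ε Λ u nil S k) d z₀ →
      D (fam ε Λ u nil S k z₀) = d / τ' := by
    intro k d hd
    rw [hDa, hD₀ k, hd.deriv]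
  refine ⟨D, rfl, fun c hc => by rw [hDa, hF c hc, zero_div], ?_, ⟨?_, ?_, ?_, ?_, ?_, ?_, ?_, ?_⟩, ?_⟩
  · rw [hDa, hDz]
    exact div_ne_zero one_ne_zero ht0
  · intro c hc
    have hk : k0 ≤ F.toSubfield := by
      rw [k0, Subfield.closure_le]
      rintro _ rfl
      exact hb
    rw [hDa, hF c (hk hc), zero_div]
  · rw [hDa, hDτ, div_self ht0]
  · have e1 : HasDerivAt (h1 ∘ fun z => nt ε (Λ z))
        ((be τ₀ * h1 τ₀ ^ 2 - be τ₀ * (LC τ₀).g₂ / 12) * τ') z₀ := a1.comp z₀ hτ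
    have e2 : HasDerivAt (fam ε Λ u nil S .h)
        ((be τ₀ * h1 τ₀ ^ 2 - be τ₀ * (LC τ₀).g₂ / 12) * τ') z₀ := e1
    have e3 := hk e2
    rw [mul_div_cancel_right₀ _ ht0] at e3
    exact e3
  · have e1 : HasDerivAt ((fun s => (LC s).g₂) ∘ fun z => nt ε (Λ z))
        ((-4 * al τ₀ * (LC τ₀).g₂ - 6 * be τ₀ * (LC τ₀).g₃) * τ') z₀ := a2.comp z₀ hτ
    have e2 : HasDerivAt (fam ε Λ u nil S .g2)
        ((-4 * al τ₀ * (LC τ₀).g₂ - 6 * be τ₀ * (LC τ₀).g₃) * τ') z₀ := e1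
    have e3 := hk e2
    rw [mul_div_cancel_right₀ _ ht0] at e3
    exact e3
  · have e1 : HasDerivAt ((fun s => (LC s).g₃) ∘ fun z => nt ε (Λ z))
        ((-6 * al τ₀ * (LC τ₀).g₃ - be τ₀ * (LC τ₀).g₂ ^ 2 / 3) * τ') z₀ := a3.comp z₀ hτ
    have e2 : HasDerivAt (fam ε Λ u nil S .g3)
        ((-6 * al τ₀ * (LC τ₀).g₃ - be τ₀ * (LC τ₀).g₂ ^ 2 / 3) * τ') z₀ := e1
    have e3 := hk e2
    rw [mul_div_cancel_right₀ _ ht0] at e3
    exact e3
  · rw [hDa, hF _ hbe, zero_div]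
  · intro i
    have hnm := nm_notMem hε hi0 (h.un i z₀ hz)
    have h1 := (H2.task_A1 τ₀ (u i z₀ / (Λ z₀).ω₁) hi0 hnm).comp_hasDerivAt z₀ (hτ.prodMk (hv i))
    have h2 : HasDerivAt (fam ε Λ u nil S (.ze i)) _ z₀ := h1
    rw [show zeta (LC τ₀) (u i z₀ / (Λ z₀).ω₁) = fam ε Λ u nil S (.ze i) z₀ from rfl, hk h2, hDa]
    simp only [_root_.sub_apply, _root_.smul_apply,
      ContinuousLinearMap.coe_fst', ContinuousLinearMap.coe_snd', smul_eq_mul]
    change _ = al τ₀ * (u i z₀ / (Λ z₀).ω₁ * ℘[LC τ₀] (u i z₀ / (Λ z₀).ω₁) -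
      zeta (LC τ₀) (u i z₀ / (Λ z₀).ω₁)) + be τ₀ * (℘'[LC τ₀] (u i z₀ / (Λ z₀).ω₁) / 2 +
      zeta (LC τ₀) (u i z₀ / (Λ z₀).ω₁) * ℘[LC τ₀] (u i z₀ / (Λ z₀).ω₁) -
      (LC τ₀).g₂ / 12 * (u i z₀ / (Λ z₀).ω₁)) - ℘[LC τ₀] (u i z₀ / (Λ z₀).ω₁) *
      (D₀ (u i z₀ / (Λ z₀).ω₁) / τ')
    field_simp
  · intro i
    have hnm := nm_notMem hε hi0 (h.un i z₀ hz)
    have h1 := (H2.task_A2 τ₀ (u i z₀ / (Λ z₀).ω₁) hi0 hnm).comp_hasDerivAt z₀ (hτ.prodMk (hv i))
    have h2 : HasDerivAt (fam ε Λ u nil S (.wp i)) _ z₀ := h1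
    rw [show ℘[LC τ₀] (u i z₀ / (Λ z₀).ω₁) = fam ε Λ u nil S (.wp i) z₀ from rfl, hk h2, hDa]
    simp only [_root_.add_apply, _root_.smul_apply,
      ContinuousLinearMap.coe_fst', ContinuousLinearMap.coe_snd', smul_eq_mul]
    change _ = -2 * al τ₀ * ℘[LC τ₀] (u i z₀ / (Λ z₀).ω₁) + be τ₀ * ((LC τ₀).g₂ / 3 -
      2 * ℘[LC τ₀] (u i z₀ / (Λ z₀).ω₁) ^ 2) - (al τ₀ * (u i z₀ / (Λ z₀).ω₁) +
      be τ₀ * zeta (LC τ₀) (u i z₀ / (Λ z₀).ω₁)) * ℘'[LC τ₀] (u i z₀ / (Λ z₀).ω₁) +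
      ℘'[LC τ₀] (u i z₀ / (Λ z₀).ω₁) * (D₀ (u i z₀ / (Λ z₀).ω₁) / τ')
    field_simp
  · intro k
    set x : ℂ → ℂ := fun z => ∑ i, (N k i : ℂ) * (u i z / (Λ z).ω₁) with hx
    have hxe : ∀ z, ∑ i, (N k i : ℂ) * u i z = (Λ z).ω₁ * x z := by
      intro z
      rw [hx, Finset.mul_sum]
      refine Finset.sum_congr rfl fun i _ => ?_
      have := ω₁_ne_zero (Λ z)
      field_simp
    have hSe : ∀ z ∈ U, Complex.exp (S k z) = (Λ z).ω₁ * sigma (LC (nt ε (Λ z))) (x z) := by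
      intro z hz
      rw [h.Se k z hz, hxe z, Hm_sigma (Hm_nt (Λ z) hε (him z hz))]
    have hxn : x z₀ ∉ (LC τ₀).lattice := by
      intro hmem
      have h1 := hSe z₀ hz
      rw [sigma_coe_eq_zero _ hmem, mul_zero] at h1
      exact Complex.exp_ne_zero _ h1
    have hxd : HasDerivAt x (D₀ (x z₀)) z₀ := by
      have h1 : D₀ (x z₀) = ∑ i, (N k i : ℂ) * D₀ (u i z₀ / (Λ z₀).ω₁) := by
        rw [hx, map_sum]
        refine Finset.sum_congr rfl fun i _ => ?_
        have hN : D₀ (N k i : ℂ) = 0 := D₀.map_intCast (N k i)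
        rw [D_mul, hN]
        ring
      rw [h1]
      exact HasDerivAt.fun_sum fun i _ => (hv i).const_mul _
    have hw : HasDerivAt (fun z => (Λ z).ω₁) (D₀ (Λ z₀).ω₁) z₀ := by
      have h3 := (hfa .w z₀ hz).differentiableAt.hasDerivAt
      rw [← hD₀ .w] at h3
      exact h3
    have hs := (fderiv_sigma hi0 hxn).comp_hasDerivAt z₀ (hτ.prodMk hxd)
    have hprod := hw.mul hs
    have hSd : HasDerivAt (S k) (D₀ (S k z₀)) z₀ := by
      have h3 := (hfa (.S k) z₀ hz).differentiableAt.hasDerivAt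
      rw [← hD₀ (.S k)] at h3
      exact h3
    have hexp := hSd.cexp
    have hev : (fun z => Complex.exp (S k z)) =ᶠ[𝓝 z₀]
        fun z => (Λ z).ω₁ * sigma (LC (nt ε (Λ z))) (x z) := by
      filter_upwards [hL.isOpen.mem_nhds hz] with z hz'
      exact hSe z hz'
    have huniq := (hexp.congr_of_eventuallyEq hev.symm).unique hprod
    simp only [_root_.add_apply, _root_.smul_apply, ContinuousLinearMap.coe_fst',
      ContinuousLinearMap.coe_snd', smul_eq_mul, Function.comp] at huniq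
    rw [hSe z₀ hz] at huniq
    have hσ : sigma (LC τ₀) (x z₀) ≠ 0 := sigma_ne_zero _ hxn
    have hω := ω₁_ne_zero (Λ z₀)
    change D (S k z₀) = D (Λ z₀).ω₁ / (Λ z₀).ω₁ + Qt τ₀ (x z₀) + zeta (LC τ₀) (x z₀) * D (x z₀)
    rw [hDa, hDa, hDa]
    field_simp
    apply mul_left_cancel₀ hσ
    linear_combination huniq

/-- **independence at a generic point** -/
theorem pt_indepT (hT : FmT U Λ u l N S) (hε : ε = 1 ∨ ε = -1)
    (him : ∀ z ∈ U, 0 < (nt ε (Λ z)).im) {F : IntermediateField ℚ ℂ} (hb : be0 ∈ F)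
    (a2 : AlgOver F U (fun z => (Λ z).g₂)) (a3 : AlgOver F U (fun z => (Λ z).g₃))
    (aw : ∀ i, AlgOver F U (fun z => ℘[Λ z] (u i z)))
    (at' : ∀ k : Fin s, ∃ P : MvPolynomial (Fin 2 ⊕ Fin k) ℂ, P ≠ 0 ∧ (∀ c ∈ P.coeffs, c ∈ F) ∧
      ∀ z ∈ U, MvPolynomial.eval (tw l k z) P = 0) {z₀ : ℂ}
    (gT : GenPtT U Λ u l S ε F z₀) : AlgebraicIndependent F (yO Λ u l S z₀) := by
  classical
  have h := hT.base
  have g := gT.base
  obtain ⟨D₀, hD₀F, hD₀a⟩ := exists_DI h.toLF.isOpen g.mem (by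
    rintro (k | k)
    · exact fam_an h hε him k
    · exact it_an hT.la k) gT.gn
  have hD₀f : ∀ k, D₀ (fam ε Λ u nil S k z₀) = deriv (fam ε Λ u nil S k) z₀ := fun k =>
    hD₀a (Sum.inl k)
  have hD₀l : ∀ o, D₀ (it l o z₀) = deriv (it l o) z₀ := fun o => hD₀a (Sum.inr o)
  obtain ⟨D, hDD, hDF, hDz, hcmp, hDS⟩ := cmp_of h hε him hb g hD₀F hD₀f
  have hz := g.mem
  have hi0 := him z₀ hz
  have hHm := Hm_nt (Λ z₀) hε hi0
  have hω := ω₁_ne_zero (Λ z₀)
  set τ₀ := nt ε (Λ z₀) with hτ₀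
  set v₀ : Fin r → ℂ := fun i => u i z₀ / (Λ z₀).ω₁ with hv₀
  -- independence modulo periods
  have hind : ∀ n : Fin r → ℤ, n ≠ 0 → ∑ i, (n i : ℂ) * v₀ i ∉ (LC τ₀).lattice := by
    intro n hn
    have h1 := nm_notMem hε hi0 (g.pi n hn)
    have h2 : ∑ i, (n i : ℂ) * v₀ i = (∑ i, (n i : ℂ) * u i z₀) / (Λ z₀).ω₁ := by
      rw [Finset.sum_div]
      exact Finset.sum_congr rfl fun i _ => by rw [hv₀]; ring
    rw [h2]
    exact h1
  have hz2 : ∀ i, 2 * v₀ i ∉ (LC τ₀).lattice := by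
    intro i
    have h1 := hind (Pi.single i 2) (by
      intro h0
      have := congrFun h0 i
      rw [Pi.single_eq_same] at this
      exact two_ne_zero this)
    rw [Finset.sum_eq_single i] at h1
    · rw [Pi.single_eq_same] at h1
      exact_mod_cast h1
    · intro j _ hj
      rw [Pi.single_eq_of_ne hj]
      simp
    · intro h; exact absurd (Finset.mem_univ i) h
  have hzq : ∀ c : Fin r → ℚ, ∀ a b : ℚ, ∑ i, (c i : ℂ) * v₀ i = a + b * τ₀ → c = 0 := by
    intro c a b hc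
    by_contra hne
    obtain ⟨A, hA, m, hm⟩ := exists_den (n := r + 2) (Fin.append c ![a, b])
    have hA' : (A : ℚ) ≠ 0 := by exact_mod_cast hA.ne'
    have m1 : ∀ i : Fin r, (m (Fin.castAdd 2 i) : ℚ) = A * c i := fun i => by
      rw [hm, Fin.append_left]
    have m2 : (m (Fin.natAdd r 0) : ℚ) = A * a := by
      rw [hm, Fin.append_right]; rfl
    have m3 : (m (Fin.natAdd r 1) : ℚ) = A * b := by
      rw [hm, Fin.append_right]; rfl
    apply hind (fun i => m (Fin.castAdd 2 i))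
    · intro h0
      apply hne
      funext i
      have h1 := m1 i
      rw [show m (Fin.castAdd 2 i) = 0 from congrFun h0 i, Int.cast_zero] at h1
      exact (mul_eq_zero.1 h1.symm).resolve_left hA'
    · rw [mem_LC hi0]
      refine ⟨m (Fin.natAdd r 0), m (Fin.natAdd r 1), ?_⟩
      have e1 : (m (Fin.natAdd r 0) : ℂ) = A * a := by exact_mod_cast congrArg (fun t : ℚ => (t : ℂ)) m2
      have e2 : (m (Fin.natAdd r 1) : ℂ) = A * b := by exact_mod_cast congrArg (fun t : ℚ => (t : ℂ)) m3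
      have e3 : ∑ i, (m (Fin.castAdd 2 i) : ℂ) * v₀ i = A * ∑ i, (c i : ℂ) * v₀ i := by
        rw [Finset.mul_sum]
        refine Finset.sum_congr rfl fun i _ => ?_
        have h2 : (m (Fin.castAdd 2 i) : ℂ) = A * c i := by
          exact_mod_cast congrArg (fun t : ℚ => (t : ℂ)) (m1 i)
        rw [h2]
        ring
      rw [e1, e2, e3, hc]
      ring
  -- the normalized data
  have hai := T0_spec.2 τ₀ hi0 g.T0
  have hbk : be τ₀ ∈ k0 := by
    rw [be_eq hi0]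
    exact Subfield.subset_closure rfl
  have hg20 : (LC τ₀).g₂ ≠ 0 := hai.ne_zero 2
  obtain ⟨l₀, hl⟩ := IsAlgClosed.exists_pow_nat_eq ((LC τ₀).g₃ / (LC τ₀).g₂) (n := 2) two_pos
  have hl' : l₀ ^ 2 * (LC τ₀).g₂ = (LC τ₀).g₃ := by
    rw [hl]
    field_simp
  have hG : Gp k0 τ₀ l₀ v₀ D := ⟨hi0, hbk, hai, hcmp, hl'⟩
  have hrank := rank_gp noBad (F := Cst D) hG (fun x hx => hx) (t := (![] : Fin 0 → ℂ))
    (fun i => i.elim0) (fun _ _ => Subsingleton.elim _ _) hz2 hzq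
  rw [← hG.Cst_Dh] at hrank
  have hl0 := hG.l0
  set L' := hG.Lh with hL'
  set D' := hG.Dh with hD'
  have hbl : be τ₀ * l₀ ^ 2 ≠ 0 := mul_ne_zero hG.b0 (pow_ne_zero 2 hl0)
  have hFC : F ≤ Cst D' := by
    intro x hx
    rw [hG.Cst_Dh]
    exact hDF x hx
  -- algebraic numbers
  set ν : ℂ := l₀ / (Λ z₀).ω₁ with hν
  have hν0 : ν ≠ 0 := div_ne_zero hl0 hω
  have mA2 : (Λ z₀).g₂ ∈ clo (Cst D') {z₀} := a2.mem hFC hz g.tr
  have mA3 : (Λ z₀).g₃ ∈ clo (Cst D') {z₀} := a3.mem hFC hz g.tr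
  have hΛ2 : (Λ z₀).g₂ = (LC τ₀).g₂ / (Λ z₀).ω₁ ^ 4 := hHm.g₂
  have hΛ3 : (Λ z₀).g₃ = (LC τ₀).g₃ / (Λ z₀).ω₁ ^ 6 := hHm.g₃
  have hΛ20 : (Λ z₀).g₂ ≠ 0 := by
    rw [hΛ2]
    exact div_ne_zero hg20 (pow_ne_zero 4 hω)
  have mν : ν ∈ clo (Cst D') {z₀} := by
    apply sq_clo hν0
    have h1 : ν ^ 2 = (Λ z₀).g₃ / (Λ z₀).g₂ := by
      rw [hΛ2, hΛ3, hν, ← hl']
      field_simp
    rw [h1]
    exact div_mem mA3 mA2
  have hg2h : L'.g₂ = (Λ z₀).g₂ / ν ^ 4 := by
    rw [hG.gh, hΛ2, hν]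
    field_simp
  have mg : L'.g₂ ∈ clo (Cst D') {z₀} := by
    rw [hg2h]
    exact div_mem mA2 (pow_mem mν 4)
  have hz0K : z₀ ∈ K0 L' D' := by
    intro δ hC hS
    have hS' : δ L'.g₂ = 0 := hS _ rfl
    have hDz' : D' z₀ ≠ 0 := by
      rw [hD', hG.Dh_apply]
      exact div_ne_zero hDz hbl
    have h1 := mg (δ - (δ z₀ / D' z₀) • D')
      ((DF _).sub_mem hC ((DF _).smul_mem _ D_DF)) (fun x hx => by
        rw [Set.mem_singleton_iff] at hx
        rw [hx, Derivation.sub_apply, Derivation.smul_apply, smul_eq_mul]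
        field_simp
        ring)
    rw [Derivation.sub_apply, Derivation.smul_apply, smul_eq_mul, hS', zero_sub, neg_eq_zero] at h1
    have h2 := (mul_eq_zero.1 h1).resolve_right (Dg_ne hG.nrm)
    exact (div_eq_zero_iff.1 h2).resolve_right hDz'
  have hAK : clo (Cst D') {z₀} ≤ K0 L' D' := clo_le (fun s hs => by
    rw [Set.mem_singleton_iff] at hs
    rw [hs]
    exact hz0K)
  -- the data
  set p : Fin r → ℂ := fun i => l₀ * v₀ i with hp
  set t : Fin s → ℂ := fun k => l k z₀ with ht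
  have hpu : ∀ i, p i = ν * u i z₀ := fun i => by
    rw [hp, hν, hv₀]
    ring
  have hpK : ∀ i, ℘[L'] (p i) ∈ K0 L' D' := by
    intro i
    have e1 : ℘[L'] (p i) = ℘[LC τ₀] (v₀ i) / l₀ ^ 2 := hG.hm.wp _
    have e2 : ℘[Λ z₀] (u i z₀) = ℘[LC τ₀] (v₀ i) / (Λ z₀).ω₁ ^ 2 := by
      have := hHm.wp (v₀ i)
      rw [hv₀, mul_div_cancel₀ _ hω] at this
      exact this
    have e3 : ℘[L'] (p i) = ℘[Λ z₀] (u i z₀) / ν ^ 2 := by
      rw [e1, e2, hν]
      field_simp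
    rw [e3]
    exact hAK (div_mem ((aw i).mem hFC hz g.tr) (pow_mem mν 2))
  have hxai0 : AlgebraicIndependent (Cst D') (xx L' (![] : Fin 0 → ℂ) p) := by
    apply indep_of_rank
    have hcard : Fintype.card (Fin 4 ⊕ (Fin 0 ⊕ (Fin r ⊕ Fin r))) = 4 + (0 + 2 * r) := by
      simp only [Fintype.card_sum, Fintype.card_fin]
      ring
    rw [hcard]
    refine hrank.trans (rk_le_of_subset_cl ?_)
    intro x hx
    rw [← mem_clo_iff]
    change x ∈ KX L' D' (![] : Fin 0 → ℂ) p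
    have hK1 := K1_le_KX hG.nrm (![] : Fin 0 → ℂ) p
    have hK0 : K0 L' D' ≤ KX L' D' (![] : Fin 0 → ℂ) p := K0_le.trans hK1
    have b1 : l₀ ∈ K1 L' D' := by
      have := ω₁_K1 (L := L') (D := D')
      rwa [hG.o1] at this
    have b2 : τ₀ ∈ K1 L' D' := by
      have h2 := ω₂_K1 (L := L') (D := D')
      rw [hG.o2] at h2
      have h3 : (l₀ * τ₀) / l₀ = τ₀ := by field_simp
      have h4 := div_mem h2 b1
      rwa [h3] at h4
    have b3 : (LC τ₀).g₂ ∈ K1 L' D' := by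
      have h2 := g_K1 (L := L') (D := D')
      have h3 : L'.g₂ * l₀ ^ 4 = (LC τ₀).g₂ := by
        rw [hG.gh]
        field_simp
      have h4 := mul_mem h2 (pow_mem b1 4)
      rwa [h3] at h4
    rcases hx with ⟨i, rfl⟩ | (⟨i, rfl⟩ | ⟨i, rfl⟩) | (⟨i, rfl⟩ | ⟨i, rfl⟩ | ⟨i, rfl⟩)
    · apply hK1
      fin_cases i
      · exact b2
      · have h2 := η₁_K1 (L := L') (D := D')
        rw [hG.n1] at h2
        have h3 : h1 τ₀ / l₀ * l₀ = h1 τ₀ := by field_simp
        have h4 := mul_mem h2 b1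
        rwa [h3] at h4
      · exact b3
      · change (LC τ₀).g₃ ∈ _
        rw [← hG.hl]
        exact mul_mem (pow_mem b1 2) b3
    · exact i.elim0
    · exact i.elim0
    · exact xx_mem (L := L') (t := (![] : Fin 0 → ℂ)) (p := p) (Sum.inr (Sum.inr (Sum.inl i)))
    · exact xx_mem (L := L') (t := (![] : Fin 0 → ℂ)) (p := p) (Sum.inr (Sum.inr (Sum.inr i)))
    · exact hK0 (hpK i)
  have hp2 : ∀ j, 2 * p j ∉ L'.lattice := by
    intro j
    have e1 : 2 * p j = l₀ * (2 * v₀ j) := by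
      rw [hp]
      ring
    rw [e1, hG.hm.notMem]
    exact hz2 j
  -- the tower
  have hCC : Cst D' = Cst D := hG.Cst_Dh
  have hD₀C : D₀ ∈ DF (Cst D') := by
    intro x hx
    rw [hCC, mem_Cst, hDD, Derivation.smul_apply, smul_eq_mul] at hx
    exact (mul_eq_zero.1 hx).resolve_left (div_ne_zero one_ne_zero g.dt)
  have hvals := ai_vals h.toLF.isOpen h.toLF.conn hz hT.la hT.li hD₀C hD₀l
  have hD₀z : D₀ z₀ = 1 := by
    have h1 := hD₀l none
    have h2 : deriv (it l none) z₀ = 1 := (hasDerivAt_id z₀).deriv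
    rw [h2] at h1
    exact h1
  have hDtz : ∀ k, D' (t k) = deriv (l k) z₀ * D' z₀ := by
    intro k
    have e1 : D₀ (l k z₀) = deriv (l k) z₀ := by
      have h1 := hD₀l (some (k, 0))
      have h2 : it l (some (k, 0)) = l k := by
        funext z
        change iteratedDeriv 0 (l k) z = l k z
        rw [iteratedDeriv_zero]
      rw [h2] at h1
      exact h1
    rw [hD', hG.Dh_apply, hG.Dh_apply, hDD, Derivation.smul_apply, Derivation.smul_apply, e1, hD₀z,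
      smul_eq_mul, smul_eq_mul]
    ring
  have hti : AlgebraicIndependent (Cst D') (fun o : Option (Fin s) => o.elim L'.g₂ t) := by
    apply indep_of_rank
    have h2 : (MK (Cst D')).Indep
        (Set.range (fun o : Option (Fin s) => o.elim z₀ (fun k => l k z₀))) := by
      rw [AlgebraicIndependent.matroid_indep_iff]
      exact AlgebraicIndependent.coe_range hvals
    have h3 : (MK (Cst D')).eRk
        (Set.range (fun o : Option (Fin s) => o.elim z₀ (fun k => l k z₀))) =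
        ((Fintype.card (Option (Fin s)) : ℕ) : ℕ∞) := by
      rw [h2.eRk_eq_encard, ← Set.image_univ, hvals.injective.encard_image, Set.encard_univ,
        ENat.card_eq_coe_fintype_card]
    rw [← h3]
    apply rk_le_of_subset_cl
    rintro _ ⟨o, rfl⟩
    rw [← mem_clo_iff]
    cases o with
    | none =>
      refine clo_le (fun x hx => ?_) hz0K
      rw [Set.mem_singleton_iff] at hx
      rw [hx]
      exact subset_clo ⟨none, rfl⟩
    | some k => exact subset_clo ⟨some k, rfl⟩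
  have htw : ∀ k, D' (t k) ∈ clo (Cst D') (insert L'.g₂ (t '' Set.Iio k)) := by
    intro k
    have hK0' : K0 L' D' ≤ clo (Cst D') (insert L'.g₂ (t '' Set.Iio k)) := clo_le (fun x hx => by
      rw [Set.mem_singleton_iff] at hx
      rw [hx]
      exact subset_clo (Or.inl rfl))
    rw [hDtz k]
    refine mul_mem ?_ (hK0' (D_K0 hG.nrm hz0K))
    obtain ⟨P, hP0, hPF, hP⟩ := at' k
    have hinj : AlgebraicIndependent (Cst D')
        (fun i : {i : Fin 2 ⊕ Fin k // i ≠ Sum.inl 1} => tw l k z₀ i) := by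
      let e : {i : Fin 2 ⊕ Fin k // i ≠ Sum.inl 1} → Option (Fin s) := fun i =>
        Sum.elim (fun _ => none) (fun j => some (Fin.castLE k.isLt.le j)) i.1
      have he : Function.Injective e := by
        rintro ⟨i, hi⟩ ⟨j, hj⟩ hij
        apply Subtype.ext
        change i = j
        rcases i with i | i <;> rcases j with j | j
        · have h1 : i = 0 := by
            fin_cases i
            · rfl
            · exact absurd rfl hi
          have h2 : j = 0 := by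
            fin_cases j
            · rfl
            · exact absurd rfl hj
          rw [h1, h2]
        · exact absurd hij (by simp [e])
        · exact absurd hij (by simp [e])
        · have h3 : Fin.castLE k.isLt.le i = Fin.castLE k.isLt.le j := Option.some_injective _ hij
          rw [Fin.castLE_injective _ h3]
      have h1 := hvals.comp e he
      have h2 : (fun i : {i : Fin 2 ⊕ Fin k // i ≠ Sum.inl 1} => tw l k z₀ i) =
          (fun o : Option (Fin s) => o.elim z₀ (fun k => l k z₀)) ∘ e := by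
        funext ⟨i, hi⟩
        rcases i with i | i
        · fin_cases i
          · rfl
          · exact absurd rfl hi
        · rfl
      rw [h2]
      exact h1
    have hmem := mem_of_rel (v := tw l k z₀) (Sum.inl 1) hinj hP0 (fun c hc => hFC (hPF c hc))
      (hP z₀ hz)
    have hval : tw l k z₀ (Sum.inl 1) = deriv (l k) z₀ := rfl
    rw [hval] at hmem
    refine clo_le ?_ hmem
    rintro _ ⟨⟨i, hi⟩, rfl⟩
    rcases i with i | i
    · fin_cases i
      · exact hK0' hz0K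
      · exact absurd rfl hi
    · exact subset_clo (Or.inr ⟨Fin.castLE k.isLt.le i, by
        change (Fin.castLE k.isLt.le i) < k
        exact i.isLt, rfl⟩)
  have hxai : AlgebraicIndependent (Cst D') (xx L' t p) :=
    ai_tower hG.nrm (fun i => hG.mem_Cm' (hz2 i)) hpK hp2 hxai0 t htw hti
  have hdat : DatT hG.nrm t p := ⟨fun i => hG.mem_Cm' (hz2 i), hpK, fun k =>
    clo_le (fun x hx => subset_clo (Set.insert_subset_insert (Set.image_subset_range _ _) hx))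
      (htw k), hxai⟩
  -- combinations
  have hcomb : ∀ n : Fin r → ℤ, ∑ i, ((n i : ℤ) : ℚ) • p i = l₀ * ∑ i, (n i : ℂ) * v₀ i := by
    intro n
    rw [Finset.mul_sum]
    refine Finset.sum_congr rfl fun i _ => ?_
    rw [Rat.smul_def, hp]
    push_cast
    ring
  have hN0 : ∀ k, N k ≠ 0 := by
    intro k h0
    have h1 := h.Ni (Pi.single k 1) (fun i j => by
      rw [Finset.sum_eq_single k]
      · rw [h0]
        simp
      · intro j _ hj
        rw [Pi.single_eq_of_ne hj, zero_mul]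
      · intro h; exact absurd (Finset.mem_univ k) h)
    have h2 := congrFun h1 k
    rw [Pi.single_eq_same] at h2
    exact one_ne_zero h2
  have hN2 : ∀ k, 2 * ∑ i, ((N k i : ℤ) : ℚ) • p i ∉ L'.lattice := by
    intro k
    have e1 : 2 * ∑ i, ((N k i : ℤ) : ℚ) • p i = l₀ * ∑ i, (((fun i => 2 * N k i) i : ℤ) : ℂ) * v₀ i := by
      rw [hcomb, Finset.mul_sum, Finset.mul_sum, Finset.mul_sum]
      refine Finset.sum_congr rfl fun i _ => ?_
      push_cast
      ring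
    rw [e1, hG.hm.notMem]
    apply hind
    intro h0
    apply hN0 k
    funext i
    have := congrFun h0 i
    simp only [Pi.zero_apply, mul_eq_zero] at this
    exact this.resolve_left two_ne_zero
  -- the logarithms of sigma
  have hLS : ∀ k, IsLS L' D' (∑ i, ((N k i : ℤ) : ℚ) • p i) (S k z₀) := by
    intro k
    obtain ⟨w1, -, -, -⟩ := wp_comb hG.nrm hpK (fun i => ((N k i : ℤ) : ℚ)) (hN2 k)
    have hXC : ∑ i, ((N k i : ℤ) : ℚ) • p i ∈ Cm hG.nrm :=
      Submodule.sum_mem _ fun j _ => Submodule.smul_mem _ _ (hdat.hp j)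
    have hX2 := hN2 k
    have hS1 := hDS k
    rw [hcomb] at w1 hXC hX2 ⊢
    set x₀ := ∑ i, (N k i : ℂ) * v₀ i with hx₀
    have hxn : x₀ ∉ (LC τ₀).lattice := by
      rw [← hG.hm.notMem]
      exact two_mul_notMem_of _ hX2
    have ezt : zt L' (l₀ * x₀) = zeta (LC τ₀) x₀ / l₀ := by
      rw [hG.hm.zt, zt_of_notMem hxn]
    have ewp : ℘[L'] (l₀ * x₀) = ℘[LC τ₀] x₀ / l₀ ^ 2 := hG.hm.wp _
    have hDl := hG.Dl
    have hvv : vv L' D' (aa L') 1 (l₀ * x₀) = D' (l₀ * x₀) - aa L' * (l₀ * x₀) -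
        zt L' (l₀ * x₀) := by
      rw [D_z hXC]
      ring
    have hDlx : D' (l₀ * x₀) = (l₀ * D x₀ + x₀ * D l₀) / (be τ₀ * l₀ ^ 2) := by
      rw [hD', hG.Dh_apply, D_mul]
    have hDS' : D' (S k z₀) = (D (Λ z₀).ω₁ / (Λ z₀).ω₁ + Qt τ₀ x₀ +
        zeta (LC τ₀) x₀ * D x₀) / (be τ₀ * l₀ ^ 2) := by
      rw [hD', hG.Dh_apply, hS1]
    have hDν : D (Λ z₀).ω₁ / (Λ z₀).ω₁ = D l₀ / l₀ - D ν / ν := by
      have e1 : l₀ = ν * (Λ z₀).ω₁ := by
        rw [hν]
        field_simp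
      have e2 : D l₀ = ν * D (Λ z₀).ω₁ + (Λ z₀).ω₁ * D ν := by
        conv_lhs => rw [e1, D_mul]
      rw [e2]
      have e3 : l₀ ≠ 0 := hl0
      rw [e1]
      field_simp
      ring
    have hfin : D' (S k z₀) - (vv L' D' (aa L') 1 (l₀ * x₀) * zt L' (l₀ * x₀) +
        zt L' (l₀ * x₀) ^ 2 / 2 - L'.g₂ / 24 * (l₀ * x₀) ^ 2) =
        aa L' + ℘[L'] (l₀ * x₀) / 2 - D' ν / ν := by
      rw [hvv, hDS', hDν, hDlx, ezt, ewp, hDl, hD', hG.Dh_apply, aa, hG.gh, Qt]
      have hb0 := hG.b0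
      field_simp
      ring
    unfold IsLS
    rw [hfin]
    have haa : aa L' ∈ K0 L' D' := sub_mem (ofNat_mem _ 3) (div_mem g_K0 (ofNat_mem _ 6))
    exact sub_mem (add_mem haa (div_mem w1 (ofNat_mem _ 2)))
      (div_mem (D_K0 hG.nrm (hAK mν)) (hAK mν))
  have hfinal := rank_thirdT hdat hp2 hN2 (Ni_complex h.Ni) hLS
  -- transfer
  have key : AlgebraicIndependent (Cst D') (yO Λ u l S z₀) := by
    apply indep_of_rank
    have hcard : Fintype.card (Option (Yi r s q)) = 4 + (s + 2 * r) + q := by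
      simp only [Fintype.card_option, Fintype.card_sum, Fintype.card_fin]
      ring
    rw [hcard]
    refine hfinal.trans (rk_le_of_subset_cl ?_)
    intro x hx
    rw [← mem_clo_iff]
    have mO : ∀ o, yO Λ u l S z₀ o ∈ clo (Cst D') (Set.range (yO Λ u l S z₀)) := fun o =>
      subset_clo ⟨o, rfl⟩
    have hAY : clo (Cst D') {z₀} ≤ clo (Cst D') (Set.range (yO Λ u l S z₀)) :=
      clo_le (fun s hs => by
        rw [Set.mem_singleton_iff] at hs
        rw [hs]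
        exact mO none)
    have y1 : (Λ z₀).ω₁ ∈ clo (Cst D') (Set.range (yO Λ u l S z₀)) := mO (some (Sum.inl 0))
    have y2 : (Λ z₀).ω₂ ∈ clo (Cst D') (Set.range (yO Λ u l S z₀)) := mO (some (Sum.inl 1))
    have y3 : eta (Λ z₀) (Λ z₀).ω₁ ∈ clo (Cst D') (Set.range (yO Λ u l S z₀)) :=
      mO (some (Sum.inl 2))
    have y4 : ∀ i, u i z₀ ∈ clo (Cst D') (Set.range (yO Λ u l S z₀)) := fun i =>
      mO (some (Sum.inr (Sum.inl i)))
    have y5 : ∀ i, zeta (Λ z₀) (u i z₀) ∈ clo (Cst D') (Set.range (yO Λ u l S z₀)) := fun i =>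
      mO (some (Sum.inr (Sum.inr (Sum.inl i))))
    have y6 : ∀ k, l k z₀ ∈ clo (Cst D') (Set.range (yO Λ u l S z₀)) := fun k =>
      mO (some (Sum.inr (Sum.inr (Sum.inr (Sum.inl k)))))
    have y7 : ∀ k, S k z₀ ∈ clo (Cst D') (Set.range (yO Λ u l S z₀)) := fun k =>
      mO (some (Sum.inr (Sum.inr (Sum.inr (Sum.inr k)))))
    have yν := hAY mν
    have yε : ε ∈ clo (Cst D') (Set.range (yO Λ u l S z₀)) := by
      rcases hε with rfl | rfl
      · exact one_mem _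
      · exact neg_mem (one_mem _)
    rcases hx with ⟨a, rfl⟩ | ⟨k, rfl⟩
    · rcases a with a | k | i | i
      · fin_cases a
        · exact hAY mg
        · change L'.ω₁ ∈ _
          have e1 : L'.ω₁ = ν * (Λ z₀).ω₁ := by
            rw [hG.o1, hν]
            field_simp
          rw [e1]
          exact mul_mem yν y1
        · change L'.ω₂ ∈ _
          have e1 : L'.ω₂ = ν * (ε * (Λ z₀).ω₂) := by
            rw [hG.o2, hν, hτ₀, nt]
            field_simp
          rw [e1]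
          exact mul_mem yν (mul_mem yε y2)
        · change eta L' L'.ω₁ ∈ _
          have e1 : eta L' L'.ω₁ = eta (Λ z₀) (Λ z₀).ω₁ / ν := by
            have e2 := hHm.eta (one_mem hi0)
            rw [mul_one] at e2
            rw [hG.n1, e2, hν]
            change h1 τ₀ / l₀ = h1 τ₀ / (Λ z₀).ω₁ / (l₀ / (Λ z₀).ω₁)
            field_simp
          rw [e1]
          exact div_mem y3 yν
      · exact y6 k
      · change p i ∈ _
        rw [hpu]
        exact mul_mem yν (y4 i)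
      · change zt L' (p i) ∈ _
        have hnm : v₀ i ∉ (LC τ₀).lattice := two_mul_notMem_of _ (hz2 i)
        have e1 : zt L' (p i) = zeta (Λ z₀) (u i z₀) / ν := by
          have e2 : zt L' (p i) = zeta (LC τ₀) (v₀ i) / l₀ := by
            rw [hp, hG.hm.zt, zt_of_notMem hnm]
          have e3 := hHm.zeta (v₀ i)
          rw [hv₀, mul_div_cancel₀ _ hω] at e3
          rw [e2, e3, hν]
          field_simp
          rfl
        rw [e1]
        exact div_mem (y5 i) yν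
    · exact y7 k
  let _ : Algebra F (Cst D') := (IntermediateField.inclusion hFC).toRingHom.toAlgebra
  have : IsScalarTower F (Cst D') ℂ := IsScalarTower.of_algebraMap_eq (fun _ => rfl)
  exact key.restrictScalars (K := Cst D') (algebraMap F (Cst D')).injective

end

end Pool.Agent.Y776.Fam
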