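import Mathlib
import Pool.Agent.Y776.Fam.PtT
import Pool.Agent.Y776.Fam.Main
import Pool.Agent.Y124.NFW

/-!
# Families of lattices with points and a tower: independence of the functions, and their values
-/

set_option autoImplicit false

open Filter Topology Set
open scoped PeriodPair

noncomputable section

namespace Pool.Agent.Y776.Fam

open H667R3 Pool.Agent.W245.EB Pool.Agent.TH813.Ell Pool.Agent.Y685 Pool.Agent.Y685.H2
open Pool.Agent.Y124 (LocInd OneV oneV_of ExcNF excNF)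

variable {U : Set ℂ} {Λ : ℂ → PeriodPair} {r s q : ℕ}

section

variable {u : Fin r → ℂ → ℂ} {l : Fin s → ℂ → ℂ} {N : Fin q → Fin r → ℤ} {S : Fin q → ℂ → ℂ}

theorem yfam_anT (h : FmT U Λ u l N S) (i : Yi r s q) : AnalyticOnNhd ℂ (yfam Λ u l S i) U := by
  have hL := h.base.toLF
  rcases i with j | i | i | k | k
  · fin_cases j
    · exact hL.an₁
    · exact hL.an₂
    · exact hL.an_eta
  · exact h.base.ua i
  · exact hL.an_zeta (h.base.ua i) (h.base.un i)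
  · exact h.la k
  · exact h.base.Sa k

/-- **independence of the functions** -/
theorem fam_locIndT (h : FmT U Λ u l N S) {t : ℂ} (ht : t ∈ U) : LocInd (yfam Λ u l S) t := by
  classical
  have hL := h.base.toLF
  obtain ⟨ε, hε, him⟩ := hL.exists_eps
  obtain ⟨P2, hP20, hP2⟩ := h.base.ag2
  obtain ⟨P3, hP30, hP3⟩ := h.base.ag3
  choose Pw hPw0 hPw using h.base.uw
  choose Pt hPt0 hPt using h.lt
  obtain ⟨F, hFc, hSF⟩ := exists_cf (T := {be0} ∪ ((P2.coeffs : Set ℂ) ∪ ((P3.coeffs : Set ℂ) ∪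
    ((⋃ i, ((Pw i).coeffs : Set ℂ)) ∪ ((⋃ k, ((Pt k).coeffs : Set ℂ)) ∪ TS (yfam Λ u l S) t)))))
    ((Set.countable_singleton _).union ((Finset.countable_toSet _).union
      ((Finset.countable_toSet _).union ((Set.countable_iUnion fun i => Finset.countable_toSet _).union
        ((Set.countable_iUnion fun i => Finset.countable_toSet _).union (TS_countable _ _))))))
  have hb : be0 ∈ F := hSF (Or.inl rfl)
  have a2 : AlgOver F U (fun z => (Λ z).g₂) := ⟨P2, hP20, fun c hc => hSF (Or.inr (Or.inl hc)), hP2⟩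
  have a3 : AlgOver F U (fun z => (Λ z).g₃) :=
    ⟨P3, hP30, fun c hc => hSF (Or.inr (Or.inr (Or.inl hc))), hP3⟩
  have aw : ∀ i, AlgOver F U (fun z => ℘[Λ z] (u i z)) := fun i =>
    ⟨Pw i, hPw0 i, fun c hc => hSF (Or.inr (Or.inr (Or.inr (Or.inl (mem_iUnion.2 ⟨i, hc⟩))))), hPw i⟩
  have ae : ∀ k : Fin s, ∃ P : MvPolynomial (Fin 2 ⊕ Fin k) ℂ, P ≠ 0 ∧ (∀ c ∈ P.coeffs, c ∈ F) ∧
      ∀ z ∈ U, MvPolynomial.eval (tw l k z) P = 0 := fun k =>
    ⟨Pt k, hPt0 k, fun c hc => hSF (Or.inr (Or.inr (Or.inr (Or.inr (Or.inl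
      (mem_iUnion.2 ⟨k, hc⟩)))))), hPt k⟩
  have hTS : TS (yfam Λ u l S) t ⊆ F := fun x hx =>
    hSF (Or.inr (Or.inr (Or.inr (Or.inr (Or.inr hx)))))
  obtain ⟨z₀, hz₀, hg⟩ := exists_notMem hL.isOpen ⟨t, ht⟩ (countable_GenPtT h hε him hFc ⟨t, ht⟩)
  have hg' : GenPtT U Λ u l S ε F z₀ := by
    by_contra hcon
    exact hg ⟨hz₀, hcon⟩
  exact locInd_of hL.conn hL.isOpen (yfam_anT h) ht hTS hz₀
    (pt_indepT h hε him hb a2 a3 aw ae hg') ht

end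

open NumberField
open Pool.Agent.Y124 (nfW relK_of_poly')

/-- **the values at points of number fields** -/
theorem fam_NFT {η : Type} [Fintype η] [DecidableEq η] (m n d : ℕ) {U : Fin n → Set ℂ}
    {Λ : Fin n → ℂ → PeriodPair} {u : Fin n → Fin r → ℂ → ℂ} {l : Fin n → Fin s → ℂ → ℂ}
    {N : Fin n → Fin q → Fin r → ℤ} {S : Fin n → Fin q → ℂ → ℂ}
    (h : ∀ j, FmT (U j) (Λ j) (u j) (l j) (N j) (S j)) {K : Set ℂ}
    (hK : IsCompact K) (hKU : ∀ j, K ⊆ U j) (A ε : ℝ) (hε : 0 < ε) :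
    ∃ B C T₀ : ℝ, 0 ≤ C ∧ 2 ≤ T₀ ∧ ∀ (F : Type) [Field F] [NumberField F],
      Module.finrank ℚ F ≤ m → ∀ (io : F →+* ℂ) (ξ : η → ℂ) (T : ℝ), T₀ ≤ T →
      ∀ E : Set (Fin n → F), (∀ t ∈ E, (∀ j, Y120.HtLe F T (t j) ∧ io (t j) ∈ K) ∧
        ∃ P : MvPolynomial (Fin n × Yi r s q) ℂ, (∀ x, P.degreeOf x ≤ d) ∧
        (∀ s, ∃ c : η → 𝓞 F, (∀ i (φ : F →+* ℂ), ‖φ (c i : F)‖ ≤ T ^ A) ∧
          P.coeff s = ∑ i, ξ i * io (c i : F)) ∧
        ∃ s₀, P.coeff s₀ ≠ 0 ∧ ‖MvPolynomial.aeval (fun x : Fin n × Yi r s q =>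
          yfam (Λ x.1) (u x.1) (l x.1) (S x.1) x.2 (io (t x.1))) P‖ ≤ T ^ (-B) * ‖P.coeff s₀‖) →
      E.Finite ∧ (E.ncard : ℝ) ≤
        C * T ^ ε * (({x : F | Y120.HtLe F T x ∧ io x ∈ K}.ncard : ℝ)) ^ (n - 1) := by
  classical
  obtain ⟨B, C, T₀, hC, hT₀, H⟩ := nfW m n (α := ℂ) (κ := Yi r s q) (fun x => x) (fun _ => K) K
    (fun j x hx => hx) 1 (fun j x => by
      have h1 : {y | y ∈ K ∧ y = x} ⊆ {x} := fun y hy => hy.2
      exact ⟨(Set.finite_singleton x).subset h1, by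
        simpa using Set.ncard_le_ncard h1 (Set.finite_singleton x)⟩)
    (fun j z i => yfam (Λ j) (u j) (l j) (S j) i z) (fun g j =>
      oneV_of g (yfam (Λ j) (u j) (l j) (S j)) K hK
        (fun i t ht => yfam_anT (h j) i t (hKU j ht)) fun t ht => fam_locIndT (h j) (hKU j ht))
    η d A ε hε
  refine ⟨B, C, T₀, hC, hT₀, fun F _ _ hm io ξ T hT E hE => H F hm io ξ T hT E fun t ht => ?_⟩
  obtain ⟨h1, P, hPd, hPc, s₀, hs₀, hs⟩ := hE t ht
  refine ⟨fun j => io (t j), fun j => ⟨(h1 j).2, rfl, (h1 j).1⟩, ?_⟩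
  exact relK_of_poly' F io ξ _ _ _ _ P hPd hPc s₀ hs₀ hs

end Pool.Agent.Y776.Fam
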